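import Pool.Agent.Lib.MP_0775d3_lc.Om.FdDefs

/-! Project OM: calculus of `FD`. -/

namespace MP0775d3.Om

open Matrix MP0775d3.Cf MP0775d3.Sl2

theorem FD.mono {G : Type} [Group G] {w s w' s' : ℝ} {t t' : ℕ} (h : FD w s t G) (hw : w ≤ w')
    (hs : s ≤ s') (ht : t ≤ t') (hs' : 1 ≤ s') : FD w' s' t' G := by
  obtain ⟨I, i1, i2, D, i3, i4, U, U', hc, hU, hU', hf⟩ := h
  exact ⟨I, i1, i2, D, i3, i4, U, U', hc, hU.mono hw hs ht hs', hU'.mono hw hs ht hs', hf⟩

theorem FD.congr {G H : Type} [Group G] [Group H] {w s : ℝ} {t : ℕ} (e : G ≃* H)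
    (h : FD w s t G) : FD w s t H := by
  obtain ⟨I, i1, i2, D, i3, i4, U, U', hc, hU, hU', hf⟩ := h
  refine ⟨I, i1, i2, D, i3, i4, U.submatrix e.symm id, U'.submatrix id e.symm, ?_,
    hU.submatrix e.symm.injective Function.injective_id,
    hU'.submatrix Function.injective_id e.symm.injective, fun f => ?_⟩
  · rw [← Nat.card_congr e.toEquiv]
    exact hc
  · obtain ⟨A, hA⟩ := hf fun g => f (e g)
    refine ⟨A, ?_⟩
    have e1 : groupMat f = (groupMat fun g => f (e g)).submatrix e.symm e.symm := by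
      ext x y
      simp [groupMat]
    rw [e1, hA]
    ext x y
    simp only [submatrix_apply, Matrix.mul_apply, id_eq]

private theorem fdReps_sq {G : Type} [Group G] [Fintype G] [DecidableEq G] {I : Type} [Fintype I]
    (D : I → Type) [∀ i, Fintype (D i)] [∀ i, DecidableEq (D i)]
    (π : ∀ i, G → Matrix (D i) (D i) ℂ) (h1 : ∀ i, π i 1 = 1)
    (htr : ∀ g, ∑ i, (Fintype.card (D i) : ℂ) * (π i g).trace =
      if g = 1 then (Fintype.card G : ℂ) else 0) :
    ∑ i, Fintype.card (D i) * Fintype.card (D i) ≤ Nat.card G := by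
  have h := htr 1
  rw [if_pos rfl] at h
  have h2 : ((∑ i, Fintype.card (D i) * Fintype.card (D i) : ℕ) : ℂ) = (Fintype.card G : ℂ) := by
    rw [← h]
    push_cast
    refine Finset.sum_congr rfl fun i _ => ?_
    rw [h1 i, Matrix.trace_one]
  rw [Nat.card_eq_fintype_card]
  exact le_of_eq (by exact_mod_cast h2)

private theorem fdReps_bd {G I : Type} [Fintype I] [DecidableEq I] (K : I → Type)
    [∀ i, Fintype (K i)] (U : Matrix G (Σ i, K i) ℂ) (M : ∀ i, Matrix (K i) (K i) ℂ)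
    (x : G) (j : I) (b : K j) :
    (U * Matrix.blockDiagonal' M) x ⟨j, b⟩ = ∑ a, U x ⟨j, a⟩ * M j a b := by
  rw [Matrix.mul_apply, Fintype.sum_sigma, Finset.sum_eq_single j]
  · refine Finset.sum_congr rfl fun a _ => ?_
    rw [Matrix.blockDiagonal'_apply_eq]
  · intro i _ hij
    refine Finset.sum_eq_zero fun a _ => ?_
    rw [Matrix.blockDiagonal'_apply_ne M a b hij, mul_zero]
  · intro h
    exact absurd (Finset.mem_univ j) h

private theorem fdReps_kr {D : Type} [Fintype D] [DecidableEq D] (P A : Matrix D D ℂ) (b : D × D) :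
    ∑ a : D × D, P a.2 a.1 * kroneckerMap (· * ·) A (1 : Matrix D D ℂ) a b =
      (P * A) b.2 b.1 := by
  rw [Fintype.sum_prod_type, Matrix.mul_apply]
  refine Finset.sum_congr rfl fun r _ => ?_
  rw [Finset.sum_eq_single b.2]
  · simp
  · intro c _ hc
    simp [Matrix.one_apply_ne hc]
  · intro h
    exact absurd (Finset.mem_univ b.2) h

private theorem fdReps_tr {D : Type} [Fintype D] (P Q : Matrix D D ℂ) (c : ℂ) :
    ∑ b : D × D, P b.2 b.1 * (c * Q b.1 b.2) = c * (P * Q).trace := by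
  rw [Fintype.sum_prod_type, Finset.sum_comm, Matrix.trace, Finset.mul_sum]
  refine Finset.sum_congr rfl fun r _ => ?_
  rw [diag_apply, Matrix.mul_apply, Finset.mul_sum]
  refine Finset.sum_congr rfl fun k _ => ?_
  ring

/-- PROOF. `U g ⟨i, ρ, σ⟩ = π i g⁻¹ σ ρ` (`Bx.submatrix`), `U' ⟨i, ρ, σ⟩ g = |D i| / |G| * π i g ρ σ` (`Bx.scale`,
`Bx.transpose`), `A i = ∑ g, f g • π i g`: `groupMat f * U = U * (A ⊗ 1)` and `U * U' = 1`. The sum of the squares
is `htr 1`. -/
theorem fd_of_reps {G : Type} [Group G] [Fintype G] [DecidableEq G] {I : Type} [Fintype I]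
    [DecidableEq I] (D : I → Type) [∀ i, Fintype (D i)] [∀ i, DecidableEq (D i)]
    (π : ∀ i, G → Matrix (D i) (D i) ℂ) (h1 : ∀ i, π i 1 = 1)
    (hm : ∀ i g h, π i (g * h) = π i g * π i h)
    (htr : ∀ g, ∑ i, (Fintype.card (D i) : ℂ) * (π i g).trace =
      if g = 1 then (Fintype.card G : ℂ) else 0) {w s : ℝ} {t : ℕ} (ht : 1 ≤ t)
    (hU : Bx w s t (Matrix.of fun (g : G) (z : Σ i, D i × D i) => π z.1 g z.2.1 z.2.2)) :
    FD w s t G := by
  have hG : (Fintype.card G : ℂ) ≠ 0 := by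
    exact_mod_cast Fintype.card_ne_zero
  refine ⟨I, inferInstance, inferInstance, D, inferInstance, inferInstance,
    Matrix.of fun g z => π z.1 g⁻¹ z.2.2 z.2.1,
    Matrix.of fun z g => ((Fintype.card (D z.1) : ℂ) / Fintype.card G) * π z.1 g z.2.1 z.2.2,
    fdReps_sq D π h1 htr, ?_, ?_, fun f => ⟨fun i => ∑ g, f g • π i g, ?_⟩⟩
  · exact hU.submatrix (f := fun g : G => g⁻¹)
      (g := fun z : (Σ i, D i × D i) => (⟨z.1, z.2.2, z.2.1⟩ : Σ i, D i × D i)) inv_injective
      (by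
        rintro ⟨i, a, b⟩ ⟨j, c, d⟩ h
        simp only [Sigma.mk.injEq] at h
        obtain ⟨rfl, h⟩ := h
        simp only [heq_eq_eq, Prod.mk.injEq] at h
        obtain ⟨rfl, rfl⟩ := h
        rfl)
  · have h2 := hU.transpose.scale ht
      (fun z => ((Fintype.card (D z.1) : ℂ) / Fintype.card G)) (fun _ => 1)
    simp only [mul_one] at h2
    exact h2
  · ext x y
    rw [Matrix.mul_apply, Fintype.sum_sigma]
    have e1 : ∀ i, ∑ b : D i × D i, ((Matrix.of fun (g : G) (z : Σ i, D i × D i) =>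
        π z.1 g⁻¹ z.2.2 z.2.1) * Matrix.blockDiagonal' (fun i => Matrix.kroneckerMap (· * ·)
          (∑ g, f g • π i g) (1 : Matrix (D i) (D i) ℂ))) x ⟨i, b⟩ *
        ((Matrix.of fun (z : Σ i, D i × D i) (g : G) =>
          ((Fintype.card (D z.1) : ℂ) / Fintype.card G) * π z.1 g z.2.1 z.2.2) ⟨i, b⟩ y) =
        ∑ g, f g / Fintype.card G * (Fintype.card (D i) * (π i (x⁻¹ * g * y)).trace) := by
      intro i
      have e2 : ∀ b : D i × D i, ((Matrix.of fun (g : G) (z : Σ i, D i × D i) =>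
        π z.1 g⁻¹ z.2.2 z.2.1) * Matrix.blockDiagonal' (fun i => Matrix.kroneckerMap (· * ·)
          (∑ g, f g • π i g) (1 : Matrix (D i) (D i) ℂ))) x ⟨i, b⟩ =
          (π i x⁻¹ * ∑ g, f g • π i g) b.2 b.1 := by
        intro b
        rw [fdReps_bd (fun i => D i × D i)]
        exact fdReps_kr (π i x⁻¹) (∑ g, f g • π i g) b
      rw [Finset.sum_congr rfl fun b _ => by rw [e2 b]]
      refine (fdReps_tr (π i x⁻¹ * ∑ g, f g • π i g) (π i y)
        ((Fintype.card (D i) : ℂ) / Fintype.card G)).trans ?_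
      rw [Matrix.mul_sum, Matrix.sum_mul, Matrix.trace_sum, Finset.mul_sum]
      refine Finset.sum_congr rfl fun g _ => ?_
      rw [hm, hm, Matrix.mul_smul, Matrix.smul_mul, Matrix.trace_smul, smul_eq_mul]
      ring
    rw [Finset.sum_congr rfl fun i _ => e1 i, Finset.sum_comm]
    have e3 : ∀ g, ∑ i, f g / Fintype.card G * (Fintype.card (D i) *
        (π i (x⁻¹ * g * y)).trace) = if g = x * y⁻¹ then f g else 0 := by
      intro g
      rw [← Finset.mul_sum, htr]
      by_cases hg : g = x * y⁻¹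
      · have h2 : x⁻¹ * g * y = 1 := by
          rw [hg]
          group
        rw [if_pos h2, if_pos hg, div_mul_cancel₀ _ hG]
      · have h2 : x⁻¹ * g * y ≠ 1 := by
          intro h3
          apply hg
          have h4 : g = x * (x⁻¹ * g * y) * y⁻¹ := by group
          rw [h4, h3, mul_one]
        rw [if_neg h2, if_neg hg, mul_zero]
    rw [Finset.sum_congr rfl fun g _ => e3 g, Finset.sum_ite_eq', if_pos (Finset.mem_univ _)]
    rfl

end MP0775d3.Om
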