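import Mathlib

/-! Project OM: algebraically independent families exist. -/

namespace MP0775d3.Om

/-- PROOF. A transcendence basis of `ℂ` over `ℚ` is uncountable (`ℂ` is algebraic over the countable
field generated by a countable set only if `ℂ` is countable; search `Algebra.trdeg`, `Cardinal`,
`IsTranscendenceBasis` in Mathlib/FieldTheory/IsAlgClosed/Classification), so `P` embeds. -/
theorem exists_algInd (P : Type) [Finite P] : ∃ z : P → ℂ, AlgebraicIndependent ℚ z := by
  obtain ⟨s, hs⟩ := exists_isTranscendenceBasis ℚ ℂ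
  have hK : Cardinal.aleph0 < Cardinal.mk ℂ := by
    rw [Cardinal.mk_complex]
    exact Cardinal.aleph0_lt_continuum
  have h1 := IsAlgClosed.cardinal_eq_cardinal_transcendence_basis_of_aleph0_lt' _ hs
    Cardinal.mk_le_aleph0 hK
  have hinf : Infinite s := by
    rw [Cardinal.infinite_iff, ← h1]
    exact hK.le
  have h2 : Cardinal.mk P ≤ Cardinal.mk s :=
    (Cardinal.lt_aleph0_of_finite P).le.trans (Cardinal.infinite_iff.1 hinf)
  obtain ⟨f⟩ := h2
  exact ⟨_, hs.1.comp f f.injective⟩

end MP0775d3.Om
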