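import Pool.Agent.Lib.MP_0775d3_lc.Om.Low

/-! Project OM: the lower bound for `1 ⊗ Z`. -/

namespace MP0775d3.Om

/-- The rational coefficients. -/
private def tlL (d : ℕ) (p : Fin d × Fin d) : Matrix (Fin d × Fin d) (Fin d × Fin d) ℚ :=
  fun x y => if x.1 = y.1 ∧ x.2 = p.1 ∧ y.2 = p.2 then 1 else 0

private theorem tl_inner {d : ℕ} (f g : Fin d × Fin d → ℂ) (p : Fin d × Fin d) :
    ∑ x, ∑ y, ((tlL d p x y : ℚ) : ℂ) * f y * g x = ∑ k, f (k, p.2) * g (k, p.1) := by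
  rw [Fintype.sum_prod_type]
  refine Finset.sum_congr rfl fun k _ => ?_
  rw [Finset.sum_eq_single p.1]
  · rw [Finset.sum_eq_single (k, p.2)]
    · have h1 : tlL d p (k, p.1) (k, p.2) = 1 := if_pos ⟨rfl, rfl, rfl⟩
      rw [h1, Rat.cast_one, one_mul]
    · intro y _ hy
      have h1 : tlL d p (k, p.1) y = 0 := if_neg fun h => hy (Prod.ext h.1.symm h.2.2)
      rw [h1, Rat.cast_zero, zero_mul, zero_mul]
    · intro h1
      exact absurd (Finset.mem_univ _) h1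
  · intro a _ ha
    refine Finset.sum_eq_zero fun y _ => ?_
    have h1 : tlL d p (k, a) y = 0 := if_neg fun h => ha h.2.1
    rw [h1, Rat.cast_zero, zero_mul, zero_mul]
  · intro h1
    exact absurd (Finset.mem_univ _) h1

private theorem tl_sum {d : ℕ} (Z : Matrix (Fin d) (Fin d) ℂ) :
    ∑ p : Fin d × Fin d, Z p.1 p.2 • (tlL d p).map (algebraMap ℚ ℂ) =
      Matrix.kroneckerMap (· * ·) (1 : Matrix (Fin d) (Fin d) ℂ) Z := by
  ext x y
  rw [Matrix.sum_apply, Matrix.kroneckerMap_apply]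
  simp only [Matrix.smul_apply, Matrix.map_apply, smul_eq_mul, eq_ratCast]
  rw [Finset.sum_eq_single (x.2, y.2)]
  · by_cases h : x.1 = y.1
    · have h1 : tlL d (x.2, y.2) x y = 1 := if_pos ⟨h, rfl, rfl⟩
      rw [h1, Rat.cast_one, mul_one, h, Matrix.one_apply_eq, one_mul]
    · have h1 : tlL d (x.2, y.2) x y = 0 := if_neg fun h' => h h'.1
      rw [h1, Rat.cast_zero, mul_zero, Matrix.one_apply_ne h, zero_mul]
  · intro p _ hp
    have h1 : tlL d p x y = 0 := if_neg fun h => hp (Prod.ext h.2.1.symm h.2.2.symm)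
    rw [h1, Rat.cast_zero, mul_zero]
  · intro h1
    exact absurd (Finset.mem_univ _) h1

/-- PROOF. `low` with one block (`I = Unit`), `P = Fin d × Fin d`,
`L (i, j) (k, a) (l, b) = 1` if `k = l`, `a = i`, `b = j`; `α A (i, j) = A () i j`, `β X (k, b) = X ⟨(), k⟩ b`,
`β' Y (k, a) = Y ⟨(), k⟩ a`. With `r ≤ d ^ 2 / 16` the number `K` of good columns is at least `3 d / 4`, so
`((d + 1) / 2) ^ 2 * K ≥ 3 d ^ 3 / 16 ≥ (d / 2) ^ 3`. -/
theorem tensor_low (d : ℕ) (Z : Matrix (Fin d) (Fin d) ℂ)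
    (hZ : AlgebraicIndependent ℚ fun p : Fin d × Fin d => Z p.1 p.2)
    (R S : Matrix (Fin d × Fin d) (Fin d × Fin d) ℂ)
    (h : Matrix.kroneckerMap (· * ·) (1 : Matrix (Fin d) (Fin d) ℂ) Z = R + S)
    (hr : 16 * R.rank ≤ d ^ 2) :
    ((d : ℝ) / 2) ^ omega ≤
      (({p | S p.1 p.2 ≠ 0} : Set ((Fin d × Fin d) × (Fin d × Fin d))).ncard : ℝ) := by
  obtain ⟨K, hK, hKs, hlow⟩ := low (I := Unit) (fun _ => d) (tlL d) (fun p => Z p.1 p.2) hZ R S
    ((tl_sum Z).trans h)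
    { toFun := fun A p => A () p.1 p.2
      map_add' := fun _ _ => rfl
      map_smul' := fun _ _ => rfl }
    { toFun := fun X y => X ⟨(), y.1⟩ y.2
      map_add' := fun _ _ => rfl
      map_smul' := fun _ _ => rfl }
    { toFun := fun X y => X ⟨(), y.1⟩ y.2
      map_add' := fun _ _ => rfl
      map_smul' := fun _ _ => rfl }
    (by
      intro A X Y
      have h1 : ∀ p : Fin d × Fin d, A () p.1 p.2 * ∑ x, ∑ y, ((tlL d p x y : ℚ) : ℂ) *
          X ⟨(), y.1⟩ y.2 * Y ⟨(), x.1⟩ x.2 =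
          ∑ k, A () p.1 p.2 * X ⟨(), k⟩ p.2 * Y ⟨(), k⟩ p.1 := by
        intro p
        rw [tl_inner (fun y => X ⟨(), y.1⟩ y.2) (fun x => Y ⟨(), x.1⟩ x.2) p, Finset.mul_sum]
        exact Finset.sum_congr rfl fun k _ => by ring
      refine (Finset.sum_congr rfl fun p _ => h1 p).trans ?_
      rw [Finset.sum_comm]
      unfold form
      rw [Fintype.sum_sigma]
      refine Eq.trans ?_ (Fintype.sum_unique _).symm
      exact Finset.sum_congr rfl fun k _ => Fintype.sum_prod_type _)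
  refine le_trans ?_ hlow
  rw [Fintype.sum_unique]
  rw [Fintype.sum_unique, Fintype.sum_unique] at hKs
  have hω := two_le_omega
  have hK0 : (3 : ℝ) * d ≤ 4 * K () := by
    rcases Nat.eq_zero_or_pos d with h0 | h0
    · rw [h0, Nat.cast_zero, mul_zero]
      positivity
    · have h1 : d * (3 * d) ≤ d * (4 * K ()) := by
        have h2 : d * d ≤ d * K () + 4 * R.rank := hKs
        have h3 : d ^ 2 = d * d := sq d
        rw [h3] at hr
        have h4 : d * (3 * d) = 3 * (d * d) := by ring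
        have h5 : d * (4 * K ()) = 4 * (d * K ()) := by ring
        omega
      have h2 := Nat.le_of_mul_le_mul_left h1 h0
      exact_mod_cast h2
  have hd : (d : ℝ) / 2 ≤ (((d + 1) / 2 : ℕ) : ℝ) := by
    have h1 : d ≤ 2 * ((d + 1) / 2) := by omega
    have h2 : (d : ℝ) ≤ 2 * (((d + 1) / 2 : ℕ) : ℝ) := by exact_mod_cast h1
    linarith
  have hd0 : (0 : ℝ) ≤ d := Nat.cast_nonneg d
  have e1 : ((d : ℝ) / 2) ^ omega = (((d : ℝ) / 2) ^ (3 : ℕ)) ^ (omega / 3) := by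
    rw [← Real.rpow_natCast, ← Real.rpow_mul (by positivity)]
    congr 1
    push_cast
    ring
  rw [e1]
  refine Real.rpow_le_rpow (by positivity) ?_ (by linarith)
  have e2 : (((d + 1) / 2 * ((d + 1) / 2) * K () : ℕ) : ℝ) =
      (((d + 1) / 2 : ℕ) : ℝ) * (((d + 1) / 2 : ℕ) : ℝ) * K () := by push_cast; ring
  change ((d : ℝ) / 2) ^ (3 : ℕ) ≤ (((d + 1) / 2 * ((d + 1) / 2) * K () : ℕ) : ℝ)
  rw [e2]
  have e3 : (d : ℝ) / 2 * ((d : ℝ) / 2) ≤
      (((d + 1) / 2 : ℕ) : ℝ) * (((d + 1) / 2 : ℕ) : ℝ) :=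
    mul_le_mul hd hd (by positivity) (by positivity)
  have e4 : (d : ℝ) / 2 * ((d : ℝ) / 2) * ((3 : ℝ) * d / 4) ≤
      (((d + 1) / 2 : ℕ) : ℝ) * (((d + 1) / 2 : ℕ) : ℝ) * K () :=
    mul_le_mul e3 (by linarith) (by positivity) (by positivity)
  refine le_trans ?_ e4
  have e5 : (0 : ℝ) ≤ (d : ℝ) ^ 3 := by positivity
  nlinarith [e5]

end MP0775d3.Om
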