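import Pool.Agent.Lib.MP_0775d3_lc.Om.Up
import Pool.Agent.Lib.MP_0775d3_lc.Om.TensorLow
import Pool.Agent.Lib.MP_0775d3_lc.Om.AlgInd

/-! Project OM: the matrices `1 ⊗ Z`. -/

namespace MP0775d3.Om

open Matrix

/-- Rigid for all large `d`: the matrices `1 ⊗ Z` with generic `Z`. -/
def TensorRigid : Prop :=
  ∃ ε : ℝ, 0 < ε ∧ ∃ δ : ℝ, 0 < δ ∧ ∃ d₀ : ℕ, ∀ d : ℕ, d₀ ≤ d →
    ∀ Z : Matrix (Fin d) (Fin d) ℂ,
    (AlgebraicIndependent ℚ fun p : Fin d × Fin d => Z p.1 p.2) →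
    ∀ R S : Matrix (Fin d × Fin d) (Fin d × Fin d) ℂ,
      Matrix.kroneckerMap (· * ·) (1 : Matrix (Fin d) (Fin d) ℂ) Z = R + S →
      (R.rank : ℝ) ≤ ε * (d : ℝ) ^ 2 → ((d : ℝ) ^ 2) ^ (1 + δ) <
        (({p | S p.1 p.2 ≠ 0} : Set ((Fin d × Fin d) × (Fin d × Fin d))).ncard : ℝ)

private theorem finB_count {X : Type} [Fintype X] [DecidableEq X] (S : Matrix X X ℂ) (s : ℝ)
    (h : ∀ x, (({y | S x y ≠ 0} : Set X).ncard : ℝ) ≤ s) :
    (({p | S p.1 p.2 ≠ 0} : Set (X × X)).ncard : ℝ) ≤ (Fintype.card X : ℝ) * s := by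
  classical
  have h1 : ({p | S p.1 p.2 ≠ 0} : Set (X × X)) ⊆
      ((Finset.univ.biUnion (fun x : X =>
        (Finset.univ.filter (fun y => S x y ≠ 0)).image (fun y => (x, y))) : Finset (X × X)) :
          Set (X × X)) := by
    intro p hp
    simp only [Set.mem_ofPred_eq] at hp
    simp only [Finset.coe_biUnion, Finset.coe_image, Finset.coe_filter, Finset.mem_univ, true_and,
      Set.mem_iUnion, Set.mem_image, Set.mem_ofPred_eq, Set.iUnion_true, Finset.coe_univ,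
      Set.mem_univ]
    exact ⟨p.1, p.2, hp, rfl⟩
  have h2 : ({p | S p.1 p.2 ≠ 0} : Set (X × X)).ncard ≤
      ∑ x : X, (Finset.univ.filter (fun y => S x y ≠ 0)).card := by
    refine (Set.ncard_le_ncard h1 (Finset.finite_toSet _)).trans ?_
    rw [Set.ncard_coe_finset]
    refine Finset.card_biUnion_le.trans ?_
    exact Finset.sum_le_sum fun x _ => Finset.card_image_le
  have h3 : ∀ x : X, ((Finset.univ.filter (fun y => S x y ≠ 0)).card : ℝ) ≤ s := by
    intro x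
    have e : (Finset.univ.filter (fun y => S x y ≠ 0)).card = ({y | S x y ≠ 0} : Set X).ncard := by
      rw [← Set.ncard_coe_finset, Finset.coe_filter]
      simp
    rw [e]
    exact h x
  calc (({p | S p.1 p.2 ≠ 0} : Set (X × X)).ncard : ℝ)
      ≤ ((∑ x : X, (Finset.univ.filter (fun y => S x y ≠ 0)).card : ℕ) : ℝ) := by exact_mod_cast h2
    _ = ∑ x : X, ((Finset.univ.filter (fun y => S x y ≠ 0)).card : ℝ) := by push_cast; rfl
    _ ≤ ∑ _x : X, s := Finset.sum_le_sum fun x _ => h3 x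
    _ = (Fintype.card X : ℝ) * s := by
      rw [Finset.sum_const, nsmul_eq_mul, Finset.card_univ]

private theorem finB_ev_rank (ε γ : ℝ) (hε : 0 < ε) (hγ : 0 < γ) :
    ∀ᶠ d : ℕ in Filter.atTop, ((d : ℝ) ^ 2) ^ (1 - γ) ≤ ε * (d : ℝ) ^ 2 := by
  have h1 : Filter.Tendsto (fun d : ℕ => (d : ℝ) ^ 2) Filter.atTop Filter.atTop :=
    (Filter.tendsto_pow_atTop two_ne_zero).comp tendsto_natCast_atTop_atTop
  have h2 := (tendsto_rpow_neg_atTop hγ).comp h1
  have h3 := h2.eventually (gt_mem_nhds hε)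
  filter_upwards [h3, Filter.eventually_ge_atTop 1] with d hd hd1
  have hd0 : (0 : ℝ) < (d : ℝ) ^ 2 := by
    have : (0 : ℝ) < d := by exact_mod_cast hd1
    positivity
  have e : ((d : ℝ) ^ 2) ^ (1 - γ) = ((d : ℝ) ^ 2) ^ (-γ) * (d : ℝ) ^ 2 := by
    rw [sub_eq_add_neg, add_comm, Real.rpow_add hd0, Real.rpow_one]
  rw [e]
  have h4 : ((d : ℝ) ^ 2) ^ (-γ) ≤ ε := by
    have := hd
    simp only [Function.comp] at this
    exact this.le
  exact mul_le_mul_of_nonneg_right h4 hd0.le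

private theorem finB_ev_low (w : ℝ) (hw : 2 < w) :
    ∀ᶠ d : ℕ in Filter.atTop, ((d : ℝ) ^ 2) ^ (1 + (w - 2) / 4) < ((d : ℝ) / 2) ^ w := by
  have hpos : 0 < (w - 2) / 2 := by linarith
  have h2 := (tendsto_rpow_atTop hpos).comp tendsto_natCast_atTop_atTop
  have h3 := h2.eventually (Filter.eventually_gt_atTop ((2 : ℝ) ^ w))
  filter_upwards [h3, Filter.eventually_ge_atTop 1] with d hd hd1
  have hd0 : (0 : ℝ) < (d : ℝ) := by exact_mod_cast hd1
  have h4 : (2 : ℝ) ^ w < (d : ℝ) ^ ((w - 2) / 2) := by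
    have := hd
    simp only [Function.comp] at this
    exact this
  have h5 : (0 : ℝ) < (2 : ℝ) ^ w := Real.rpow_pos_of_pos two_pos _
  rw [Real.div_rpow hd0.le zero_le_two, lt_div_iff₀ h5]
  have e1 : ((d : ℝ) ^ 2) ^ (1 + (w - 2) / 4) = (d : ℝ) ^ (2 + (w - 2) / 2) := by
    rw [← Real.rpow_natCast (d : ℝ) 2, ← Real.rpow_mul hd0.le]
    apply congrArg
    push_cast
    ring
  have e2 : (d : ℝ) ^ w = (d : ℝ) ^ (2 + (w - 2) / 2) * (d : ℝ) ^ ((w - 2) / 2) := by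
    rw [← Real.rpow_add hd0]
    apply congrArg
    ring
  rw [e1, e2]
  exact mul_lt_mul_of_pos_left h4 (Real.rpow_pos_of_pos hd0 _)

/-- PROOF. If `2 < omega`: `tensor_low` with `ε = 1 / 16`, `δ = (omega - 2) / 4`, `d` large. If `omega = 2`
(`two_le_omega`): `tensor_dec (δ / 2)` and `exists_algInd` contradict rigidity for large `d`. -/
theorem tensorRigid_iff : TensorRigid ↔ 2 < omega := by
  constructor
  · rintro ⟨ε, hε, δ, hδ, d₀, h⟩
    by_contra hω
    have hω2 : omega = 2 := le_antisymm (not_lt.mp hω) two_le_omega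
    obtain ⟨γ, hγ, d₁, hd⟩ := tensor_dec hω2 δ hδ
    obtain ⟨d, ⟨h0, h1⟩, h2⟩ := (((Filter.eventually_ge_atTop d₀).and
      (Filter.eventually_ge_atTop d₁)).and (finB_ev_rank ε γ hε hγ)).exists
    obtain ⟨z, hz⟩ := exists_algInd (Fin d × Fin d)
    obtain ⟨R, S, e, hR, hS⟩ := hd d h1 (Matrix.of fun i j => z (i, j))
    have h3 := h d h0 (Matrix.of fun i j => z (i, j)) hz R S e (hR.trans h2)
    have h4 := finB_count S _ hS.1
    have h5 : ((d : ℝ) ^ 2) ^ (1 + δ) = (Fintype.card (Fin d × Fin d) : ℝ) * ((d : ℝ) ^ 2) ^ δ := by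
      rcases Nat.eq_zero_or_pos d with hd0 | hd0
      · subst hd0
        have : (1 + δ) ≠ 0 := by linarith
        simp [Real.zero_rpow this]
      · have hd1 : (0 : ℝ) < (d : ℝ) ^ 2 := by
          have : (0 : ℝ) < d := by exact_mod_cast hd0
          positivity
        rw [Real.rpow_add hd1, Real.rpow_one, Fintype.card_prod, Fintype.card_fin]
        push_cast
        ring
    rw [h5] at h3
    exact absurd h3 (not_lt.mpr h4)
  · intro hω
    obtain ⟨d₀, hd₀⟩ := Filter.eventually_atTop.mp (finB_ev_low omega hω)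
    refine ⟨1 / 16, by norm_num, (omega - 2) / 4, by linarith, d₀, ?_⟩
    intro d hd Z hZ R S e hR
    have h1 : 16 * R.rank ≤ d ^ 2 := by
      have : (16 : ℝ) * (R.rank : ℝ) ≤ (d : ℝ) ^ 2 := by linarith
      exact_mod_cast this
    exact (hd₀ d hd).trans_le (tensor_low d Z hZ R S e h1)

end MP0775d3.Om
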