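import Pool.Agent.Lib.MP_0775d3_lc.Om.FinA
import Pool.Agent.Lib.MP_0775d3_lc.Om.FinB

/-! Generic circulants over non-abelian groups are Valiant rigid if and only if `ω > 2`. -/

namespace MP0775d3.Om.Check

open MP0775d3.Om MP0775d3.Sl2 MP0775d3.Kron

theorem result :
    (∀ (G : Type) [Group G] [Fintype G] (f : G → ℂ), AlgebraicIndependent ℚ f →
      ∀ R S : Matrix G G ℂ, (Matrix.of fun x y => f (x * y⁻¹)) = R + S →
      16 * R.rank ≤ Fintype.card G →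
      (Fintype.card G : ℝ) / 16 * (1 / (2 * (commProb G : ℝ))) ^ ((omega - 2) / 2) ≤
        (({p | S p.1 p.2 ≠ 0} : Set (G × G)).ncard : ℝ)) ∧
    (∀ (d : ℕ) (Z : Matrix (Fin d) (Fin d) ℂ),
      (AlgebraicIndependent ℚ fun p : Fin d × Fin d => Z p.1 p.2) →
      ∀ R S : Matrix (Fin d × Fin d) (Fin d × Fin d) ℂ,
      Matrix.kroneckerMap (· * ·) (1 : Matrix (Fin d) (Fin d) ℂ) Z = R + S →
      16 * R.rank ≤ d ^ 2 → ((d : ℝ) / 2) ^ omega ≤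
        (({p | S p.1 p.2 ≠ 0} : Set ((Fin d × Fin d) × (Fin d × Fin d))).ncard : ℝ)) ∧
    (omega = 2 → ∀ δ : ℝ, 0 < δ → ∃ γ : ℝ, 0 < γ ∧ ∃ n₀ : ℕ,
      ∀ (r : ℕ) (G : Fin r → Type) [∀ i, Group (G i)] [∀ i, Fintype (G i)],
      n₀ ≤ Fintype.card (∀ i, G i) →
      (∀ i, Small ((Fintype.card (∀ i, G i) : ℝ) ^ γ) (G i)) → ∀ f : (∀ i, G i) → ℂ,
        Dec (Matrix.of fun x y => f (x * y⁻¹)) ((Fintype.card (∀ i, G i) : ℝ) ^ (1 - γ))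
          ((Fintype.card (∀ i, G i) : ℝ) ^ δ)) ∧
    (∀ (H : Type) [Group H] [Fintype H], PowRigid H ↔ 2 < omega ∧ ∃ a b : H, a * b ≠ b * a) ∧
    (TensorRigid ↔ 2 < omega) ∧ 2 ≤ omega ∧ omega ≤ 3 :=
  ⟨fun G _ _ => group_low G, tensor_low, up, fun H _ _ => powRigid_iff H, tensorRigid_iff,
    two_le_omega, omega_le_three⟩

end MP0775d3.Om.Check
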