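import Pool.Agent.Lib.MP_0775d3_lc.Om.Defs

/-! Project OM: a linear map onto `ℂ^M` for finitely many subspaces at once. -/

namespace MP0775d3.Om

open Module

/-- A linear form not vanishing at finitely many nonzero vectors. PROOF. Induction, or
`Module.Dual` is not a finite union of proper subspaces over the infinite field `ℂ`
(`Subspace.biUnion_ne_univ_of_top_notMem` or a search for `exists_forall_ne_zero`), or
`x ↦ ∑ j, t ^ j * x j` for a `t` that is not a root of finitely many nonzero polynomials. -/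
theorem exists_form {S : Type} [Finite S] {d : ℕ} (v : S → Fin d → ℂ) (hv : ∀ i, v i ≠ 0) :
    ∃ φ : (Fin d → ℂ) →ₗ[ℂ] ℂ, ∀ i, φ (v i) ≠ 0 :=
  Module.exists_dual_forall_apply_ne_zero v hv

/-- PROOF. Induction on `M`. If `π : ℂ^d → ℂ^M` is onto on every `V i`, and `finrank (V i) ≥ M + 1`, then
there is a nonzero `v i ∈ V i` with `π (v i) = 0`; take `φ` from `exists_form` and `Fin.snoc` (or `Fin.cons`) of
`π` and `φ`. -/
theorem common_onto {S : Type} [Finite S] {d : ℕ} (M : ℕ) (V : S → Submodule ℂ (Fin d → ℂ))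
    (hV : ∀ i, M ≤ finrank ℂ (V i)) :
    ∃ π : (Fin d → ℂ) →ₗ[ℂ] (Fin M → ℂ), ∀ i, ∀ y, ∃ x ∈ V i, π x = y := by
  induction M with
  | zero => exact ⟨0, fun i y => ⟨0, (V i).zero_mem, Subsingleton.elim _ _⟩⟩
  | succ M ih =>
    obtain ⟨π, hπ⟩ := ih fun i => (Nat.le_succ M).trans (hV i)
    have h1 : ∀ i, ∃ v ∈ V i, v ≠ 0 ∧ π v = 0 := by
      intro i
      have h2 : finrank ℂ (Fin M → ℂ) < finrank ℂ (V i) := by
        rw [finrank_fin_fun]
        exact hV i
      have h3 := LinearMap.ker_ne_bot_of_finrank_lt (f := π.comp (V i).subtype) h2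
      obtain ⟨v, hv, hv0⟩ := (Submodule.ne_bot_iff _).1 h3
      exact ⟨v, v.2, fun h => hv0 (Subtype.ext h), hv⟩
    choose v hvV hv0 hvπ using h1
    obtain ⟨φ, hφ⟩ := exists_form v hv0
    refine ⟨LinearMap.pi (Fin.cons φ fun j => (LinearMap.proj j).comp π), fun i y => ?_⟩
    obtain ⟨x, hx, hxy⟩ := hπ i (fun j => y j.succ)
    refine ⟨x + ((y 0 - φ x) / φ (v i)) • v i, (V i).add_mem hx ((V i).smul_mem _ (hvV i)), ?_⟩
    ext j
    refine Fin.cases ?_ (fun j => ?_) j
    · rw [LinearMap.pi_apply, Fin.cons_zero, map_add, map_smul, smul_eq_mul,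
        div_mul_cancel₀ _ (hφ i)]
      ring
    · rw [LinearMap.pi_apply, Fin.cons_succ, LinearMap.comp_apply, LinearMap.proj_apply, map_add,
        map_smul, hvπ i, smul_zero, add_zero, hxy]

end MP0775d3.Om
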