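import Pool.Agent.Lib.MP_0775d3_lc.Om.OmegaA

/-! Project OM: many disjoint copies of a matrix multiplication tensor. -/

namespace MP0775d3.Om

/-- `q` times `Q` copies are `|Q| q` copies. -/
private theorem copies_fin {Q I J K : Type} [Fintype Q] [DecidableEq Q] [DecidableEq I]
    [DecidableEq J] [DecidableEq K] (q : ℕ) {r : ℕ} (h : RkLe (cpT Q I J K) r) :
    RkLe (cpT (Fin (Fintype.card Q * q)) I J K) (q * r) := by
  have hcard : Fintype.card (Fin (Fintype.card Q * q)) = Fintype.card (Fin q × Q) := by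
    rw [Fintype.card_fin, Fintype.card_prod, Fintype.card_fin, mul_comm]
  set e : Fin (Fintype.card Q * q) ≃ Fin q × Q := Fintype.equivOfCardEq hcard with he
  have h1 := RkLe.sum (Q := Fin q) (fun l (a : Fin (Fintype.card Q * q) × I × J)
      (b : Fin (Fintype.card Q * q) × J × K) (c : Fin (Fintype.card Q * q) × I × K) =>
      (if (e a.1).1 = l then (1 : ℂ) else 0) * (if (e b.1).1 = l then (1 : ℂ) else 0) *
      (if (e c.1).1 = l then (1 : ℂ) else 0) *
        cpT Q I J K ((e a.1).2, a.2) ((e b.1).2, b.2) ((e c.1).2, c.2)) (s := r) (fun l =>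
      ((h.sub (fun a : Fin (Fintype.card Q * q) × I × J => ((e a.1).2, a.2))
        (fun b : Fin (Fintype.card Q * q) × J × K => ((e b.1).2, b.2))
        (fun c : Fin (Fintype.card Q * q) × I × K => ((e c.1).2, c.2))).scale _ _ _))
  rw [Fintype.card_fin] at h1
  refine h1.congr fun a b c => ?_
  rw [← Finset.sum_mul]
  by_cases h2 : (e a.1).1 = (e b.1).1 ∧ (e b.1).1 = (e c.1).1
  · have h3 : (∑ l : Fin q, (if (e a.1).1 = l then (1 : ℂ) else 0) *
        (if (e b.1).1 = l then (1 : ℂ) else 0) * (if (e c.1).1 = l then (1 : ℂ) else 0)) = 1 := by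
      rw [← h2.2, ← h2.1]
      rw [Finset.sum_eq_single (e a.1).1]
      · simp
      · intro l _ hl
        rw [if_neg (Ne.symm hl)]
        ring
      · intro hn
        exact absurd (Finset.mem_univ _) hn
    rw [h3, one_mul]
    unfold cpT
    have h4 : (a.1 = b.1 ↔ (e a.1).2 = (e b.1).2) := by
      constructor
      · intro h5
        rw [h5]
      · intro h5
        exact e.injective (Prod.ext h2.1 h5)
    have h6 : (b.1 = c.1 ↔ (e b.1).2 = (e c.1).2) := by
      constructor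
      · intro h5
        rw [h5]
      · intro h5
        exact e.injective (Prod.ext h2.2 h5)
    simp only [h4, h6]
  · have h3 : (∑ l : Fin q, (if (e a.1).1 = l then (1 : ℂ) else 0) *
        (if (e b.1).1 = l then (1 : ℂ) else 0) * (if (e c.1).1 = l then (1 : ℂ) else 0)) = 0 := by
      refine Finset.sum_eq_zero fun l _ => ?_
      by_cases h4 : (e a.1).1 = l
      · by_cases h5 : (e b.1).1 = l
        · by_cases h6 : (e c.1).1 = l
          · exact absurd ⟨h4.trans h5.symm, h5.trans h6.symm⟩ h2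
          · rw [if_neg h6, mul_zero]
        · rw [if_neg h5]
          ring
      · rw [if_neg h4]
        ring
    rw [h3, zero_mul]
    unfold cpT
    rw [if_neg]
    rintro ⟨h4, h5, -⟩
    exact h2 ⟨by rw [h4], by rw [h5]⟩

/-- Recursion. PROOF. Write `cpT Q I J K` as the sum over `i : Fin (k * q)`, `k = |Q|`, of
`u i * v i * w i`. Then the form of `Q` copies of `(I × I', J × J', K × K')` is
`∑ i : Fin (k * q), (u i ⊗ A') (v i ⊗ X') (w i ⊗ Y')`, a restriction along linear maps (`RkLe.comp`) of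
`Fin (k * q)` copies of `mmT I' J' K'`; these are `q` times `Q` copies (`RkLe.sum`, `RkLe.sub` with
`Fin (k * q) ≃ Fin q × Q`), of rank at most `q * r`. -/
theorem copies_step {Q I J K I' J' K' : Type} [Fintype Q] [Fintype I'] [Fintype J'] [Fintype K']
    [DecidableEq Q] [DecidableEq I] [DecidableEq J] [DecidableEq K] [DecidableEq I']
    [DecidableEq J'] [DecidableEq K'] {q r : ℕ} (h : RkLe (cpT Q I J K) (Fintype.card Q * q))
    (h' : RkLe (cpT Q I' J' K') r) : RkLe (cpT Q (I × I') (J × J') (K × K')) (q * r) := by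
  obtain ⟨u', v', w', h1⟩ := copies_fin q h'
  obtain ⟨u, v, w, h2⟩ := h
  refine ⟨fun t a => ∑ m, u m (a.1, a.2.1.1, a.2.2.1) * u' t (m, a.2.1.2, a.2.2.2),
    fun t b => ∑ m, v m (b.1, b.2.1.1, b.2.2.1) * v' t (m, b.2.1.2, b.2.2.2),
    fun t c => ∑ m, w m (c.1, c.2.1.1, c.2.2.1) * w' t (m, c.2.1.2, c.2.2.2), fun a b c => ?_⟩
  have h3 : ∀ t, (∑ m, u m (a.1, a.2.1.1, a.2.2.1) * u' t (m, a.2.1.2, a.2.2.2)) *
      (∑ m, v m (b.1, b.2.1.1, b.2.2.1) * v' t (m, b.2.1.2, b.2.2.2)) *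
      (∑ m, w m (c.1, c.2.1.1, c.2.2.1) * w' t (m, c.2.1.2, c.2.2.2)) =
      ∑ m, ∑ m', ∑ m'', (u m (a.1, a.2.1.1, a.2.2.1) * v m' (b.1, b.2.1.1, b.2.2.1) *
        w m'' (c.1, c.2.1.1, c.2.2.1)) * (u' t (m, a.2.1.2, a.2.2.2) *
        v' t (m', b.2.1.2, b.2.2.2) * w' t (m'', c.2.1.2, c.2.2.2)) := by
    intro t
    rw [Finset.sum_mul_sum, Finset.sum_mul]
    refine Finset.sum_congr rfl fun m _ => ?_
    rw [Finset.sum_mul]
    refine Finset.sum_congr rfl fun m' _ => ?_
    rw [Finset.mul_sum]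
    refine Finset.sum_congr rfl fun m'' _ => ?_
    ring
  rw [Finset.sum_congr rfl fun t _ => h3 t, Finset.sum_comm]
  have h4 : ∀ m, (∑ t, ∑ m', ∑ m'', (u m (a.1, a.2.1.1, a.2.2.1) * v m' (b.1, b.2.1.1, b.2.2.1) *
        w m'' (c.1, c.2.1.1, c.2.2.1)) * (u' t (m, a.2.1.2, a.2.2.2) *
        v' t (m', b.2.1.2, b.2.2.2) * w' t (m'', c.2.1.2, c.2.2.2))) =
      (u m (a.1, a.2.1.1, a.2.2.1) * v m (b.1, b.2.1.1, b.2.2.1) *
        w m (c.1, c.2.1.1, c.2.2.1)) * mmT I' J' K' (a.2.1.2, a.2.2.2) (b.2.1.2, b.2.2.2)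
          (c.2.1.2, c.2.2.2) := by
    intro m
    have h5 : (∑ t, ∑ m', ∑ m'', (u m (a.1, a.2.1.1, a.2.2.1) * v m' (b.1, b.2.1.1, b.2.2.1) *
        w m'' (c.1, c.2.1.1, c.2.2.1)) * (u' t (m, a.2.1.2, a.2.2.2) *
        v' t (m', b.2.1.2, b.2.2.2) * w' t (m'', c.2.1.2, c.2.2.2))) =
      ∑ m', ∑ m'', (u m (a.1, a.2.1.1, a.2.2.1) * v m' (b.1, b.2.1.1, b.2.2.1) *
        w m'' (c.1, c.2.1.1, c.2.2.1)) * cpT (Fin (Fintype.card Q * q)) I' J' K'
          (m, a.2.1.2, a.2.2.2) (m', b.2.1.2, b.2.2.2) (m'', c.2.1.2, c.2.2.2) := by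
      rw [Finset.sum_comm]
      refine Finset.sum_congr rfl fun m' _ => ?_
      rw [Finset.sum_comm]
      refine Finset.sum_congr rfl fun m'' _ => ?_
      rw [h1, Finset.mul_sum]
    rw [h5, Finset.sum_eq_single m, Finset.sum_eq_single m]
    · congr 1
      unfold cpT mmT
      simp only [true_and]
    · intro m'' _ hm
      unfold cpT
      rw [if_neg, mul_zero]
      rintro ⟨-, h6, -⟩
      exact hm h6.symm
    · intro hn
      exact absurd (Finset.mem_univ _) hn
    · intro m' _ hm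
      refine Finset.sum_eq_zero fun m'' _ => ?_
      unfold cpT
      rw [if_neg, mul_zero]
      rintro ⟨h6, -⟩
      exact hm h6.symm
    · intro hn
      exact absurd (Finset.mem_univ _) hn
  rw [Finset.sum_congr rfl fun m _ => h4 m, ← Finset.sum_mul, ← h2]
  unfold cpT mmT
  by_cases h6 : a.1 = b.1 ∧ b.1 = c.1 ∧ a.2.1.1 = c.2.1.1 ∧ a.2.2.1 = b.2.1.1 ∧ b.2.2.1 = c.2.2.1
  · by_cases h7 : a.2.1.2 = c.2.1.2 ∧ a.2.2.2 = b.2.1.2 ∧ b.2.2.2 = c.2.2.2
    · rw [if_pos h6, if_pos h7, if_pos, one_mul]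
      exact ⟨h6.1, h6.2.1, Prod.ext h6.2.2.1 h7.1, Prod.ext h6.2.2.2.1 h7.2.1,
        Prod.ext h6.2.2.2.2 h7.2.2⟩
    · rw [if_neg h7, mul_zero, if_neg]
      rintro ⟨-, -, h8, h9, h10⟩
      exact h7 ⟨by rw [h8], by rw [h9], by rw [h10]⟩
  · rw [if_neg h6, zero_mul, if_neg]
    rintro ⟨h7, h7', h8, h9, h10⟩
    exact h6 ⟨h7, h7', by rw [h8], by rw [h9], by rw [h10]⟩

/-- `Q` copies of the trivial tensor. -/
private theorem copies_zero {Q I J K : Type} [Fintype Q] [DecidableEq Q] [DecidableEq I]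
    [DecidableEq J] [DecidableEq K] [Subsingleton I] [Subsingleton J] [Subsingleton K] :
    RkLe (cpT Q I J K) (Fintype.card Q) := by
  have h1 := RkLe.sum (Q := Q) (fun q (a : Q × I × J) (b : Q × J × K) (c : Q × I × K) =>
      (if a.1 = q then (1 : ℂ) else 0) * (if b.1 = q then (1 : ℂ) else 0) *
      (if c.1 = q then (1 : ℂ) else 0)) (s := 1) (fun q =>
      ⟨fun _ a => if a.1 = q then (1 : ℂ) else 0, fun _ b => if b.1 = q then (1 : ℂ) else 0,
        fun _ c => if c.1 = q then (1 : ℂ) else 0, fun a b c => by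
          rw [Finset.univ_unique, Finset.sum_singleton]⟩)
  rw [mul_one] at h1
  refine h1.congr fun a b c => ?_
  unfold cpT
  by_cases h2 : a.1 = b.1 ∧ b.1 = c.1
  · rw [if_pos ⟨h2.1, h2.2, Subsingleton.elim _ _, Subsingleton.elim _ _, Subsingleton.elim _ _⟩,
      Finset.sum_eq_single a.1]
    · rw [← h2.2, ← h2.1]
      simp
    · intro l _ hl
      rw [if_neg (Ne.symm hl)]
      ring
    · intro hn
      exact absurd (Finset.mem_univ _) hn
  · rw [if_neg (fun h3 => h2 ⟨h3.1, h3.2.1⟩)]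
    symm
    refine Finset.sum_eq_zero fun l _ => ?_
    by_cases h4 : a.1 = l
    · by_cases h5 : b.1 = l
      · by_cases h6 : c.1 = l
        · exact absurd ⟨h4.trans h5.symm, h5.trans h6.symm⟩ h2
        · rw [if_neg h6, mul_zero]
      · rw [if_neg h5]
        ring
    · rw [if_neg h4]
      ring

private theorem copies_cons {N : ℕ} {I : Type} (f g : Fin (N + 1) → I) :
    f = g ↔ (f 0, Fin.tail f) = (g 0, Fin.tail g) := by
  constructor
  · intro h
    rw [h]
  · intro h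
    have h1 := (Prod.ext_iff.1 h).1
    have h2 := (Prod.ext_iff.1 h).2
    funext i
    refine Fin.cases h1 (fun j => ?_) i
    exact congrFun h2 j

/-- PROOF. Induction on `N` with `copies_step` (`Fin (N + 1) → I` is `I × (Fin N → I)`), for `N = 0` the
tensor is the sum over `q : Q` of products. Then one copy (`RkLe.sub`, `Q` nonempty). -/
theorem copies_pow {Q I J K : Type} [Fintype Q] [Nonempty Q] [Fintype I] [Fintype J] [Fintype K]
    [DecidableEq Q] [DecidableEq I] [DecidableEq J] [DecidableEq K] {q : ℕ}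
    (h : RkLe (cpT Q I J K) (Fintype.card Q * q)) (N : ℕ) :
    RkLe (mmT (Fin N → I) (Fin N → J) (Fin N → K)) (Fintype.card Q * q ^ N) := by
  have h1 : RkLe (cpT Q (Fin N → I) (Fin N → J) (Fin N → K)) (Fintype.card Q * q ^ N) := by
    induction N with
    | zero =>
      rw [pow_zero, mul_one]
      exact copies_zero
    | succ N ih =>
      have h2 := copies_step h ih
      have h3 := h2.sub
        (fun a : Q × (Fin (N + 1) → I) × (Fin (N + 1) → J) =>
          (a.1, (a.2.1 0, Fin.tail a.2.1), (a.2.2 0, Fin.tail a.2.2)))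
        (fun b : Q × (Fin (N + 1) → J) × (Fin (N + 1) → K) =>
          (b.1, (b.2.1 0, Fin.tail b.2.1), (b.2.2 0, Fin.tail b.2.2)))
        (fun c : Q × (Fin (N + 1) → I) × (Fin (N + 1) → K) =>
          (c.1, (c.2.1 0, Fin.tail c.2.1), (c.2.2 0, Fin.tail c.2.2)))
      have h4 : q * (Fintype.card Q * q ^ N) = Fintype.card Q * q ^ (N + 1) := by ring
      rw [h4] at h3
      refine h3.congr fun a b c => ?_
      unfold cpT
      simp only [copies_cons a.2.1, copies_cons a.2.2, copies_cons b.2.2]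
  obtain ⟨q₀⟩ := ‹Nonempty Q›
  refine (h1.sub (fun a : (Fin N → I) × (Fin N → J) => (q₀, a))
    (fun b : (Fin N → J) × (Fin N → K) => (q₀, b))
    (fun c : (Fin N → I) × (Fin N → K) => (q₀, c))).congr fun a b c => ?_
  unfold cpT mmT
  simp only [true_and]

/-- PROOF. If one of the types is empty the left side is `0`. Otherwise `|Q| ≤ s` (`card_le_of_rkLe`),
`q = ⌈s / |Q|⌉` has `|Q| q ≤ 2 s`, and by `copies_pow`, `rect_le`: `(V ^ (omega / 3)) ^ N ≤ |Q| q ^ N` for
all `N`, `V = |I| |J| |K|`, hence `V ^ (omega / 3) ≤ q`. -/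
theorem copies {Q I J K : Type} [Fintype Q] [Fintype I] [Fintype J] [Fintype K]
    [DecidableEq Q] [DecidableEq I] [DecidableEq J] [DecidableEq K] {s : ℕ}
    (h : RkLe (cpT Q I J K) s) : (Fintype.card Q : ℝ) *
      ((Fintype.card I * Fintype.card J * Fintype.card K : ℕ) : ℝ) ^ (omega / 3) ≤ 2 * s := by
  have hom := two_le_omega
  set V : ℕ := Fintype.card I * Fintype.card J * Fintype.card K with hV
  have hs0 : (0 : ℝ) ≤ 2 * s := by positivity
  rcases Nat.eq_zero_or_pos V with hV0 | hV0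
  · rw [hV0, Nat.cast_zero, Real.zero_rpow (by linarith), mul_zero]
    exact hs0
  rcases isEmpty_or_nonempty Q with hQ | hQ
  · rw [Fintype.card_eq_zero, Nat.cast_zero, zero_mul]
    exact hs0
  have hIJ : 0 < Fintype.card I * Fintype.card J := Nat.pos_of_mul_pos_right hV0
  obtain ⟨i₀⟩ := Fintype.card_pos_iff.1 (Nat.pos_of_mul_pos_right hIJ)
  obtain ⟨j₀⟩ := Fintype.card_pos_iff.1 (Nat.pos_of_mul_pos_left hIJ)
  obtain ⟨k₀⟩ := Fintype.card_pos_iff.1 (Nat.pos_of_mul_pos_left hV0)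
  have hQs : Fintype.card Q ≤ s := by
    refine card_le_of_rkLe (κ := Q) h (fun q => (q, i₀, j₀)) (fun q => (q, j₀, k₀))
      (fun _ => 1) fun a b => ?_
    rw [Finset.sum_eq_single (a, i₀, k₀)]
    · unfold cpT
      by_cases hab : a = b
      · rw [if_pos hab, if_pos ⟨hab, hab.symm, rfl, rfl, rfl⟩, mul_one]
      · rw [if_neg hab, if_neg (fun hh => hab hh.1), zero_mul]
    · intro c _ hc
      unfold cpT
      rw [if_neg, zero_mul]
      rintro ⟨e1, e2, e3, -, e4⟩
      exact hc (Prod.ext (e1.trans e2).symm (Prod.ext e3.symm e4.symm))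
    · intro hn
      exact absurd (Finset.mem_univ _) hn
  have hQ0 : 0 < Fintype.card Q := Fintype.card_pos
  set q : ℕ := s / Fintype.card Q + 1 with hq
  have hsq : s ≤ Fintype.card Q * q := (Nat.lt_mul_div_succ s hQ0).le
  have hq2 : Fintype.card Q * q ≤ 2 * s := by
    rw [hq, mul_add, mul_one]
    have := Nat.mul_div_le s (Fintype.card Q)
    omega
  have hpow : ∀ N : ℕ, (((V : ℕ) : ℝ) ^ (omega / 3)) ^ N ≤ (Fintype.card Q : ℝ) * (q : ℝ) ^ N := by
    intro N
    have h1 := rect_le (copies_pow (h.mono hsq) N)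
    rw [Fintype.card_fun, Fintype.card_fun, Fintype.card_fun, Fintype.card_fin, ← mul_pow, ← mul_pow,
      ← hV] at h1
    push_cast at h1
    rw [← Real.rpow_natCast, ← Real.rpow_mul (Nat.cast_nonneg _), mul_comm,
      Real.rpow_mul (Nat.cast_nonneg _), Real.rpow_natCast]
    exact h1
  have hq1 : (1 : ℝ) ≤ q := by
    have : 1 ≤ q := Nat.succ_le_succ (Nat.zero_le _)
    exact_mod_cast this
  have hle : ((V : ℕ) : ℝ) ^ (omega / 3) ≤ q := by
    by_contra hcon
    push Not at hcon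
    have h2 : 1 < ((V : ℕ) : ℝ) ^ (omega / 3) / q := by
      rw [one_lt_div (by linarith)]
      exact hcon
    obtain ⟨N, hN⟩ := pow_unbounded_of_one_lt (Fintype.card Q : ℝ) h2
    rw [div_pow, lt_div_iff₀ (pow_pos (by linarith) N)] at hN
    exact absurd (hpow N) (not_le.2 hN)
  calc (Fintype.card Q : ℝ) * ((V : ℕ) : ℝ) ^ (omega / 3) ≤ (Fintype.card Q : ℝ) * q :=
        mul_le_mul_of_nonneg_left hle (Nat.cast_nonneg _)
    _ ≤ 2 * s := by exact_mod_cast hq2

end MP0775d3.Om
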