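import Mathlib

/-! Project OM: tensor rank, the exponent of matrix multiplication. Definitions. -/

namespace MP0775d3.Om

/-- The trilinear form with coefficients `T` has tensor rank at most `s` over `ℂ`. -/
def RkLe {α β γ : Type} (T : α → β → γ → ℂ) (s : ℕ) : Prop :=
  ∃ (u : Fin s → α → ℂ) (v : Fin s → β → ℂ) (w : Fin s → γ → ℂ),
    ∀ a b c, T a b c = ∑ i, u i a * v i b * w i c

/-- The matrix multiplication tensor: the form `∑ A i j * X j k * Y i k`. -/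
def mmT (I J K : Type) [DecidableEq I] [DecidableEq J] [DecidableEq K] :
    I × J → J × K → I × K → ℂ :=
  fun a b c => if a.1 = c.1 ∧ a.2 = b.1 ∧ b.2 = c.2 then 1 else 0

/-- The tensor rank of the product of two `n × n` matrices over `ℂ`. -/
noncomputable def mmRank (n : ℕ) : ℕ := sInf {s | RkLe (mmT (Fin n) (Fin n) (Fin n)) s}

/-- The exponent of matrix multiplication over `ℂ`. -/
noncomputable def omega : ℝ :=
  sInf {τ : ℝ | ∃ C : ℝ, ∀ n : ℕ, 0 < n → (mmRank n : ℝ) ≤ C * (n : ℝ) ^ τ}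

/-- The `N`-th tensor power. -/
def powT (N : ℕ) {α β γ : Type} (T : α → β → γ → ℂ) :
    (Fin N → α) → (Fin N → β) → (Fin N → γ) → ℂ :=
  fun a b c => ∏ l, T (a l) (b l) (c l)

/-- The direct sum of `Q` copies of a matrix multiplication tensor. -/
def cpT (Q I J K : Type) [DecidableEq Q] [DecidableEq I] [DecidableEq J] [DecidableEq K] :
    Q × I × J → Q × J × K → Q × I × K → ℂ :=
  fun a b c => if a.1 = b.1 ∧ b.1 = c.1 ∧ a.2.1 = c.2.1 ∧ a.2.2 = b.2.1 ∧ b.2.2 = c.2.2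
    then 1 else 0

/-- The direct sum over `i` of the products of an `M i × M i` and an `M i × K i` matrix. -/
def dsT {I : Type} [DecidableEq I] (M K : I → ℕ) :
    (Σ i, Fin (M i) × Fin (M i)) → (Σ i, Fin (M i) × Fin (K i)) →
      (Σ i, Fin (M i) × Fin (K i)) → ℂ :=
  fun a b c => if a.1 = b.1 ∧ b.1 = c.1 ∧ (a.2.1 : ℕ) = c.2.1 ∧ (a.2.2 : ℕ) = b.2.1 ∧
    (b.2.2 : ℕ) = c.2.2 then 1 else 0

/-- The leading part of a space of vectors `x = (x κ)` at the column `κ`: the vectors `x κ`, `x` in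
`V`, all columns of larger weight zero. -/
def lead {Κ : Type} (e : Κ → Type) (wt : Κ → ℕ) (V : Submodule ℂ (∀ κ, e κ → ℂ)) (κ : Κ) :
    Submodule ℂ (e κ → ℂ) where
  carrier := {v | ∃ x ∈ V, x κ = v ∧ ∀ l, wt κ < wt l → x l = 0}
  add_mem' := by
    rintro a b ⟨x, hx, rfl, h1⟩ ⟨y, hy, rfl, h2⟩
    exact ⟨x + y, V.add_mem hx hy, rfl, fun l hl => by rw [Pi.add_apply, h1 l hl, h2 l hl, add_zero]⟩
  zero_mem' := ⟨0, V.zero_mem, rfl, fun l _ => rfl⟩
  smul_mem' := by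
    rintro c a ⟨x, hx, rfl, h1⟩
    exact ⟨c • x, V.smul_mem c hx, rfl, fun l hl => by rw [Pi.smul_apply, h1 l hl, smul_zero]⟩

/-- The trilinear form of a product of matrix algebras: `∑ i, ∑ k, Y(i,k)ᵀ A(i) X(i,k)`, where `X(i,k)`
is the column number `k` of the block number `i`. -/
def form {I : Type} [Fintype I] (d : I → ℕ) (A : ∀ i, Matrix (Fin (d i)) (Fin (d i)) ℂ)
    (X Y : ∀ κ : (Σ i, Fin (d i)), Fin (d κ.1) → ℂ) : ℂ :=
  ∑ κ : (Σ i, Fin (d i)), ∑ a, ∑ b, A κ.1 a b * X κ b * Y κ a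

end MP0775d3.Om
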