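import Mathlib

/-! Derivations dual to algebraically independent elements. -/

namespace MP0775d3.Om

open TensorProduct IntermediateField

set_option maxHeartbeats 1000000

open scoped IntermediateField.algebraAdjoinAdjoin in
/-- Algebraically independent elements of a field of characteristic zero have dual derivations. -/
theorem exists_deriv {K : Type} [Field K] [Algebra ℚ K] {ι : Type} {z : ι → K}
    (hz : AlgebraicIndependent ℚ z) (p : ι) :
    ∃ D : Derivation ℚ K K, D (z p) = 1 ∧ ∀ q, q ≠ p → D (z q) = 0 := by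
  classical
  obtain ⟨s, hsub, hs⟩ := exists_isTranscendenceBasis_superset (R := ℚ) (s := Set.range z)
    hz.coe_range
  have hinj : Function.Injective z := hz.injective
  let A0 := Algebra.adjoin ℚ (Set.range ((↑) : s → K))
  let E := IntermediateField.adjoin ℚ (Set.range ((↑) : s → K))
  have h1 : Algebra.FormallyEtale A0 E := .of_isLocalization (nonZeroDivisors _)
  have h2 : Algebra.IsAlgebraic E K := hs.isAlgebraic_field
  have h3 : Algebra.FormallyEtale E K := Algebra.FormallyEtale.of_isSeparable _ K
  have h4 : Algebra.FormallyEtale A0 K := .comp A0 E K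
  let e : MvPolynomial s ℚ ≃ₐ[ℚ] A0 := hs.1.aevalEquiv
  let i0 : s := ⟨z p, hsub ⟨p, rfl⟩⟩
  let L0 : A0 →ₗ[ℚ] K := (Algebra.linearMap A0 K).restrictScalars ℚ ∘ₗ e.toLinearMap ∘ₗ
    (MvPolynomial.pderiv i0).toLinearMap ∘ₗ e.symm.toLinearMap
  have hL0 : ∀ a, L0 a = algebraMap A0 K (e (MvPolynomial.pderiv i0 (e.symm a))) := fun a => rfl
  let D0 : Derivation ℚ A0 K := Derivation.mk' L0 (by
    intro a b
    rw [hL0, hL0, hL0, map_mul, Derivation.leibniz]
    simp only [smul_eq_mul, map_add, map_mul, AlgEquiv.apply_symm_apply, Algebra.smul_def])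
  let φ : Ω[K⁄ℚ] →ₗ[K] K := (LinearMap.liftBaseChange K D0.liftKaehlerDifferential) ∘ₗ
    (KaehlerDifferential.tensorKaehlerEquivOfFormallyEtale ℚ A0 K).symm.toLinearMap
  let D : Derivation ℚ K K := φ.compDer (KaehlerDifferential.D ℚ K)
  have hD : ∀ a : A0, D (algebraMap A0 K a) = L0 a := by
    intro a
    change φ (KaehlerDifferential.D ℚ K (algebraMap A0 K a)) = L0 a
    change (LinearMap.liftBaseChange K D0.liftKaehlerDifferential)
      ((KaehlerDifferential.tensorKaehlerEquivOfFormallyEtale ℚ A0 K).symm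
        (KaehlerDifferential.D ℚ K (algebraMap A0 K a))) = L0 a
    rw [KaehlerDifferential.tensorKaehlerEquivOfFormallyEtale_symm_D_algebraMap,
      LinearMap.liftBaseChange_tmul, one_smul, Derivation.liftKaehlerDifferential_comp_D]
    rfl
  have hz' : ∀ (i : s), D (i : K) = if i = i0 then 1 else 0 := by
    intro i
    have hi : ((e (MvPolynomial.X i) : A0) : K) = i := by
      change ((hs.1.aevalEquiv (MvPolynomial.X i) : A0) : K) = i
      simp
    have h5 := hD (e (MvPolynomial.X i))
    rw [hL0, AlgEquiv.symm_apply_apply, MvPolynomial.pderiv_X] at h5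
    have h6 : algebraMap A0 K (e (MvPolynomial.X i)) = i := hi
    rw [h6] at h5
    rw [h5]
    by_cases h : i = i0
    · subst h; simp
    · rw [if_neg h, Pi.single_eq_of_ne h]; simp
  refine ⟨D, ?_, ?_⟩
  · have := hz' i0
    rw [if_pos rfl] at this
    exact this
  · intro q hq
    have := hz' ⟨z q, hsub ⟨q, rfl⟩⟩
    rw [if_neg (by intro h; exact hq (hinj (congrArg Subtype.val h)))] at this
    exact this

end MP0775d3.Om
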