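import Pool.Agent.Lib.MP_0775d3_lc.Om.Defs
import Pool.Agent.Lib.MP_0775d3_lc.Cf.Dft
import Pool.Agent.Lib.MP_0775d3_lc.Cf.FbB
import Pool.Agent.Lib.MP_0775d3_lc.Cf.CalcC

/-! Project OM: groups whose Fourier transform is a box circuit. -/

namespace MP0775d3.Om

open Matrix MP0775d3.Cf MP0775d3.Sl2

/-- All group matrices of `G` are `U * (block diagonal, blocks A i ⊗ 1) * U'`, `U`, `U'` box circuits. -/
def FD (w s : ℝ) (t : ℕ) (G : Type) [Group G] : Prop :=
  ∃ (I : Type) (_ : Fintype I) (_ : DecidableEq I) (D : I → Type) (_ : ∀ i, Fintype (D i))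
    (_ : ∀ i, DecidableEq (D i)) (U : Matrix G (Σ i, D i × D i) ℂ)
    (U' : Matrix (Σ i, D i × D i) G ℂ),
    (∑ i, Fintype.card (D i) * Fintype.card (D i) ≤ Nat.card G) ∧ Bx w s t U ∧ Bx w s t U' ∧
    ∀ f : G → ℂ, ∃ A : ∀ i, Matrix (D i) (D i) ℂ, groupMat f =
      U * Matrix.blockDiagonal' (fun i => Matrix.kroneckerMap (· * ·) (A i)
        (1 : Matrix (D i) (D i) ℂ)) * U'

/-- Small groups and semidirect products of two abelian groups. -/
def Small (b : ℝ) (G : Type) [Group G] : Prop :=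
  (Nat.card G : ℝ) ≤ b ∨ ∃ (A B : Type) (_ : CommGroup A) (_ : CommGroup B) (φ : B →* MulAut A),
    Nonempty (G ≃* A ⋊[φ] B)

end MP0775d3.Om
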