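import Pool.Agent.Lib.MP_0775d3_lc.Om.FdDefs

/-! Project OM: packets of groups. -/

namespace MP0775d3.Om

private theorem rg_mono {b c : ℝ} (hbc : b ≤ c) {G : Type} [Group G] (h : Small b G) :
    Small c G := by
  rcases h with h | h
  · exact Or.inl (h.trans hbc)
  · exact Or.inr h

/-- one more member -/
private def rgFam {ι : Type} (P : ι → Type) (Q : Type) : Option ι → Type
  | none => Q
  | some j => P j

private instance rgGrp {ι : Type} (P : ι → Type) (Q : Type) [∀ j, Group (P j)] [hQ : Group Q] :
    ∀ o : Option ι, Group (rgFam P Q o)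
  | none => hQ
  | some j => inferInstanceAs (Group (P j))

private instance rgFin {ι : Type} (P : ι → Type) (Q : Type) [∀ j, Finite (P j)] [hQ : Finite Q] :
    ∀ o : Option ι, Finite (rgFam P Q o)
  | none => hQ
  | some j => inferInstanceAs (Finite (P j))

/-- the product of the larger family -/
private def rgIso {ι : Type} (P : ι → Type) (Q : Type) [∀ j, Group (P j)] [Group Q] :
    ((∀ j, P j) × Q) ≃* (∀ o, rgFam P Q o) where
  toFun x := fun o => match o with
    | none => x.2
    | some j => x.1 j
  invFun f := (fun j => f (some j), f none)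
  left_inv x := rfl
  right_inv f := by
    funext o
    cases o <;> rfl
  map_mul' x y := by
    funext o
    cases o <;> rfl

/-- the first member of a product -/
private def rgSucc {r : ℕ} (G : Fin (r + 1) → Type) [∀ i, Group (G i)] :
    (∀ i, G i) ≃* G 0 × (∀ i : Fin r, G i.succ) where
  toFun f := (f 0, fun i => f i.succ)
  invFun x := Fin.cons x.1 x.2
  left_inv f := Fin.cons_self_tail f
  right_inv x := by
    refine Prod.ext rfl ?_
    funext i
    rfl
  map_mul' x y := rfl

private theorem rg_step (b : ℝ) (hb : 1 ≤ b) (r : ℕ) : ∀ (G : Fin r → Type)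
    [∀ i, Group (G i)] [∀ i, Finite (G i)], (∀ i, Small b (G i)) →
    ∃ (ι : Type) (_ : Fintype ι) (P : ι → Type) (_ : ∀ j, Group (P j)) (_ : ∀ j, Finite (P j))
      (Q : Type) (_ : Group Q) (_ : Finite Q),
      (∀ j, b < (Nat.card (P j) : ℝ)) ∧ (∀ j, Small (b * b) (P j)) ∧ (Nat.card Q : ℝ) ≤ b ∧
        Nonempty ((∀ i, G i) ≃* ((∀ j, P j) × Q)) := by
  have hbb : b ≤ b * b := by nlinarith
  induction r with
  | zero =>
    intro G _ _ _
    refine ⟨Empty, inferInstance, fun _ => Unit, fun _ => inferInstance, fun _ => inferInstance,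
      Unit, inferInstance, inferInstance, fun j => j.elim, fun j => j.elim, ?_,
      ⟨{ toFun := fun _ => (fun j => j.elim, ())
         invFun := fun _ i => i.elim0
         left_inv := fun f => by
           funext i
           exact i.elim0
         right_inv := fun x => by
           refine Prod.ext ?_ rfl
           funext j
           exact j.elim
         map_mul' := fun x y => by
           refine Prod.ext ?_ rfl
           funext j
           exact j.elim }⟩⟩
    rw [Nat.card_unique, Nat.cast_one]
    exact hb
  | succ r ih =>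
    intro G _ _ hS
    obtain ⟨ι, _, P, _, _, Q, _, _, h1, h2, h3, ⟨e⟩⟩ := ih (fun i => G i.succ) (fun i => hS i.succ)
    have e1 : (∀ i, G i) ≃* G 0 × ((∀ j, P j) × Q) :=
      (rgSucc G).trans (MulEquiv.prodCongr (MulEquiv.refl _) e)
    have hQ1 : 1 ≤ Nat.card Q := Nat.card_pos
    by_cases hc : (Nat.card (G 0) : ℝ) ≤ b
    · have hpc : (Nat.card (G 0 × Q) : ℝ) = Nat.card (G 0) * Nat.card Q := by
        rw [Nat.card_prod]
        push_cast
        rfl
      by_cases hq : (Nat.card (G 0 × Q) : ℝ) ≤ b
      · refine ⟨ι, inferInstance, P, inferInstance, inferInstance, G 0 × Q, inferInstance,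
          inferInstance, h1, h2, hq, ⟨e1.trans ?_⟩⟩
        exact
          { toFun := fun x => (x.2.1, (x.1, x.2.2))
            invFun := fun x => (x.2.1, (x.1, x.2.2))
            left_inv := fun x => rfl
            right_inv := fun x => rfl
            map_mul' := fun x y => rfl }
      · push Not at hq
        refine ⟨Option ι, inferInstance, rgFam P (G 0 × Q), inferInstance, inferInstance, Unit,
          inferInstance, inferInstance, ?_, ?_, ?_, ⟨e1.trans ?_⟩⟩
        · intro o
          cases o with
          | none => exact hq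
          | some j => exact h1 j
        · intro o
          cases o with
          | none =>
            refine Or.inl ?_
            show (Nat.card (G 0 × Q) : ℝ) ≤ b * b
            rw [hpc]
            exact mul_le_mul hc h3 (Nat.cast_nonneg _) (by linarith)
          | some j => exact h2 j
        · rw [Nat.card_unique, Nat.cast_one]
          exact hb
        · have e2 : (G 0 × ((∀ j, P j) × Q)) ≃* (((∀ j, P j) × (G 0 × Q)) × Unit) :=
            { toFun := fun x => ((x.2.1, (x.1, x.2.2)), ())
              invFun := fun x => (x.1.2.1, (x.1.1, x.1.2.2))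
              left_inv := fun x => rfl
              right_inv := fun x => rfl
              map_mul' := fun x y => rfl }
          exact e2.trans (MulEquiv.prodCongr (rgIso P (G 0 × Q)) (MulEquiv.refl _))
    · push Not at hc
      refine ⟨Option ι, inferInstance, rgFam P (G 0), inferInstance, inferInstance, Q,
        inferInstance, inferInstance, ?_, ?_, h3, ⟨e1.trans ?_⟩⟩
      · intro o
        cases o with
        | none => exact hc
        | some j => exact h1 j
      · intro o
        cases o with
        | none => exact rg_mono hbb (hS 0)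
        | some j => exact h2 j
      · have e2 : (G 0 × ((∀ j, P j) × Q)) ≃* (((∀ j, P j) × G 0) × Q) :=
          { toFun := fun x => ((x.2.1, x.1), x.2.2)
            invFun := fun x => (x.1.2, (x.1.1, x.2))
            left_inv := fun x => rfl
            right_inv := fun x => rfl
            map_mul' := fun x y => rfl }
        exact e2.trans (MulEquiv.prodCongr (rgIso P (G 0)) (MulEquiv.refl _))

/-- reindexing -/
private theorem rg_reindex {κ ι : Type} (ε : κ ≃ ι) (P : ι → Type) [∀ j, Group (P j)] :
    Nonempty ((∀ j, P j) ≃* (∀ i, P (ε i))) := by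
  refine ⟨MulEquiv.ofBijective
    ({ toFun := fun f i => f (ε i), map_one' := rfl, map_mul' := fun _ _ => rfl } :
      (∀ j, P j) →* (∀ i, P (ε i))) ⟨?_, ?_⟩⟩
  · intro f g hfg
    funext j
    obtain ⟨i, rfl⟩ := ε.surjective j
    exact congrFun hfg i
  · intro g
    refine ⟨Equiv.piCongrLeft P ε g, ?_⟩
    funext i
    exact Equiv.piCongrLeft_apply_apply P ε g i

/-- packets of groups -/
theorem regroup_fdPiR (h : ℝ) (hh : 0 < h) (N : ℝ) (hN : 1 ≤ N) (r : ℕ) (G : Fin r → Type)
    [∀ i, Group (G i)] [∀ i, Finite (G i)] (hG : (Nat.card (∀ i, G i) : ℝ) ≤ N)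
    (hS : ∀ i, Small (N ^ h) (G i)) :
    ∃ (k : ℕ) (P : Fin k → Type) (_ : ∀ j, Group (P j)) (_ : ∀ j, Finite (P j)),
      (k : ℝ) ≤ 2 / h + 2 ∧ (∀ j, Small (N ^ (2 * h)) (P j)) ∧ Nonempty ((∀ i, G i) ≃* (∀ j, P j)) := by
  have hb : 1 ≤ N ^ h := Real.one_le_rpow hN hh.le
  obtain ⟨ι, _, P, _, _, Q, _, _, h1, h2, h3, ⟨e⟩⟩ := rg_step (N ^ h) hb r G hS
  have hb2 : N ^ (2 * h) = N ^ h * N ^ h := by
    rw [two_mul, Real.rpow_add (by linarith)]
  set ε : Fin (Fintype.card (Option ι)) ≃ Option ι := (Fintype.equivFin (Option ι)).symm with hε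
  obtain ⟨e2⟩ := rg_reindex ε (rgFam P Q)
  refine ⟨Fintype.card (Option ι), fun i => rgFam P Q (ε i), fun i => inferInstance,
    fun i => inferInstance, ?_, ?_, ⟨(e.trans (rgIso P Q)).trans e2⟩⟩
  · -- the number of packets
    have h4 : (∏ j, (Nat.card (P j) : ℝ)) ≤ N := by
      have h5 : Nat.card (∀ i, G i) = (∏ j, Nat.card (P j)) * Nat.card Q := by
        rw [Nat.card_congr e.toEquiv, Nat.card_prod, Nat.card_pi]
      have hQ1 : 1 ≤ Nat.card Q := Nat.card_pos
      have h6 : (∏ j, Nat.card (P j)) ≤ Nat.card (∀ i, G i) := by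
        rw [h5]
        exact Nat.le_mul_of_pos_right _ hQ1
      have h7 : (((∏ j, Nat.card (P j)) : ℕ) : ℝ) ≤ Nat.card (∀ i, G i) := by exact_mod_cast h6
      push_cast at h7
      exact h7.trans hG
    have h8 : (Fintype.card ι : ℝ) ≤ 1 / h := by
      rcases isEmpty_or_nonempty ι with hι | hι
      · rw [Fintype.card_eq_zero, Nat.cast_zero]
        positivity
      · have h9 : ∏ _j : ι, N ^ h < ∏ j, (Nat.card (P j) : ℝ) :=
          Finset.prod_lt_prod_of_nonempty (fun _ _ => by linarith) (fun j _ => h1 j)
            Finset.univ_nonempty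
        rw [Finset.prod_const, Finset.card_univ] at h9
        have h10 := h9.trans_le h4
        have h11 : (1 : ℝ) < N := (one_le_pow₀ hb).trans_lt h10
        rw [← Real.rpow_natCast, ← Real.rpow_mul (by linarith)] at h10
        have h12 : N ^ (h * (Fintype.card ι : ℝ)) < N ^ (1 : ℝ) := by
          rw [Real.rpow_one]
          exact h10
        rw [Real.rpow_lt_rpow_left_iff h11] at h12
        rw [le_div_iff₀ hh]
        linarith
    rw [Fintype.card_option]
    push_cast
    have h13 : 1 / h ≤ 2 / h := div_le_div_of_nonneg_right (by norm_num) hh.le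
    linarith
  · intro i
    rw [hb2]
    show Small (N ^ h * N ^ h) (rgFam P Q (ε i))
    generalize ε i = o
    cases o with
    | none =>
      refine Or.inl ?_
      show (Nat.card Q : ℝ) ≤ N ^ h * N ^ h
      nlinarith
    | some j => exact h2 j

end MP0775d3.Om
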