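import Pool.Agent.Lib.MP_0775d3_lc.Om.FdReps

/-! Project OM: direct products of two groups. -/

namespace MP0775d3.Om

open Matrix MP0775d3.Cf MP0775d3.Sl2

section

variable {I J : Type} (D : I → Type) (E : J → Type)

/-- The bijection of the index types. -/
private def fdProdE : (Σ p : I × J, (D p.1 × E p.2) × (D p.1 × E p.2)) ≃
    (Σ i, D i × D i) × (Σ j, E j × E j) where
  toFun x := (⟨x.1.1, (x.2.1.1, x.2.2.1)⟩, ⟨x.1.2, (x.2.1.2, x.2.2.2)⟩)
  invFun y := ⟨(y.1.1, y.2.1), ((y.1.2.1, y.2.2.1), (y.1.2.2, y.2.2.2))⟩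
  left_inv _ := rfl
  right_inv _ := rfl

private lemma fdProd_bd [DecidableEq I] [DecidableEq J] [∀ i, DecidableEq (D i)]
    [∀ j, DecidableEq (E j)] {T : Type} [Fintype T] (A : T → ∀ i, Matrix (D i) (D i) ℂ)
    (B : T → ∀ j, Matrix (E j) (E j) ℂ) :
    Matrix.blockDiagonal' (fun p : I × J => Matrix.kroneckerMap (· * ·)
      (∑ h : T, Matrix.kroneckerMap (· * ·) (A h p.1) (B h p.2))
      (1 : Matrix (D p.1 × E p.2) (D p.1 × E p.2) ℂ)) =
    (∑ h : T, Matrix.kroneckerMap (· * ·)
      (Matrix.blockDiagonal' fun i => Matrix.kroneckerMap (· * ·) (A h i)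
        (1 : Matrix (D i) (D i) ℂ))
      (Matrix.blockDiagonal' fun j => Matrix.kroneckerMap (· * ·) (B h j)
        (1 : Matrix (E j) (E j) ℂ))).submatrix (fdProdE D E) (fdProdE D E) := by
  ext x y
  obtain ⟨⟨i, j⟩, ⟨a, b⟩, ⟨c, d⟩⟩ := x
  obtain ⟨⟨i', j'⟩, ⟨a', b'⟩, ⟨c', d'⟩⟩ := y
  rw [Matrix.submatrix_apply, Matrix.sum_apply]
  simp only [Matrix.kroneckerMap_apply, fdProdE, Equiv.coe_fn_mk]
  by_cases hi : i = i'
  · subst hi
    by_cases hj : j = j'
    · subst hj
      rw [Matrix.blockDiagonal'_apply_eq, Matrix.kroneckerMap_apply, Matrix.sum_apply,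
        Finset.sum_mul]
      refine Finset.sum_congr rfl fun h _ => ?_
      rw [Matrix.blockDiagonal'_apply_eq, Matrix.blockDiagonal'_apply_eq,
        Matrix.kroneckerMap_apply, Matrix.kroneckerMap_apply, Matrix.kroneckerMap_apply,
        Matrix.one_apply, Matrix.one_apply, Matrix.one_apply]
      by_cases hc : c = c'
      · by_cases hd : d = d'
        · rw [if_pos (Prod.ext hc hd), if_pos hc, if_pos hd]
          ring
        · rw [if_neg (fun h' => hd (congrArg Prod.snd h')), if_neg hd]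
          ring
      · rw [if_neg (fun h' => hc (congrArg Prod.fst h')), if_neg hc]
        ring
    · rw [Matrix.blockDiagonal'_apply_ne _ _ _ (fun h' => hj (congrArg Prod.snd h'))]
      symm
      refine Finset.sum_eq_zero fun h _ => ?_
      rw [Matrix.blockDiagonal'_apply_ne _ _ _ hj, mul_zero]
  · rw [Matrix.blockDiagonal'_apply_ne _ _ _ (fun h' => hi (congrArg Prod.fst h'))]
    symm
    refine Finset.sum_eq_zero fun h _ => ?_
    rw [Matrix.blockDiagonal'_apply_ne _ _ _ hi, zero_mul]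

end

private lemma fdProd_group {G H : Type} [Group G] [Group H] [Fintype H] [DecidableEq H]
    (f : G × H → ℂ) : groupMat f = ∑ h : H, Matrix.kroneckerMap (· * ·)
      (groupMat fun g : G => f (g, h)) (groupMat (Pi.single h 1 : H → ℂ)) := by
  ext x y
  rw [Matrix.sum_apply, Finset.sum_eq_single (x.2 * y.2⁻¹)]
  · rw [Matrix.kroneckerMap_apply]
    simp only [groupMat, Matrix.of_apply, Pi.single_eq_same, mul_one]
    rfl
  · intro h _ hne
    rw [Matrix.kroneckerMap_apply]
    simp only [groupMat, Matrix.of_apply]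
    rw [Pi.single_eq_of_ne (Ne.symm hne), mul_zero]
  · intro h
    exact absurd (Finset.mem_univ _) h

/-- PROOF. Index types `I × J`, `D i × E j`, `U ⊗ V` (`Bx.kron`, `Bx.submatrix` along the bijection
`(Σ p : I × J, (D p.1 × E p.2) × (D p.1 × E p.2)) ≃ (Σ i, D i × D i) × (Σ j, E j × E j)`).
`groupMat f = ∑ h : H, groupMat (fun g => f (g, h)) ⊗ groupMat (Pi.single h 1)`, so
`A (i, j) = ∑ h, A^h i ⊗ B^h j`. -/
theorem FD.prod {G H : Type} [Group G] [Group H] [Finite G] [Finite H] {w s w' : ℝ} {t t' : ℕ}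
    (h : FD w s t G) (h' : FD w' s t' H) (hs : 1 ≤ s) (ht : 1 ≤ t) (ht' : 1 ≤ t') :
    FD (w * w') s (t + t' + 1) (G × H) := by
  classical
  obtain ⟨I, i1, i2, D, i3, i4, U, U', hc, hU, hU', hf⟩ := h
  obtain ⟨J, j1, j2, E, j3, j4, V, V', hc', hV, hV', hf'⟩ := h'
  have := Fintype.ofFinite G
  have := Fintype.ofFinite H
  refine ⟨I × J, inferInstance, inferInstance, fun p => D p.1 × E p.2, fun p => inferInstance,
    fun p => inferInstance,
    (Matrix.kroneckerMap (· * ·) U V).submatrix id (fdProdE D E),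
    (Matrix.kroneckerMap (· * ·) U' V').submatrix (fdProdE D E) id, ?_,
    (hU.kron hV ht ht' hs).submatrix Function.injective_id (fdProdE D E).injective,
    (hU'.kron hV' ht ht' hs).submatrix (fdProdE D E).injective Function.injective_id, ?_⟩
  · rw [Nat.card_prod]
    refine le_trans (le_of_eq ?_) (Nat.mul_le_mul hc hc')
    rw [Finset.sum_mul_sum, ← Finset.univ_product_univ, Finset.sum_product]
    refine Finset.sum_congr rfl fun i _ => Finset.sum_congr rfl fun j _ => ?_
    rw [Fintype.card_prod]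
    ring
  · intro f
    choose A hA using fun h : H => hf fun g => f (g, h)
    choose B hB using fun h : H => hf' (Pi.single h 1 : H → ℂ)
    refine ⟨fun p => ∑ h : H, Matrix.kroneckerMap (· * ·) (A h p.1) (B h p.2), ?_⟩
    rw [fdProd_bd, Matrix.submatrix_mul_equiv, Matrix.submatrix_mul_equiv, Matrix.submatrix_id_id,
      fdProd_group, Matrix.mul_sum, Matrix.sum_mul]
    refine Finset.sum_congr rfl fun h _ => ?_
    rw [hA, hB, Matrix.mul_kronecker_mul, Matrix.mul_kronecker_mul]

end MP0775d3.Om
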