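import Pool.Agent.Lib.MP_0775d3_lc.Om.Defs

/-! Project OM: the group algebra of a finite group over `ℂ`. -/

namespace MP0775d3.Om

/-- The number of blocks. PROOF. The `n` central idempotents `Φ.symm (Pi.single i 1)` are linearly
independent; a central element of the group algebra has coefficients which are constant on conjugacy
classes; so `n ≤ finrank (ConjClasses G → ℂ)`. -/
theorem blocks_le {G : Type} [Group G] [Finite G] {n : ℕ} {d : Fin n → ℕ} (hd : ∀ i, 0 < d i)
    (Φ : MonoidAlgebra ℂ G ≃ₐ[ℂ] ∀ i, Matrix (Fin (d i)) (Fin (d i)) ℂ) :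
    n ≤ Nat.card (ConjClasses G) := by
  classical
  have : Fintype (ConjClasses G) := Fintype.ofFinite _
  -- the central elements
  obtain ⟨D, hD⟩ : ∃ D : (Fin n → ℂ) →ₗ[ℂ] ∀ i, Matrix (Fin (d i)) (Fin (d i)) ℂ,
      ∀ c i, D c i = c i • (1 : Matrix (Fin (d i)) (Fin (d i)) ℂ) :=
    ⟨LinearMap.pi fun i => (LinearMap.toSpanSingleton ℂ (Matrix (Fin (d i)) (Fin (d i)) ℂ) 1).comp
      (LinearMap.proj i), fun c i => rfl⟩
  have hc : ∀ c (x : ∀ i, Matrix (Fin (d i)) (Fin (d i)) ℂ), D c * x = x * D c := by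
    intro c x
    funext i
    rw [Pi.mul_apply, Pi.mul_apply, hD, smul_mul_assoc, mul_smul_comm, one_mul, mul_one]
  have hc' : ∀ c (x : MonoidAlgebra ℂ G), Φ.symm (D c) * x = x * Φ.symm (D c) := by
    intro c x
    apply Φ.injective
    rw [map_mul, map_mul, AlgEquiv.apply_symm_apply, hc]
  have hcl : ∀ c (g x : G), (Φ.symm (D c)).coeff (g * x * g⁻¹) = (Φ.symm (D c)).coeff x := by
    intro c g x
    have h1 := congrArg (fun y : MonoidAlgebra ℂ G => y.coeff (g * x))
      (hc' c (MonoidAlgebra.single g 1))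
    simp only [MonoidAlgebra.coeff_mul_single_apply, MonoidAlgebra.coeff_single_mul_apply, mul_one,
      one_mul, inv_mul_cancel_left] at h1
    exact h1
  obtain ⟨L, hL⟩ : ∃ L : (Fin n → ℂ) →ₗ[ℂ] (ConjClasses G → ℂ),
      ∀ c C, L c C = (Φ.symm (D c)).coeff (Quotient.out C) := by
    refine ⟨LinearMap.pi fun C => (Finsupp.lapply (Quotient.out C)).comp
      ((MonoidAlgebra.coeffLinearEquiv ℂ).toLinearMap.comp
        (Φ.symm.toLinearMap.comp D)), fun c C => rfl⟩
  have hinj : Function.Injective L := by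
    rw [← LinearMap.ker_eq_bot, LinearMap.ker_eq_bot']
    intro c hc0
    have h1 : Φ.symm (D c) = 0 := by
      apply MonoidAlgebra.coeff_injective
      ext x
      have h2 := congrFun hc0 (ConjClasses.mk x)
      rw [hL] at h2
      have h3 : ConjClasses.mk (Quotient.out (ConjClasses.mk x)) = ConjClasses.mk x :=
        Quotient.out_eq _
      obtain ⟨g, hg⟩ := isConj_iff.1 (ConjClasses.mk_eq_mk_iff_isConj.1 h3)
      rw [← hg, hcl, h2]
      rfl
    have h2 : D c = 0 := by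
      have h3 := congrArg Φ h1
      rwa [AlgEquiv.apply_symm_apply, map_zero] at h3
    funext i
    have h3 := congrFun (congrFun (congrFun h2 i) ⟨0, hd i⟩) ⟨0, hd i⟩
    rw [hD, Matrix.smul_apply, Matrix.one_apply_eq, smul_eq_mul, mul_one] at h3
    exact h3
  have h1 := LinearMap.finrank_le_finrank_of_injective hinj
  rw [Module.finrank_fintype_fun_eq_card, Module.finrank_fintype_fun_eq_card,
    Fintype.card_fin] at h1
  rwa [Nat.card_eq_fintype_card]

/-- PROOF. Maschke (instance in Mathlib), `IsSemisimpleRing.exists_algEquiv_pi_matrix_of_isAlgClosed`,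
`blocks_le`, `finrank`. -/
theorem wedd (G : Type) [Group G] [Finite G] : ∃ (n : ℕ) (d : Fin n → ℕ), (∀ i, 0 < d i) ∧
    n ≤ Nat.card (ConjClasses G) ∧ ∑ i, d i * d i = Nat.card G ∧
    Nonempty (MonoidAlgebra ℂ G ≃ₐ[ℂ] ∀ i, Matrix (Fin (d i)) (Fin (d i)) ℂ) := by
  classical
  have hfin : Fintype G := Fintype.ofFinite G
  have hne : NeZero (Nat.card G : ℂ) := ⟨Nat.cast_ne_zero.2 Nat.card_pos.ne'⟩
  have hfd : FiniteDimensional ℂ (MonoidAlgebra ℂ G) := (MonoidAlgebra.basis G ℂ).finiteDimensional_of_finite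
  obtain ⟨n, d, hd, ⟨Φ⟩⟩ := IsSemisimpleRing.exists_algEquiv_pi_matrix_of_isAlgClosed ℂ
    (MonoidAlgebra ℂ G)
  have hd' : ∀ i, 0 < d i := fun i => Nat.pos_of_ne_zero (hd i).out
  refine ⟨n, d, hd', blocks_le hd' Φ, ?_, ⟨Φ⟩⟩
  have h1 := Φ.toLinearEquiv.finrank_eq
  rw [Module.finrank_eq_card_basis (MonoidAlgebra.basis G ℂ), Module.finrank_pi_fintype] at h1
  rw [Nat.card_eq_fintype_card, h1]
  refine Finset.sum_congr rfl fun i _ => ?_
  rw [Module.finrank_matrix, Fintype.card_fin, Module.finrank_self, mul_one]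

end MP0775d3.Om
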