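import Pool.Agent.Lib.MP_0775d3_lc.Om.FdReps
import Pool.Agent.Lib.MP_0775d3_lc.Om.Wedd

/-! Project OM: small groups. -/

namespace MP0775d3.Om

open Matrix MP0775d3.Cf MP0775d3.Sl2

/-- PROOF. Both sides are the trace of the left multiplication by `single g 1`: on the group algebra
(basis `G`) and on the product of the matrix algebras (basis of matrix units). -/
theorem wedd_trace {G : Type} [Group G] [Fintype G] [DecidableEq G] {n : ℕ} {d : Fin n → ℕ}
    (Φ : MonoidAlgebra ℂ G ≃ₐ[ℂ] ∀ i, Matrix (Fin (d i)) (Fin (d i)) ℂ) (g : G) :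
    ∑ i, (d i : ℂ) * (Φ (MonoidAlgebra.single g 1) i).trace =
      if g = 1 then (Fintype.card G : ℂ) else 0 := by
  have h1 : LinearMap.trace ℂ (MonoidAlgebra ℂ G)
      (LinearMap.mulLeft ℂ (MonoidAlgebra.single g (1 : ℂ))) =
        if g = 1 then (Fintype.card G : ℂ) else 0 := by
    rw [LinearMap.trace_eq_matrix_trace ℂ (MonoidAlgebra.basis G ℂ), Matrix.trace]
    have h : ∀ x : G, Matrix.diag (LinearMap.toMatrix (MonoidAlgebra.basis G ℂ)
        (MonoidAlgebra.basis G ℂ) (LinearMap.mulLeft ℂ (MonoidAlgebra.single g (1 : ℂ)))) x =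
          if g = 1 then 1 else 0 := by
      intro x
      rw [Matrix.diag_apply, LinearMap.toMatrix_apply, MonoidAlgebra.basis_apply,
        LinearMap.mulLeft_apply, MonoidAlgebra.single_mul_single, mul_one]
      change (MonoidAlgebra.single (g * x) (1 : ℂ)).coeff x = _
      rw [MonoidAlgebra.coeff_single, Finsupp.single_apply]
      exact if_congr mul_eq_right rfl rfl
    simp only [h]
    by_cases hg : g = 1
    · simp [hg]
    · simp [hg]
  have h2 : ∀ y : ∀ i, Matrix (Fin (d i)) (Fin (d i)) ℂ,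
      LinearMap.trace ℂ (∀ i, Matrix (Fin (d i)) (Fin (d i)) ℂ) (LinearMap.mulLeft ℂ y) =
        ∑ i, (d i : ℂ) * (y i).trace := by
    intro y
    rw [LinearMap.trace_eq_matrix_trace ℂ
      (Pi.basis fun i => Matrix.stdBasis ℂ (Fin (d i)) (Fin (d i))), Matrix.trace]
    have hr : ∀ (m : ℕ) (M : Matrix (Fin m) (Fin m) ℂ) (a b : Fin m),
        (Matrix.stdBasis ℂ (Fin m) (Fin m)).repr M (a, b) = M a b := by
      intro m M a b
      simp [Matrix.stdBasis]
    have h : ∀ z : (Σ i, Fin (d i) × Fin (d i)), Matrix.diag (LinearMap.toMatrix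
        (Pi.basis fun i => Matrix.stdBasis ℂ (Fin (d i)) (Fin (d i)))
        (Pi.basis fun i => Matrix.stdBasis ℂ (Fin (d i)) (Fin (d i)))
        (LinearMap.mulLeft ℂ y)) z = y z.1 z.2.1 z.2.1 := by
      rintro ⟨i, a, b⟩
      rw [Matrix.diag_apply, LinearMap.toMatrix_apply, Pi.basis_apply, Pi.basis_repr,
        LinearMap.mulLeft_apply, Pi.mul_apply, Pi.single_eq_same, Matrix.stdBasis_eq_single, hr,
        Matrix.mul_single_apply_same, mul_one]
    simp only [h]
    rw [Fintype.sum_sigma]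
    refine Finset.sum_congr rfl fun i _ => ?_
    rw [Fintype.sum_prod_type]
    simp only [Finset.sum_const, Finset.card_univ, Fintype.card_fin, nsmul_eq_mul, Matrix.trace,
      Matrix.diag_apply, Finset.mul_sum]
  rw [← h2, ← h1, ← LinearMap.trace_conj' (LinearMap.mulLeft ℂ (MonoidAlgebra.single g (1 : ℂ)))
    Φ.toLinearEquiv]
  congr 1
  refine LinearMap.ext fun b => ?_
  rw [LinearEquiv.conj_apply_apply, LinearMap.mulLeft_apply, LinearMap.mulLeft_apply]
  change _ = Φ (MonoidAlgebra.single g (1 : ℂ) * Φ.symm b)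
  rw [map_mul, AlgEquiv.apply_symm_apply]

/-- PROOF. `wedd`, `wedd_trace`, `fd_of_reps`, `bx_of_blk`, `blk_card`. -/
theorem fd_small {G : Type} [Group G] [Finite G] {s : ℝ} (h : (Nat.card G : ℝ) ≤ s) :
    FD (Nat.card G) s 1 G := by
  classical
  haveI := Fintype.ofFinite G
  rw [Nat.card_eq_fintype_card] at h ⊢
  obtain ⟨n, d, hd, -, hsum, ⟨Φ⟩⟩ := wedd G
  have hc : (Fintype.card (Σ i, Fin (d i) × Fin (d i)) : ℝ) = Fintype.card G := by
    rw [Nat.card_eq_fintype_card] at hsum
    rw [Fintype.card_sigma, ← hsum]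
    simp only [Fintype.card_prod, Fintype.card_fin]
  have h1 : (1 : ℝ) ≤ Fintype.card G := by exact_mod_cast Fintype.card_pos
  refine fd_of_reps (fun i => Fin (d i)) (fun i g => Φ (MonoidAlgebra.single g 1) i) ?_ ?_ ?_
    le_rfl ?_
  · intro i
    have h2 : (MonoidAlgebra.single (1 : G) (1 : ℂ)) = 1 := rfl
    rw [h2, map_one, Pi.one_apply]
  · intro i g g'
    have h2 : (MonoidAlgebra.single (g * g') (1 : ℂ)) =
        MonoidAlgebra.single g 1 * MonoidAlgebra.single g' 1 := by
      rw [MonoidAlgebra.single_mul_single, mul_one]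
    rw [h2, map_mul, Pi.mul_apply]
  · intro g
    simp only [Fintype.card_fin]
    exact wedd_trace Φ g
  · refine bx_of_blk (blk_card h (hc.le.trans h) _) (h1.trans h) le_rfl hc.le

end MP0775d3.Om
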