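import Pool.Agent.Lib.MP_0775d3_lc.Om.SemiE
import Pool.Agent.Lib.MP_0775d3_lc.Om.FdSmall
import Pool.Agent.Lib.MP_0775d3_lc.Om.FdProd
import Pool.Agent.Lib.MP_0775d3_lc.Om.FdPiR

/-! Project OM: direct products of many groups. -/

namespace MP0775d3.Om

open Matrix MP0775d3.Cf

/-- A finite family of finite groups is regrouped: the big ones (order `> N ^ h`) one by one, the small
ones in packets of order at most `N ^ (2 h)`, at most `2 / h + 1` of them. Stated as an induction: PROOF by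
induction on `r`, keeping one open packet. -/
theorem regroup (h : ℝ) (hh : 0 < h) (N : ℝ) (hN : 1 ≤ N) (r : ℕ) (G : Fin r → Type)
    [∀ i, Group (G i)] [∀ i, Finite (G i)] (hG : (Nat.card (∀ i, G i) : ℝ) ≤ N)
    (hS : ∀ i, Small (N ^ h) (G i)) :
    ∃ (k : ℕ) (P : Fin k → Type) (_ : ∀ j, Group (P j)) (_ : ∀ j, Finite (P j)),
      (k : ℝ) ≤ 2 / h + 2 ∧ (∀ j, Small (N ^ (2 * h)) (P j)) ∧ Nonempty ((∀ i, G i) ≃* (∀ j, P j)) := by
  exact regroup_fdPiR h hh N hN r G hG hS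

/-- One group. -/
private theorem fdPi_one {δ : ℝ} {t : ℕ} {C : ℝ} (ht : 1 ≤ t) (hC : 1 ≤ C) {N : ℝ} (hδ : 0 < δ)
    (hN : 1 ≤ N)
    (h : ∀ (A B : Type) [CommGroup A] [CommGroup B] [Finite A] [Finite B] (φ : B →* MulAut A),
      (Nat.card A * Nat.card B : ℝ) ≤ N →
      FD (C * (Nat.card A * Nat.card B)) (C * N ^ δ) t (A ⋊[φ] B))
    (Q : Type) [Group Q] [Finite Q] (hQ : (Nat.card Q : ℝ) ≤ N) (hS : Small (N ^ δ) Q) :
    FD (C * Nat.card Q) (C * N ^ δ) t Q := by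
  have hNδ : 1 ≤ N ^ δ := Real.one_le_rpow hN hδ.le
  have hc : (0 : ℝ) ≤ Nat.card Q := Nat.cast_nonneg _
  rcases hS with hS | ⟨A, B, iA, iB, φ, ⟨e⟩⟩
  · refine (fd_small hS).mono ?_ ?_ ht ?_
    · nlinarith
    · nlinarith
    · nlinarith
  · have fA : Finite A := by
      have := Finite.of_injective (fun a : A => e.symm (SemidirectProduct.inl a : A ⋊[φ] B))
        (e.symm.injective.comp SemidirectProduct.inl_injective)
      exact this
    have fB : Finite B := by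
      have := Finite.of_injective (fun a : B => e.symm (SemidirectProduct.inr a : A ⋊[φ] B))
        (e.symm.injective.comp SemidirectProduct.inr_injective)
      exact this
    have h1 : Nat.card Q = Nat.card A * Nat.card B := by
      rw [Nat.card_congr e.toEquiv, SemidirectProduct.card]
    have h2 : (Nat.card Q : ℝ) = Nat.card A * Nat.card B := by
      rw [h1, Nat.cast_mul]
    rw [h2] at hQ ⊢
    exact (h A B φ hQ).congr e.symm

/-- The first factor. -/
private def fdPiEquiv {k : ℕ} (P : Fin (k + 1) → Type) [∀ j, Group (P j)] :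
    P 0 × (∀ j : Fin k, P j.succ) ≃* (∀ j, P j) where
  toFun p := Fin.cons p.1 p.2
  invFun x := (x 0, fun j => x j.succ)
  left_inv p := rfl
  right_inv x := by
    funext j
    exact Fin.cases rfl (fun _ => rfl) j
  map_mul' p q := by
    funext j
    exact Fin.cases rfl (fun _ => rfl) j

/-- Products. -/
private theorem fdPi_prod {w s : ℝ} {t : ℕ} (ht : 1 ≤ t) (hs : 1 ≤ s) (k : ℕ)
    (P : Fin k → Type) [∀ j, Group (P j)] [∀ j, Finite (P j)]
    (h : ∀ j, FD (w * Nat.card (P j)) s t (P j)) :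
    FD (w ^ k * Nat.card (∀ j, P j)) s ((t + 1) * k + 1) (∀ j, P j) := by
  induction k with
  | zero =>
    have h1 : Nat.card (∀ j, P j) = 1 := Nat.card_unique
    have h2 : ((Nat.card (∀ j, P j) : ℕ) : ℝ) ≤ s := by
      rw [h1, Nat.cast_one]
      exact hs
    have h3 := fd_small h2
    rw [pow_zero, one_mul, mul_zero, zero_add]
    exact h3
  | succ k ih =>
    have h1 := ih (fun j => P j.succ) (fun j => h j.succ)
    have h2 := ((h 0).prod h1 hs ht (by omega)).congr (fdPiEquiv P)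
    have h3 : Nat.card (∀ j, P j) = Nat.card (P 0) * Nat.card (∀ j : Fin k, P j.succ) := by
      rw [← Nat.card_congr (fdPiEquiv P).toEquiv, Nat.card_prod]
    have h4 : w ^ (k + 1) * (Nat.card (∀ j, P j) : ℝ) =
        w * Nat.card (P 0) * (w ^ k * Nat.card (∀ j : Fin k, P j.succ)) := by
      rw [h3, Nat.cast_mul]
      ring
    have h5 : (t + 1) * (k + 1) + 1 = t + ((t + 1) * k + 1) + 1 := by ring
    rw [h4, h5]
    exact h2

/-- PROOF. `regroup` with `h = δ / 2`; `fd_small`, `fd_semi`, `FD.prod`, `FD.congr`; `t`, `C` depend on `δ`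
only since `k ≤ 2 / h + 2`. -/
theorem fd_pi (δ : ℝ) (hδ : 0 < δ) : ∃ h : ℝ, 0 < h ∧ ∃ t : ℕ, 1 ≤ t ∧ ∃ C : ℝ, 1 ≤ C ∧
    ∀ N : ℝ, 1 ≤ N → ∀ (r : ℕ) (G : Fin r → Type) [∀ i, Group (G i)] [∀ i, Finite (G i)],
      (Nat.card (∀ i, G i) : ℝ) ≤ N → (∀ i, Small (N ^ h) (G i)) →
      FD (C * Nat.card (∀ i, G i)) (C * N ^ δ) t (∀ i, G i) := by
  classical
  obtain ⟨t, ht, C, hC, hsemi⟩ := fd_semi δ hδ
  obtain ⟨k₀, hk₀⟩ : ∃ k₀ : ℕ, k₀ = ⌈2 / (δ / 2) + 2⌉₊ := ⟨_, rfl⟩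
  refine ⟨δ / 2, half_pos hδ, (t + 1) * k₀ + 1, by omega, C ^ (k₀ + 1),
    one_le_pow₀ hC, ?_⟩
  intro N hN r G iG fG hG hS
  obtain ⟨k, P, iP, fP, hk, hP, ⟨e⟩⟩ := regroup (δ / 2) (half_pos hδ) N hN r G hG hS
  have h2 : 2 * (δ / 2) = δ := by ring
  rw [h2] at hP
  have hcard : Nat.card (∀ i, G i) = Nat.card (∀ j, P j) := Nat.card_congr e.toEquiv
  rw [hcard] at hG ⊢
  have hNδ : 1 ≤ N ^ δ := Real.one_le_rpow hN hδ.le
  have hs : 1 ≤ C * N ^ δ := by nlinarith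
  have h3 : ∀ j, FD (C * Nat.card (P j)) (C * N ^ δ) t (P j) := by
    intro j
    refine fdPi_one ht hC hδ hN (hsemi N hN) (P j) (le_trans ?_ hG) (hP j)
    exact_mod_cast Nat.card_le_card_of_injective (Pi.mulSingle (M := P) j)
      (Pi.mulSingle_injective j)
  have h4 := (fdPi_prod ht hs k P h3).congr e.symm
  have hkk : k ≤ k₀ := by
    have h5 : (k : ℝ) ≤ (k₀ : ℝ) := by
      rw [hk₀]
      exact hk.trans (Nat.le_ceil _)
    exact_mod_cast h5
  have hc : (0 : ℝ) ≤ Nat.card (∀ j, P j) := Nat.cast_nonneg _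
  refine h4.mono ?_ ?_ ?_ ?_
  · exact mul_le_mul_of_nonneg_right (pow_le_pow_right₀ hC (by omega)) hc
  · have h6 : C ≤ C ^ (k₀ + 1) := le_self_pow₀ hC (by omega)
    exact mul_le_mul_of_nonneg_right h6 (by linarith)
  · have := Nat.mul_le_mul_left (t + 1) hkk
    omega
  · have h6 : 1 ≤ C ^ (k₀ + 1) := one_le_pow₀ hC
    nlinarith

end MP0775d3.Om
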