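import Pool.Agent.Lib.MP_0775d3_lc.Om.RankA

/-! Project OM: the filter with roots of unity on tensor powers. -/

namespace MP0775d3.Om

/-- the root of unity filter -/
private theorem filter_root (Q : ℕ) (hQ : 0 < Q) {ζ : ℂ} (hζ : IsPrimitiveRoot ζ Q) (x y : ℕ)
    (hx : x < Q) (hy : y < Q) :
    ∑ t : Fin Q, (1 / (Q : ℂ)) * ζ ^ ((t : ℕ) * x) * ζ⁻¹ ^ ((t : ℕ) * y) =
      if x = y then 1 else 0 := by
  have hζ0 : ζ ≠ 0 := hζ.ne_zero hQ.ne'
  have hQ0 : (Q : ℂ) ≠ 0 := Nat.cast_ne_zero.2 hQ.ne'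
  have e1 : ∀ t : Fin Q, (1 / (Q : ℂ)) * ζ ^ ((t : ℕ) * x) * ζ⁻¹ ^ ((t : ℕ) * y) =
      (1 / (Q : ℂ)) * (ζ ^ x * ζ⁻¹ ^ y) ^ (t : ℕ) := by
    intro t
    rw [mul_pow, ← pow_mul, ← pow_mul, mul_comm x, mul_comm y, mul_assoc]
  rw [Finset.sum_congr rfl fun t _ => e1 t, ← Finset.mul_sum,
    Fin.sum_univ_eq_sum_range (fun t => (ζ ^ x * ζ⁻¹ ^ y) ^ t) Q]
  have hr : ζ ^ x * ζ⁻¹ ^ y = ζ ^ x / ζ ^ y := by rw [inv_pow, div_eq_mul_inv]
  have hone : (ζ ^ x * ζ⁻¹ ^ y) ^ Q = 1 := by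
    rw [hr, div_pow, ← pow_mul, ← pow_mul, mul_comm x, mul_comm y, pow_mul, pow_mul, hζ.pow_eq_one,
      one_pow, one_pow, div_one]
  by_cases hxy : x = y
  · rw [if_pos hxy, hr, hxy, div_self (pow_ne_zero _ hζ0)]
    simp only [one_pow, Finset.sum_const, Finset.card_range, nsmul_eq_mul, mul_one]
    exact one_div_mul_cancel hQ0
  · rw [if_neg hxy]
    have hne : ζ ^ x * ζ⁻¹ ^ y ≠ 1 := by
      rw [hr]
      intro h
      rw [div_eq_one_iff_eq (pow_ne_zero _ hζ0)] at h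
      exact hxy (hζ.pow_inj hx hy h)
    have h1 := geom_sum_eq hne Q
    rw [h1, hone, sub_self, zero_div, mul_zero]

/-- PROOF. On the support of `powT N T` all `wc (c l) ≤ wb (b l)`, so all are equal if and only if the
sums over `l` are equal: `powT N T₀ a b c = [∑ wb (b l) = ∑ wc (c l)] * powT N T a b c`. Both sums are at most
`D * N < Q := D * N + 1`, so with a primitive `Q`-th root of unity `ζ` the bracket is
`∑ t : Fin Q, (1 / Q) ζ ^ (t ∑ wb) * (ζ⁻¹) ^ (t ∑ wc)`. Every summand is a scaling of `powT N T`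
(`RkLe.pow`, `RkLe.scale`, `RkLe.sum`). -/
theorem filter {α β γ : Type} (T : α → β → γ → ℂ) (wb : β → ℕ) (wc : γ → ℕ) (D : ℕ)
    (hb : ∀ b, wb b ≤ D) (hc : ∀ c, wc c ≤ D) (h0 : ∀ a b c, wb b < wc c → T a b c = 0) {s : ℕ}
    (h : RkLe T s) (N : ℕ) :
    RkLe (powT N (fun a b c => if wb b = wc c then T a b c else 0)) ((D * N + 1) * s ^ N) := by
  obtain ⟨Q, hQ⟩ : ∃ Q, Q = D * N + 1 := ⟨_, rfl⟩
  have hQ0 : 0 < Q := by omega
  have hζ := Complex.isPrimitiveRoot_exp Q hQ0.ne'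
  obtain ⟨ζ, hζd⟩ : ∃ ζ, ζ = Complex.exp (2 * Real.pi * Complex.I / Q) := ⟨_, rfl⟩
  rw [← hζd] at hζ
  have hT : ∀ t : Fin Q, RkLe (fun (a : Fin N → α) (b : Fin N → β) (c : Fin N → γ) =>
      (1 / (Q : ℂ)) * ζ ^ ((t : ℕ) * ∑ l, wb (b l)) * ζ⁻¹ ^ ((t : ℕ) * ∑ l, wc (c l)) *
        powT N T a b c) (s ^ N) := fun t =>
    (h.pow N).scale (fun _ => 1 / (Q : ℂ)) (fun b => ζ ^ ((t : ℕ) * ∑ l, wb (b l)))
      (fun c => ζ⁻¹ ^ ((t : ℕ) * ∑ l, wc (c l)))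
  have hS := RkLe.sum _ hT
  rw [Fintype.card_fin] at hS
  rw [← hQ]
  refine hS.congr fun a b c => ?_
  rw [← Finset.sum_mul]
  have hbs : ∑ l, wb (b l) < Q := by
    have h1 : ∑ l : Fin N, wb (b l) ≤ ∑ _l : Fin N, D := Finset.sum_le_sum fun l _ => hb _
    rw [Finset.sum_const, Finset.card_univ, Fintype.card_fin, smul_eq_mul, mul_comm] at h1
    omega
  have hcs : ∑ l, wc (c l) < Q := by
    have h1 : ∑ l : Fin N, wc (c l) ≤ ∑ _l : Fin N, D := Finset.sum_le_sum fun l _ => hc _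
    rw [Finset.sum_const, Finset.card_univ, Fintype.card_fin, smul_eq_mul, mul_comm] at h1
    omega
  rw [filter_root Q hQ0 hζ _ _ hbs hcs]
  unfold powT
  by_cases hall : ∀ l, wb (b l) = wc (c l)
  · rw [if_pos (Finset.sum_congr rfl fun l _ => hall l), one_mul]
    exact Finset.prod_congr rfl fun l _ => if_pos (hall l)
  · push Not at hall
    obtain ⟨l, hl⟩ := hall
    have hz : ∏ l, (if wb (b l) = wc (c l) then T (a l) (b l) (c l) else 0) = 0 :=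
      Finset.prod_eq_zero (Finset.mem_univ l) (if_neg hl)
    rw [hz]
    symm
    by_cases hs : ∑ l, wb (b l) = ∑ l, wc (c l)
    · rw [if_pos hs, one_mul]
      by_contra hne
      have h1 : ∀ l, wc (c l) ≤ wb (b l) := by
        intro l'
        by_contra hcon
        exact Finset.prod_ne_zero_iff.1 hne l' (Finset.mem_univ l') (h0 _ _ _ (not_le.1 hcon))
      have h2 : ∑ l, wc (c l) < ∑ l, wb (b l) :=
        Finset.sum_lt_sum (fun l _ => h1 l) ⟨l, Finset.mem_univ l, lt_of_le_of_ne (h1 l) (Ne.symm hl)⟩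
      omega
    · rw [if_neg hs, zero_mul]

end MP0775d3.Om
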