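import Pool.Agent.Lib.MP_0775d3_lc.Om.Low
import Pool.Agent.Lib.MP_0775d3_lc.Om.Wedd

/-! Project OM: the lower bound for group matrices. -/

namespace MP0775d3.Om

section gfaux

variable {G : Type} [Group G] [Fintype G] {n : ℕ} {d : Fin n → ℕ}

/-- The coefficients, a linear map. -/
private noncomputable def gfCoef (G : Type) [Group G] : MonoidAlgebra ℂ G →ₗ[ℂ] (G → ℂ) where
  toFun u a := u.coeff a
  map_add' _ _ := rfl
  map_smul' _ _ := rfl

/-- The element with given columns. -/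
private def gfCol (d : Fin n → ℕ) : (∀ κ : (Σ i, Fin (d i)), Fin (d κ.1) → ℂ) →ₗ[ℂ]
    (∀ i, Matrix (Fin (d i)) (Fin (d i)) ℂ) where
  toFun X i := Matrix.of fun b k => X ⟨i, k⟩ b
  map_add' _ _ := rfl
  map_smul' _ _ := rfl

private noncomputable def gfBeta (Φ : MonoidAlgebra ℂ G ≃ₐ[ℂ] ∀ i, Matrix (Fin (d i)) (Fin (d i)) ℂ) :
    (∀ κ : (Σ i, Fin (d i)), Fin (d κ.1) → ℂ) →ₗ[ℂ] (G → ℂ) where
  toFun Y x := ∑ κ : (Σ i, Fin (d i)), ∑ a, Y κ a * Φ (MonoidAlgebra.single x 1) κ.1 a κ.2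
  map_add' X Y := by
    funext x
    simp only [Pi.add_apply, add_mul, Finset.sum_add_distrib]
  map_smul' c X := by
    funext x
    simp only [Pi.smul_apply, smul_eq_mul, Finset.mul_sum, mul_assoc, RingHom.id_apply]

/-- `∑ a, u a * β' Y a = ∑ κ, ∑ a, Y κ a * Φ u κ.1 a κ.2`. -/
private theorem gf_pair (Φ : MonoidAlgebra ℂ G ≃ₐ[ℂ] ∀ i, Matrix (Fin (d i)) (Fin (d i)) ℂ)
    (Y : ∀ κ : (Σ i, Fin (d i)), Fin (d κ.1) → ℂ) (u : MonoidAlgebra ℂ G) :
    ∑ a, u.coeff a * gfBeta Φ Y a =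
      ∑ κ : (Σ i, Fin (d i)), ∑ a, Y κ a * Φ u κ.1 a κ.2 := by
  have hu : u = ∑ x : G, u.coeff x • MonoidAlgebra.single x (1 : ℂ) := by
    ext g
    simp [MonoidAlgebra.coeff_sum]
  have hΦ : ∀ (i : Fin n) (a b : Fin (d i)), Φ u i a b =
      ∑ x : G, u.coeff x * Φ (MonoidAlgebra.single x 1) i a b := by
    intro i a b
    conv_lhs => rw [hu]
    rw [map_sum, Finset.sum_apply, Matrix.sum_apply]
    refine Finset.sum_congr rfl fun x _ => ?_
    rw [map_smul]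
    rfl
  simp only [hΦ, Finset.mul_sum]
  change ∑ a, u.coeff a * ∑ κ : (Σ i, Fin (d i)), ∑ b, Y κ b *
    Φ (MonoidAlgebra.single a 1) κ.1 b κ.2 = _
  simp only [Finset.mul_sum]
  rw [Finset.sum_comm]
  refine Finset.sum_congr rfl fun κ _ => ?_
  rw [Finset.sum_comm]
  refine Finset.sum_congr rfl fun b _ => Finset.sum_congr rfl fun a _ => ?_
  ring

/-- The product of the group algebra. -/
private theorem gf_mul [DecidableEq G] (u v : MonoidAlgebra ℂ G) (w : G → ℂ) :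
    ∑ p, u.coeff p * ∑ a, ∑ b, (((if a * b⁻¹ = p then 1 else 0 : ℚ) : ℚ) : ℂ) * v.coeff b * w a =
      ∑ a, (u * v).coeff a * w a := by
  have h1 : ∀ a, (u * v).coeff a = ∑ b, u.coeff (a * b⁻¹) * v.coeff b := by
    intro a
    rw [MonoidAlgebra.coeff_mul_apply_right, Finsupp.sum_fintype]
    intro i
    exact mul_zero _
  simp only [h1, Finset.mul_sum, Finset.sum_mul]
  rw [Finset.sum_comm]
  refine Finset.sum_congr rfl fun a _ => ?_
  rw [Finset.sum_comm]
  refine Finset.sum_congr rfl fun b _ => ?_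
  rw [Finset.sum_eq_single (a * b⁻¹)]
  · rw [if_pos rfl, Rat.cast_one]
    ring
  · intro p _ hp
    rw [if_neg (Ne.symm hp), Rat.cast_zero]
    ring
  · intro h
    exact absurd (Finset.mem_univ _) h

end gfaux

/-- The tensor of the group algebra. PROOF. `L p a b = 1` if `a * b⁻¹ = p`. `α A` = the coefficients of
`Φ.symm A`, `β X` = the coefficients of `Φ.symm` of the element with columns `X`,
`β' Y x = ∑ κ, ∑ a, Y κ a * Φ (single x 1) κ.1 a κ.2`. Then `∑ p, α A p * ∑ b, L p a b * β X b` is the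
coefficient at `a` of `Φ.symm A * Φ.symm X = Φ.symm (A * X)`, and `∑ a, β' Y a * u a = ∑ κ, ∑ a, Y κ a * Φ u κ.1 a κ.2`
for every `u` in the group algebra. -/
theorem group_form {G : Type} [Group G] [Fintype G] [DecidableEq G] {n : ℕ} {d : Fin n → ℕ}
    (Φ : MonoidAlgebra ℂ G ≃ₐ[ℂ] ∀ i, Matrix (Fin (d i)) (Fin (d i)) ℂ) :
    ∃ (α : (∀ i, Matrix (Fin (d i)) (Fin (d i)) ℂ) →ₗ[ℂ] (G → ℂ))
      (β β' : (∀ κ : (Σ i, Fin (d i)), Fin (d κ.1) → ℂ) →ₗ[ℂ] (G → ℂ)),
      ∀ A X Y, ∑ p, α A p * ∑ a, ∑ b,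
        (((if a * b⁻¹ = p then 1 else 0 : ℚ) : ℚ) : ℂ) * β X b * β' Y a = form d A X Y := by
  refine ⟨(gfCoef G).comp Φ.symm.toLinearMap,
    ((gfCoef G).comp Φ.symm.toLinearMap).comp (gfCol d), gfBeta Φ, fun A X Y => ?_⟩
  refine (gf_mul (Φ.symm A) (Φ.symm (gfCol d X)) (gfBeta Φ Y)).trans ?_
  rw [gf_pair, map_mul, AlgEquiv.apply_symm_apply, AlgEquiv.apply_symm_apply]
  unfold form
  refine Finset.sum_congr rfl fun κ _ => Finset.sum_congr rfl fun a _ => ?_
  have h1 : (A * gfCol d X) κ.1 a κ.2 = ∑ b, A κ.1 a b * X κ b := rfl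
  rw [h1, Finset.mul_sum]
  refine Finset.sum_congr rfl fun b _ => ?_
  ring

/-- PROOF. `wedd`, `group_form`, `low_mass` with `e ^ 2 = 1 / (2 * commProb G) = n / (2 k)`,
`k = Nat.card (ConjClasses G)` (`commProb_def'`): the blocks with `d i < e` have `∑ d i ^ 2 ≤ k e ^ 2 = n / 2`, so
the sum in `low_mass` is at least `n / 2 - n / 4`; `e ^ (omega - 2) = (1 / (2 commProb G)) ^ ((omega - 2) / 2)`. -/
theorem group_low (G : Type) [Group G] [Fintype G] (f : G → ℂ) (hf : AlgebraicIndependent ℚ f)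
    (R S : Matrix G G ℂ) (h : (Matrix.of fun x y => f (x * y⁻¹)) = R + S)
    (hr : 16 * R.rank ≤ Fintype.card G) :
    (Fintype.card G : ℝ) / 16 * (1 / (2 * (commProb G : ℝ))) ^ ((omega - 2) / 2) ≤
      (({p | S p.1 p.2 ≠ 0} : Set (G × G)).ncard : ℝ) := by
  classical
  obtain ⟨n, d, _, hn, hsum, ⟨Φ⟩⟩ := wedd G
  obtain ⟨α, β, β', hab⟩ := group_form Φ
  have hL : ∑ p, f p • ((Matrix.of fun a b : G => (if a * b⁻¹ = p then 1 else 0 : ℚ)).map
      (algebraMap ℚ ℂ)) = R + S := by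
    rw [← h]
    ext x y
    rw [Matrix.sum_apply, Matrix.of_apply, Finset.sum_eq_single (x * y⁻¹)]
    · rw [Matrix.smul_apply, Matrix.map_apply, Matrix.of_apply, if_pos rfl, map_one,
        smul_eq_mul, mul_one]
    · intro p _ hp
      rw [Matrix.smul_apply, Matrix.map_apply, Matrix.of_apply, if_neg (Ne.symm hp), map_zero,
        smul_zero]
    · intro hp
      exact absurd (Finset.mem_univ _) hp
  have hN0 : 0 < Fintype.card G := Fintype.card_pos
  have hNc : Nat.card G = Fintype.card G := Nat.card_eq_fintype_card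
  have hk0 : 0 < Nat.card (ConjClasses G) := Nat.card_pos
  obtain ⟨N, hN⟩ : ∃ N : ℝ, N = (Fintype.card G : ℝ) := ⟨_, rfl⟩
  obtain ⟨k, hk⟩ : ∃ k : ℝ, k = (Nat.card (ConjClasses G) : ℝ) := ⟨_, rfl⟩
  have hNpos : 0 < N := by rw [hN]; exact_mod_cast hN0
  have hkpos : 0 < k := by rw [hk]; exact_mod_cast hk0
  have hc : (commProb G : ℝ) = k / N := by
    rw [commProb_def', hNc, hk, hN]
    push_cast
    rfl
  have hc2 : 1 / (2 * (commProb G : ℝ)) = N / (2 * k) := by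
    rw [hc]
    field_simp
  have hpos : 0 < N / (2 * k) := by positivity
  obtain ⟨e, he⟩ : ∃ e : ℝ, e = (N / (2 * k)) ^ (1 / 2 : ℝ) := ⟨_, rfl⟩
  have he0 : 0 ≤ e := by
    rw [he]
    exact Real.rpow_nonneg hpos.le _
  have he2 : e ^ 2 = N / (2 * k) := by
    rw [he, ← Real.rpow_natCast, ← Real.rpow_mul hpos.le]
    norm_num
  have heo : e ^ (omega - 2) = (1 / (2 * (commProb G : ℝ))) ^ ((omega - 2) / 2) := by
    rw [he, ← Real.rpow_mul hpos.le, hc2]
    congr 1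
    ring
  have main := low_mass d (fun p => Matrix.of fun a b : G => (if a * b⁻¹ = p then 1 else 0 : ℚ)) f
    hf R S hL α β β' hab e he0
  rw [← heo, ← hN]
  refine le_trans ?_ main
  have hs1 : (∑ i, ((d i * d i : ℕ) : ℝ)) = N := by
    rw [hN, ← hNc, ← hsum]
    push_cast
    rfl
  have hs2 : (∑ i, ((d i * d i : ℕ) : ℝ)) ≤
      (∑ i, if e ≤ d i then ((d i * d i : ℕ) : ℝ) else 0) + n * e ^ 2 := by
    have h1 : ∀ i ∈ (Finset.univ : Finset (Fin n)), ((d i * d i : ℕ) : ℝ) ≤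
        (if e ≤ d i then ((d i * d i : ℕ) : ℝ) else 0) + e ^ 2 := by
      intro i _
      split_ifs with hi
      · have := sq_nonneg e
        linarith
      · rw [zero_add]
        push_cast
        have h2 : (d i : ℝ) ≤ e := (not_le.1 hi).le
        have h3 : (0 : ℝ) ≤ d i := Nat.cast_nonneg _
        nlinarith
    refine (Finset.sum_le_sum h1).trans (le_of_eq ?_)
    rw [Finset.sum_add_distrib, Finset.sum_const, Finset.card_univ, Fintype.card_fin,
      nsmul_eq_mul]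
  have hs3 : (n : ℝ) * e ^ 2 ≤ N / 2 := by
    have h1 : (n : ℝ) ≤ k := by
      rw [hk]
      exact_mod_cast hn
    rw [he2]
    calc (n : ℝ) * (N / (2 * k)) ≤ k * (N / (2 * k)) := mul_le_mul_of_nonneg_right h1 hpos.le
      _ = N / 2 := by field_simp
  have hs4 : 16 * (R.rank : ℝ) ≤ N := by
    rw [hN]
    exact_mod_cast hr
  have hs5 : N / 4 ≤ (∑ i, if e ≤ d i then ((d i * d i : ℕ) : ℝ) else 0) - 4 * R.rank := by
    rw [hs1] at hs2
    linarith
  have hp := Real.rpow_nonneg he0 (omega - 2)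
  have hs6 := mul_le_mul_of_nonneg_left hs5 hp
  linarith

end MP0775d3.Om
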