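import Pool.Agent.Lib.MP_0775d3_lc.Om.Up
import Pool.Agent.Lib.MP_0775d3_lc.Om.GroupLow
import Pool.Agent.Lib.MP_0775d3_lc.Om.AlgInd
import Pool.Agent.Lib.MP_0775d3_lc.Kron.Final

/-! Project OM: the powers of a fixed group. -/

namespace MP0775d3.Om

open Matrix MP0775d3.Sl2 MP0775d3.Kron

/-- Abelian groups, no hypothesis. PROOF. `MP0775d3.Kron.partA` with `X = A` (one orbit), `a`, `b` an
enumeration of the group; transport of `Dec` along a bijection. -/
theorem abelian_groupMat (δ : ℝ) (hδ : 0 < δ) : ∃ γ : ℝ, 0 < γ ∧ ∃ n₀ : ℕ,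
    ∀ (G : Type) [Group G] [Fintype G], (∀ a b : G, a * b = b * a) → n₀ ≤ Fintype.card G →
      ∀ f : G → ℂ, Dec (groupMat f) ((Fintype.card G : ℝ) ^ (1 - γ))
        ((Fintype.card G : ℝ) ^ δ) := by
  obtain ⟨γ, hγ, n₀, h⟩ := MP0775d3.Kron.partA.{0, 0} δ hδ
  refine ⟨γ, hγ, max n₀ 1, fun G _ _ hab hn f => ?_⟩
  have hn0 : n₀ ≤ Fintype.card G := (le_max_left _ _).trans hn
  have hn1 : (1 : ℝ) ≤ Fintype.card G := by exact_mod_cast (le_max_right _ _).trans hn
  have hq : Nat.card (MulAction.orbitRel.Quotient G G) = 1 := by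
    have h1 : Subsingleton (MulAction.orbitRel.Quotient G G) :=
      (MulAction.pretransitive_iff_subsingleton_quotient G G).1 inferInstance
    have h2 : Nonempty (MulAction.orbitRel.Quotient G G) := ⟨Quotient.mk _ (1 : G)⟩
    exact Nat.card_eq_one_iff_unique.2 ⟨h1, h2⟩
  have h1 := h (Fintype.card G) hn0 ℂ G G hab (by
    rw [hq, Nat.cast_one]
    exact Real.one_le_rpow hn1 (by positivity)) (by
    rw [hq, Nat.cast_one, mul_one, Nat.card_eq_fintype_card]
    calc (Fintype.card G : ℝ) = (Fintype.card G : ℝ) ^ (1 : ℝ) := (Real.rpow_one _).symm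
      _ ≤ (Fintype.card G : ℝ) ^ (1 + γ) :=
        Real.rpow_le_rpow_of_exponent_le hn1 (by linarith)) (fun x y => f (x * y⁻¹)) (by
    intro g x y
    change f (g * x * (g * y)⁻¹) = f (x * y⁻¹)
    congr 1
    rw [_root_.mul_inv_rev, hab g x, hab y⁻¹ g⁻¹]
    group) (Fintype.equivFin G).symm (Fintype.equivFin G).symm (Equiv.injective _)
    (Equiv.injective _)
  classical
  have h2 := h1.submatrix (Fintype.equivFin G) (Fintype.equivFin G)
  have h3 : (Matrix.of fun i j => f ((Fintype.equivFin G).symm i *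
      ((Fintype.equivFin G).symm j)⁻¹)).submatrix (Fintype.equivFin G) (Fintype.equivFin G) =
      groupMat f := by
    ext x y
    rw [Matrix.submatrix_apply, Matrix.of_apply, Equiv.symm_apply_apply, Equiv.symm_apply_apply]
    rfl
  rwa [h3] at h2

/-- Rigid for all large `m`: the group matrices of `H ^ m` with generic entries. -/
def PowRigid (H : Type) [Group H] [Fintype H] : Prop :=
  ∃ ε : ℝ, 0 < ε ∧ ∃ δ : ℝ, 0 < δ ∧ ∃ m₀ : ℕ, ∀ m : ℕ, m₀ ≤ m →
    ∀ f : (Fin m → H) → ℂ, AlgebraicIndependent ℚ f →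
    ∀ R S : Matrix (Fin m → H) (Fin m → H) ℂ, groupMat f = R + S →
      (R.rank : ℝ) ≤ ε * (Fintype.card H : ℝ) ^ m →
      ((Fintype.card H : ℝ) ^ m) ^ (1 + δ) <
        (({p | S p.1 p.2 ≠ 0} : Set ((Fin m → H) × (Fin m → H))).ncard : ℝ)

/-- PROOF. `group_low`, `commProb_function`: with `c = commProb H < 1` (`commProb_eq_one_iff`),
`n = |H| ^ m` the right side is at least `(n / 16) (1 / (2 c ^ m)) ^ ((ω - 2) / 2)`, and `c ^ (-m) = n ^ κ`,
`κ = log (1 / c) / log |H| > 0`; `ε = 1 / 16`, `δ = κ (ω - 2) / 4`, `m` large. -/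
theorem powRigid_of_lt (h : 2 < omega) (H : Type) [Group H] [Fintype H]
    (hH : ∃ a b : H, a * b ≠ b * a) : PowRigid H := by
  obtain ⟨a₀, b₀, hab⟩ := hH
  have : Nontrivial H := ⟨a₀ * b₀, b₀ * a₀, hab⟩
  obtain ⟨q, hq⟩ : ∃ q : ℝ, q = (Fintype.card H : ℝ) := ⟨_, rfl⟩
  have hq1 : 1 < q := by
    rw [hq]
    exact_mod_cast Fintype.one_lt_card (α := H)
  have hq0 : 0 < q := lt_trans one_pos hq1
  obtain ⟨c, hc⟩ : ∃ c : ℝ, c = (commProb H : ℝ) := ⟨_, rfl⟩
  have hc0 : 0 < c := by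
    rw [hc]
    exact_mod_cast commProb_pos H
  have hc1 : c < 1 := by
    have h1 : commProb H ≠ 1 := by
      intro h2
      have h3 := commProb_eq_one_iff.1 h2
      exact hab (mul_comm' a₀ b₀)
    have h2 := lt_of_le_of_ne (commProb_le_one H) h1
    rw [hc]
    exact_mod_cast h2
  obtain ⟨θ, hθ⟩ : ∃ θ : ℝ, θ = (omega - 2) / 2 := ⟨_, rfl⟩
  have hθ0 : 0 < θ := by
    rw [hθ]
    linarith
  have hic : 1 < 1 / c := by
    rw [lt_div_iff₀ hc0]
    linarith
  have hic0 : 0 < 1 / c := lt_trans one_pos hic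
  obtain ⟨b, hb⟩ : ∃ b : ℝ, b = (1 / c) ^ (θ / 2) := ⟨_, rfl⟩
  have hb1 : 1 < b := by
    rw [hb]
    exact Real.one_lt_rpow hic (by linarith)
  have hb0 : 0 < b := lt_trans one_pos hb1
  have hb2 : (1 / c) ^ θ = b ^ 2 := by
    rw [hb, ← Real.rpow_natCast, ← Real.rpow_mul hic0.le]
    congr 1
    push_cast
    ring
  have hh : 0 < (1 / 2 : ℝ) ^ θ := Real.rpow_pos_of_pos (by norm_num) θ
  have hev := (tendsto_pow_atTop_atTop_of_one_lt hb1).eventually_gt_atTop (16 / (1 / 2 : ℝ) ^ θ)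
  obtain ⟨m₀, hm₀⟩ := Filter.eventually_atTop.1 hev
  refine ⟨1 / 16, by norm_num, Real.logb q b, Real.logb_pos hq1 hb1, m₀, ?_⟩
  intro m hm f hf R S hRS hR
  have hcard : (Fintype.card (Fin m → H) : ℝ) = q ^ m := by
    rw [Fintype.card_fun, Fintype.card_fin, Nat.cast_pow, hq]
  have hcardN : Fintype.card (Fin m → H) = Fintype.card H ^ m := by
    rw [Fintype.card_fun, Fintype.card_fin]
  have hr : 16 * R.rank ≤ Fintype.card (Fin m → H) := by
    have h1 : (16 : ℝ) * R.rank ≤ (Fintype.card H : ℝ) ^ m := by linarith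
    rw [hcardN]
    exact_mod_cast h1
  have key := group_low (Fin m → H) f hf R S hRS hr
  refine lt_of_lt_of_le ?_ key
  rw [hcard, ← hq, ← hθ]
  have hcm : ((commProb (Fin m → H) : ℚ) : ℝ) = c ^ m := by
    rw [commProb_function, Fintype.card_fin, hc]
    push_cast
    rfl
  rw [hcm]
  have e1 : (q ^ m) ^ (1 + Real.logb q b) = q ^ m * b ^ m := by
    rw [Real.rpow_add (pow_pos hq0 m), Real.rpow_one]
    congr 1
    rw [← Real.rpow_natCast q m, ← Real.rpow_mul hq0.le, mul_comm, Real.rpow_mul hq0.le,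
      Real.rpow_logb hq0 hq1.ne' hb0, Real.rpow_natCast]
  have e2 : (1 / (2 * c ^ m)) ^ θ = (1 / 2 : ℝ) ^ θ * (b ^ m) ^ 2 := by
    have h1 : 1 / (2 * c ^ m) = (1 / 2) * (1 / c) ^ m := by
      rw [div_pow, one_pow]
      field_simp
    rw [h1, Real.mul_rpow (by norm_num) (pow_nonneg hic0.le m)]
    congr 1
    rw [← Real.rpow_natCast (1 / c) m, ← Real.rpow_mul hic0.le, mul_comm (m : ℝ) θ,
      Real.rpow_mul hic0.le, hb2, Real.rpow_natCast, ← pow_mul, ← pow_mul, mul_comm]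
  rw [e1, e2]
  have hm1 := hm₀ m hm
  have hm2 : 16 < b ^ m * (1 / 2 : ℝ) ^ θ := (div_lt_iff₀ hh).1 hm1
  have hqm : 0 < q ^ m := pow_pos hq0 m
  have hbm : 0 < b ^ m := pow_pos hb0 m
  have h3 : q ^ m / 16 * ((1 / 2 : ℝ) ^ θ * (b ^ m) ^ 2) =
      q ^ m * b ^ m * ((b ^ m * (1 / 2 : ℝ) ^ θ) / 16) := by ring
  rw [h3]
  have h4 : 1 < (b ^ m * (1 / 2 : ℝ) ^ θ) / 16 := by linarith
  exact lt_mul_of_one_lt_right (mul_pos hqm hbm) h4

/-- The number of nonzero entries. -/
private theorem finA_count {X : Type} [Fintype X] {S : Matrix X X ℂ} {s : ℝ} (h : Sparse S s) :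
    (({p | S p.1 p.2 ≠ 0} : Set (X × X)).ncard : ℝ) ≤ Fintype.card X * s := by
  classical
  have h1 : ({p | S p.1 p.2 ≠ 0} : Set (X × X)) =
      ((Finset.univ.filter fun p : X × X => S p.1 p.2 ≠ 0 : Finset (X × X)) : Set (X × X)) := by
    ext p
    simp
  have h2 : ∀ x, ((Finset.univ.filter fun y : X => S x y ≠ 0).card : ℝ) ≤ s := by
    intro x
    have h3 := h.1 x
    have h4 : ({y | S x y ≠ 0} : Set X) =
        ((Finset.univ.filter fun y : X => S x y ≠ 0 : Finset X) : Set X) := by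
      ext p
      simp
    rwa [h4, Set.ncard_coe_finset] at h3
  have h3 : (Finset.univ.filter fun p : X × X => S p.1 p.2 ≠ 0).card =
      ∑ x, (Finset.univ.filter fun y : X => S x y ≠ 0).card := by
    simp only [Finset.card_filter]
    exact Fintype.sum_prod_type _
  rw [h1, Set.ncard_coe_finset, h3, Nat.cast_sum]
  calc ∑ x, ((Finset.univ.filter fun y : X => S x y ≠ 0).card : ℝ) ≤ ∑ _x : X, s :=
        Finset.sum_le_sum fun x _ => h2 x
    _ = Fintype.card X * s := by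
        rw [Finset.sum_const, Finset.card_univ, nsmul_eq_mul]

/-- PROOF. If `|H| = 1` take `R = 0`, `S = groupMat f` (one entry): `1 < 1` is false. Otherwise a
decomposition with rank at most `n ^ (1 - γ) ≤ ε n` and at most `n * n ^ (δ / 2) < n ^ (1 + δ)` nonzeros for
large `m` (`abelian_groupMat` if `H` is commutative, `up` with `G i = H`, `|H| ≤ n ^ γ`, if `omega = 2`), and
`exists_algInd`. -/
theorem not_powRigid (H : Type) [Group H] [Fintype H]
    (h : omega = 2 ∨ ∀ a b : H, a * b = b * a) : ¬ PowRigid H := by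
  classical
  rintro ⟨ε, hε, δ, hδ, m₀, hr⟩
  rcases Nat.eq_or_lt_of_le (Fintype.card_pos : 0 < Fintype.card H) with h1 | h1
  · -- one element
    obtain ⟨f, hf⟩ := exists_algInd (Fin m₀ → H)
    have hc : Fintype.card H = 1 := h1.symm
    have h2 := hr m₀ le_rfl f hf 0 (groupMat f) (zero_add _).symm (by
      rw [Matrix.rank_zero, Nat.cast_zero]
      positivity)
    rw [hc, Nat.cast_one, one_pow, Real.one_rpow] at h2
    have h3 : ({p | groupMat f p.1 p.2 ≠ 0} : Set ((Fin m₀ → H) × (Fin m₀ → H))).ncard ≤ 1 := by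
      have h4 := Set.ncard_le_ncard (Set.subset_univ
        ({p | groupMat f p.1 p.2 ≠ 0} : Set ((Fin m₀ → H) × (Fin m₀ → H)))) (Set.toFinite _)
      rw [Set.ncard_univ, Nat.card_prod, Nat.card_eq_fintype_card, Fintype.card_fun, hc, one_pow,
        mul_one] at h4
      exact h4
    have h4 : (({p | groupMat f p.1 p.2 ≠ 0} : Set ((Fin m₀ → H) × (Fin m₀ → H))).ncard : ℝ) ≤ 1 := by
      exact_mod_cast h3
    linarith
  · have hb : (1 : ℝ) < Fintype.card H := by exact_mod_cast h1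
    have hlim : Filter.Tendsto (fun m : ℕ => (Fintype.card H : ℝ) ^ m) Filter.atTop Filter.atTop :=
      tendsto_pow_atTop_atTop_of_one_lt hb
    have hcard : ∀ m : ℕ, ((Fintype.card (Fin m → H) : ℕ) : ℝ) = (Fintype.card H : ℝ) ^ m := by
      intro m
      rw [Fintype.card_fun, Fintype.card_fin, Nat.cast_pow]
    have hcard' : ∀ n₀ : ℕ, ∀ᶠ m : ℕ in Filter.atTop, n₀ ≤ Fintype.card (Fin m → H) := by
      intro n₀
      filter_upwards [hlim.eventually_ge_atTop (n₀ : ℝ)] with m hm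
      rw [← hcard] at hm
      exact_mod_cast hm
    obtain ⟨γ, hγ, hdec⟩ : ∃ γ : ℝ, 0 < γ ∧ ∀ᶠ m : ℕ in Filter.atTop, ∀ f : (Fin m → H) → ℂ,
        Dec (groupMat f) (((Fintype.card H : ℝ) ^ m) ^ (1 - γ))
          (((Fintype.card H : ℝ) ^ m) ^ (δ / 2)) := by
      rcases h with h | h
      · obtain ⟨γ, hγ, n₀, h2⟩ := up h (δ / 2) (by positivity)
        refine ⟨γ, hγ, ?_⟩
        have hlim2 : Filter.Tendsto (fun m : ℕ => ((Fintype.card H : ℝ) ^ m) ^ γ) Filter.atTop
            Filter.atTop := (tendsto_rpow_atTop hγ).comp hlim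
        filter_upwards [hcard' n₀, hlim2.eventually_ge_atTop (Fintype.card H : ℝ)] with m h3 h4 f
        have h5 := h2 m (fun _ => H) h3 (fun i => Or.inl (by
          rw [hcard, Nat.card_eq_fintype_card]
          exact h4)) f
        rwa [hcard] at h5
      · obtain ⟨γ, hγ, n₀, h2⟩ := abelian_groupMat (δ / 2) (by positivity)
        refine ⟨γ, hγ, ?_⟩
        filter_upwards [hcard' n₀] with m h3 f
        have h5 := h2 (Fin m → H) (fun a b => funext fun i => h (a i) (b i)) h3 f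
        rwa [hcard] at h5
    have hlim3 : Filter.Tendsto (fun m : ℕ => ((Fintype.card H : ℝ) ^ m) ^ γ) Filter.atTop
        Filter.atTop := (tendsto_rpow_atTop hγ).comp hlim
    obtain ⟨m, hm1, hm2, hm3⟩ := (hdec.and ((hlim3.eventually_ge_atTop (1 / ε)).and
      (Filter.eventually_ge_atTop m₀))).exists
    obtain ⟨f, hf⟩ := exists_algInd (Fin m → H)
    obtain ⟨R, S, h2, h3, h4⟩ := hm1 f
    obtain ⟨n, hn⟩ : ∃ n : ℝ, n = (Fintype.card H : ℝ) ^ m := ⟨_, rfl⟩
    have hn1 : 1 ≤ n := by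
      rw [hn]
      exact one_le_pow₀ hb.le
    have hn0 : 0 < n := by linarith
    have h5 := hr m hm3 f hf R S h2
    have h6 := finA_count h4
    rw [hcard] at h6
    rw [← hn] at h3 h5 h6 hm2
    have h7 : n ^ (1 - γ) ≤ ε * n := by
      have h8 : n ^ (1 - γ) = n / n ^ γ := by
        rw [Real.rpow_sub hn0, Real.rpow_one]
      have h9 : 0 < n ^ γ := Real.rpow_pos_of_pos hn0 _
      rw [h8, div_le_iff₀ h9]
      have h10 : 1 ≤ ε * n ^ γ := by
        have h11 := mul_le_mul_of_nonneg_left hm2 hε.le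
        rwa [mul_one_div_cancel hε.ne'] at h11
      nlinarith
    have h8 := h5 (h3.trans h7)
    have h9 : n * n ^ (δ / 2) ≤ n ^ (1 + δ) := by
      calc n * n ^ (δ / 2) = n ^ (1 + δ / 2) := by
            rw [Real.rpow_add hn0, Real.rpow_one]
        _ ≤ n ^ (1 + δ) := Real.rpow_le_rpow_of_exponent_le hn1 (by linarith)
    exact absurd h8 (not_lt.2 (h6.trans h9))

theorem powRigid_iff (H : Type) [Group H] [Fintype H] :
    PowRigid H ↔ 2 < omega ∧ ∃ a b : H, a * b ≠ b * a := by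
  constructor
  · intro h
    refine ⟨?_, ?_⟩
    · rcases lt_or_eq_of_le two_le_omega with h2 | h2
      · exact h2
      · exact absurd h (not_powRigid H (Or.inl h2.symm))
    · by_contra hcon
      push Not at hcon
      exact not_powRigid H (Or.inr hcon) h
  · rintro ⟨h1, h2⟩
    exact powRigid_of_lt h1 H h2

end MP0775d3.Om
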