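import Pool.Agent.Lib.MP_0775d3_lc.Om.Lead
import Pool.Agent.Lib.MP_0775d3_lc.Om.Compl

/-! Project OM: the linear algebra of the lower bound. -/

namespace MP0775d3.Om

open Module

/-- The good columns. `Κ = Σ i, Fin (d i)`, `V`, `Y` of codimension at most `r` in `∀ κ : Κ, Fin (d κ.1) → ℂ`,
`wt` injective, `wt' κ = D - wt κ` the opposite weight. A column `κ = (i, k)` is good if the leading
parts of `V` (for `wt`) and of `Y` (for `wt'`) both have dimension at least `(d i + 1) / 2`.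
PROOF. A bad column has `(d i - dim lead V) + (d i - dim lead Y) ≥ d i / 2`, so by `sum_lead` for both
`∑ bad, d i / 2 ≤ 2 r`. -/
theorem good_columns {I : Type} [Fintype I] [DecidableEq I] (d : I → ℕ)
    (wt wt' : (Σ i, Fin (d i)) → ℕ) (hwt : Function.Injective wt) (hwt' : Function.Injective wt')
    (V Y : Submodule ℂ (∀ κ : (Σ i, Fin (d i)), Fin (d κ.1) → ℂ)) (r : ℕ)
    (hV : ∑ i, d i * d i ≤ finrank ℂ V + r) (hY : ∑ i, d i * d i ≤ finrank ℂ Y + r) :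
    ∃ good : Finset (Σ i, Fin (d i)), (∀ κ ∈ good,
      (d κ.1 + 1) / 2 ≤ finrank ℂ (lead (fun κ : (Σ i, Fin (d i)) => Fin (d κ.1)) wt V κ) ∧
      (d κ.1 + 1) / 2 ≤ finrank ℂ (lead (fun κ : (Σ i, Fin (d i)) => Fin (d κ.1)) wt' Y κ)) ∧
      ∑ i, d i * d i ≤ ∑ κ ∈ good, d κ.1 + 4 * r := by
  classical
  have hS : ∑ κ : (Σ i, Fin (d i)), d κ.1 = ∑ i, d i * d i := by
    rw [Fintype.sum_sigma]
    refine Finset.sum_congr rfl fun i _ => ?_
    change ∑ _j : Fin (d i), d i = d i * d i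
    rw [Finset.sum_const, Finset.card_univ, Fintype.card_fin, smul_eq_mul]
  have h1 := sum_lead (fun κ : (Σ i, Fin (d i)) => Fin (d κ.1)) wt hwt V
  have h2 := sum_lead (fun κ : (Σ i, Fin (d i)) => Fin (d κ.1)) wt' hwt' Y
  have hle : ∀ (W : Submodule ℂ (∀ κ : (Σ i, Fin (d i)), Fin (d κ.1) → ℂ))
      (u : (Σ i, Fin (d i)) → ℕ) (κ : (Σ i, Fin (d i))),
      finrank ℂ (lead (fun κ : (Σ i, Fin (d i)) => Fin (d κ.1)) u W κ) ≤ d κ.1 := by
    intro W u κ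
    refine (Submodule.finrank_le _).trans ?_
    rw [finrank_fin_fun]
  refine ⟨Finset.univ.filter fun κ =>
    (d κ.1 + 1) / 2 ≤ finrank ℂ (lead (fun κ : (Σ i, Fin (d i)) => Fin (d κ.1)) wt V κ) ∧
    (d κ.1 + 1) / 2 ≤ finrank ℂ (lead (fun κ : (Σ i, Fin (d i)) => Fin (d κ.1)) wt' Y κ),
    fun κ hκ => (Finset.mem_filter.1 hκ).2, ?_⟩
  rw [Finset.sum_filter]
  have h3 : ∀ κ : (Σ i, Fin (d i)), d κ.1 +
      2 * finrank ℂ (lead (fun κ : (Σ i, Fin (d i)) => Fin (d κ.1)) wt V κ) +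
      2 * finrank ℂ (lead (fun κ : (Σ i, Fin (d i)) => Fin (d κ.1)) wt' Y κ) ≤
      (if (d κ.1 + 1) / 2 ≤ finrank ℂ (lead (fun κ : (Σ i, Fin (d i)) => Fin (d κ.1)) wt V κ) ∧
        (d κ.1 + 1) / 2 ≤ finrank ℂ (lead (fun κ : (Σ i, Fin (d i)) => Fin (d κ.1)) wt' Y κ)
        then d κ.1 else 0) + 4 * d κ.1 := by
    intro κ
    have ha := hle V wt κ
    have hb := hle Y wt' κ
    by_cases hg : (d κ.1 + 1) / 2 ≤
        finrank ℂ (lead (fun κ : (Σ i, Fin (d i)) => Fin (d κ.1)) wt V κ) ∧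
        (d κ.1 + 1) / 2 ≤ finrank ℂ (lead (fun κ : (Σ i, Fin (d i)) => Fin (d κ.1)) wt' Y κ)
    · rw [if_pos hg]
      omega
    · rw [if_neg hg]
      rcases not_and_or.1 hg with h | h <;> omega
  have h4 := Finset.sum_le_sum fun (κ : (Σ i, Fin (d i))) (_ : κ ∈ Finset.univ) => h3 κ
  simp only [Finset.sum_add_distrib, ← Finset.mul_sum] at h4
  rw [hS] at h4
  omega

private theorem lifts_form_single {I : Type} [Fintype I] [DecidableEq I] (d : I → ℕ) (i : I)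
    (M : Matrix (Fin (d i)) (Fin (d i)) ℂ) (X Y : ∀ κ : (Σ i, Fin (d i)), Fin (d κ.1) → ℂ) :
    form d (Pi.single (M := fun i => Matrix (Fin (d i)) (Fin (d i)) ℂ) i M) X Y =
      ∑ k : Fin (d i), ∑ p : Fin (d i), ∑ q : Fin (d i), M p q * X ⟨i, k⟩ q * Y ⟨i, k⟩ p := by
  unfold form
  rw [Fintype.sum_sigma, Fintype.sum_eq_single i]
  · refine Finset.sum_congr rfl fun k _ => ?_
    refine Finset.sum_congr rfl fun p _ => Finset.sum_congr rfl fun q _ => ?_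
    rw [Pi.single_eq_same]
  · intro j hj
    refine Finset.sum_eq_zero fun k _ => Finset.sum_eq_zero fun p _ =>
      Finset.sum_eq_zero fun q _ => ?_
    have h0 : (Pi.single (M := fun i => Matrix (Fin (d i)) (Fin (d i)) ℂ) i M) j = 0 :=
      Pi.single_eq_of_ne hj _
    show (Pi.single (M := fun i => Matrix (Fin (d i)) (Fin (d i)) ℂ) i M) j p q * _ * _ = 0
    rw [h0, Matrix.zero_apply, zero_mul, zero_mul]

private theorem lifts_bil {n M : ℕ} (f g : (Fin n → ℂ) →ₗ[ℂ] (Fin M → ℂ)) (x y : Fin n → ℂ)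
    (a b : Fin M) :
    ∑ p : Fin n, ∑ q : Fin n, (g (fun j => if p = j then 1 else 0) a *
      f (fun j => if q = j then 1 else 0) b) * x q * y p = g y a * f x b := by
  rw [LinearMap.pi_apply_eq_sum_univ f x, LinearMap.pi_apply_eq_sum_univ g y,
    Finset.sum_apply, Finset.sum_apply, Finset.sum_mul_sum]
  refine Finset.sum_congr rfl fun p _ => Finset.sum_congr rfl fun q _ => ?_
  rw [Pi.smul_apply, Pi.smul_apply, smul_eq_mul, smul_eq_mul]
  ring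

/-- PROOF. Take an injective `wt : Κ → ℕ` with values at most `D` (`Fintype.equivFin`), `wt' = D - wt`,
`good` from `good_columns`, `K i` = number of good `κ` with `κ.1 = i`, an enumeration
`c i : Fin (K i) → Fin (d i)` of them, `π i`, `π' i` from `common_onto` (`M = (d i + 1) / 2`, subspaces: the
leading parts of the good columns of `i`). `Al ⟨i, a, b⟩` is the matrix `π'ᵀ E_ab π` in the block `i`, zero
elsewhere: entries `(p, q) ↦ π' (e_p) a * π (e_q) b`. `Xl ⟨i, j, k⟩ ∈ V` with later columns zero and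
`π (X κ) = e_j`, `κ = (i, c i k)`; `Yl ⟨i, j, k⟩ ∈ Y` with earlier columns zero and `π' (Y κ) = e_j`;
`w ⟨i, j, k⟩ = wt (i, c i k)`. Then `form (Al a) (Xl b) (Yl c) = ∑ κ in block a.1, (π' (Yl c κ)) a.2.1 *
(π (Xl b κ)) a.2.2`; the summand is zero unless `w c ≤ wt κ ≤ w b`; if `w b = w c` only `κ = ` this column
remains: the value is `dsT`. -/
theorem lifts {I : Type} [Fintype I] [DecidableEq I] (d : I → ℕ)
    (V Y : Submodule ℂ (∀ κ : (Σ i, Fin (d i)), Fin (d κ.1) → ℂ)) (r : ℕ)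
    (hV : ∑ i, d i * d i ≤ finrank ℂ V + r) (hY : ∑ i, d i * d i ≤ finrank ℂ Y + r) :
    ∃ K : I → ℕ, (∀ i, K i ≤ d i) ∧ ∑ i, d i * d i ≤ ∑ i, d i * K i + 4 * r ∧
    ∃ (Al : (Σ i, Fin ((d i + 1) / 2) × Fin ((d i + 1) / 2)) → ∀ i, Matrix (Fin (d i)) (Fin (d i)) ℂ)
      (Xl Yl : (Σ i, Fin ((d i + 1) / 2) × Fin (K i)) →
        ∀ κ : (Σ i, Fin (d i)), Fin (d κ.1) → ℂ)
      (w : (Σ i, Fin ((d i + 1) / 2) × Fin (K i)) → ℕ) (D : ℕ), (∀ b, w b ≤ D) ∧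
      (∀ b, Xl b ∈ V) ∧ (∀ c, Yl c ∈ Y) ∧
      (∀ a b c, w b < w c → form d (Al a) (Xl b) (Yl c) = 0) ∧
      ∀ a b c, (if w b = w c then form d (Al a) (Xl b) (Yl c) else 0) =
        dsT (fun i => (d i + 1) / 2) K a b c := by
  classical
  obtain ⟨wt, D, hwt, hD⟩ : ∃ (wt : (Σ i, Fin (d i)) → ℕ) (D : ℕ), Function.Injective wt ∧
      ∀ κ, wt κ ≤ D :=
    ⟨fun κ => (Fintype.equivFin (Σ i, Fin (d i)) κ : ℕ), Fintype.card (Σ i, Fin (d i)),
      fun x y h => (Fintype.equivFin _).injective (Fin.ext h), fun κ => (Fin.isLt _).le⟩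
  have hwt' : Function.Injective (fun κ => D - wt κ) := by
    intro x y h
    have h1 : D - wt x = D - wt y := h
    have h2 := hD x
    have h3 := hD y
    exact hwt (by omega)
  obtain ⟨good, hgood, hsum⟩ := good_columns d wt (fun κ => D - wt κ) hwt hwt' V Y r hV hY
  obtain ⟨S, hS⟩ : ∃ S : ∀ i, Finset (Fin (d i)), ∀ i k, k ∈ S i ↔ (⟨i, k⟩ : Σ i, Fin (d i)) ∈ good :=
    ⟨fun i => Finset.univ.filter fun k => (⟨i, k⟩ : Σ i, Fin (d i)) ∈ good, fun i k => by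
      rw [Finset.mem_filter]
      exact ⟨fun h => h.2, fun h => ⟨Finset.mem_univ _, h⟩⟩⟩
  obtain ⟨cc, hcmem, hcinj⟩ : ∃ cc : ∀ i, Fin (S i).card → Fin (d i), (∀ i j, cc i j ∈ S i) ∧
      ∀ i, Function.Injective (cc i) :=
    ⟨fun i => (S i).orderEmbOfFin rfl, fun i j => Finset.orderEmbOfFin_mem _ _ _,
      fun i => ((S i).orderEmbOfFin rfl).injective⟩
  have hcgood : ∀ i j, (⟨i, cc i j⟩ : Σ i, Fin (d i)) ∈ good := fun i j => (hS i _).1 (hcmem i j)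
  have hπ := fun i => common_onto ((d i + 1) / 2)
    (fun j : Fin (S i).card => (lead (fun κ : (Σ i, Fin (d i)) => Fin (d κ.1)) wt V ⟨i, cc i j⟩ :
      Submodule ℂ (Fin (d i) → ℂ))) (fun j => (hgood _ (hcgood i j)).1)
  have hρ := fun i => common_onto ((d i + 1) / 2)
    (fun j : Fin (S i).card => (lead (fun κ : (Σ i, Fin (d i)) => Fin (d κ.1)) (fun κ => D - wt κ) Y
      ⟨i, cc i j⟩ : Submodule ℂ (Fin (d i) → ℂ))) (fun j => (hgood _ (hcgood i j)).2)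
  choose π hπ using hπ
  choose ρ hρ using hρ
  have hX : ∀ b : (Σ i, Fin ((d i + 1) / 2) × Fin (S i).card),
      ∃ X : ∀ κ : (Σ i, Fin (d i)), Fin (d κ.1) → ℂ, X ∈ V ∧
        π b.1 (X ⟨b.1, cc b.1 b.2.2⟩) = Pi.single b.2.1 1 ∧
        ∀ l, wt ⟨b.1, cc b.1 b.2.2⟩ < wt l → X l = 0 := by
    intro b
    obtain ⟨x, ⟨X, h1, h2, h3⟩, h4⟩ := hπ b.1 b.2.2 (Pi.single b.2.1 1)
    refine ⟨X, h1, ?_, h3⟩
    rw [← h4, ← h2]
  have hYl : ∀ b : (Σ i, Fin ((d i + 1) / 2) × Fin (S i).card),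
      ∃ X : ∀ κ : (Σ i, Fin (d i)), Fin (d κ.1) → ℂ, X ∈ Y ∧
        ρ b.1 (X ⟨b.1, cc b.1 b.2.2⟩) = Pi.single b.2.1 1 ∧
        ∀ l, wt l < wt ⟨b.1, cc b.1 b.2.2⟩ → X l = 0 := by
    intro b
    obtain ⟨x, ⟨X, h1, h2, h3⟩, h4⟩ := hρ b.1 b.2.2 (Pi.single b.2.1 1)
    refine ⟨X, h1, ?_, fun l hl => h3 l ?_⟩
    · rw [← h4, ← h2]
    · have h5 := hD ⟨b.1, cc b.1 b.2.2⟩
      have h6 := hD l
      show D - wt ⟨b.1, cc b.1 b.2.2⟩ < D - wt l
      omega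
  choose Xl hXV hXπ hX0 using hX
  choose Yl hYV hYρ hY0 using hYl
  have hval : ∀ (a : Σ i, Fin ((d i + 1) / 2) × Fin ((d i + 1) / 2))
      (X Z : ∀ κ : (Σ i, Fin (d i)), Fin (d κ.1) → ℂ),
      form d (Pi.single (M := fun i => Matrix (Fin (d i)) (Fin (d i)) ℂ) a.1
        (Matrix.of fun p q => ρ a.1 (fun j => if p = j then 1 else 0) a.2.1 *
          π a.1 (fun j => if q = j then 1 else 0) a.2.2)) X Z =
      ∑ k : Fin (d a.1), ρ a.1 (Z ⟨a.1, k⟩) a.2.1 * π a.1 (X ⟨a.1, k⟩) a.2.2 := by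
    intro a X Z
    rw [lifts_form_single]
    refine Finset.sum_congr rfl fun k _ => ?_
    exact lifts_bil (π a.1) (ρ a.1) (X ⟨a.1, k⟩) (Z ⟨a.1, k⟩) a.2.1 a.2.2
  refine ⟨fun i => (S i).card, fun i => ?_, ?_, fun a => Pi.single
    (M := fun i => Matrix (Fin (d i)) (Fin (d i)) ℂ) a.1
    (Matrix.of fun p q => ρ a.1 (fun j => if p = j then 1 else 0) a.2.1 *
      π a.1 (fun j => if q = j then 1 else 0) a.2.2), Xl, Yl,
    fun b => wt ⟨b.1, cc b.1 b.2.2⟩, D, fun b => hD _, hXV, hYV, ?_, ?_⟩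
  · exact (Finset.card_le_univ _).trans_eq (Fintype.card_fin _)
  · refine hsum.trans_eq ?_
    congr 1
    have h1 : ∑ κ ∈ good, d κ.1 = ∑ κ : (Σ i, Fin (d i)), if κ ∈ good then d κ.1 else 0 := by
      rw [Finset.sum_ite_mem, Finset.univ_inter]
    rw [h1, Fintype.sum_sigma]
    refine Finset.sum_congr rfl fun i _ => ?_
    have h2 : ∀ k : Fin (d i), (if (⟨i, k⟩ : Σ i, Fin (d i)) ∈ good then d i else 0) =
        if k ∈ S i then d i else 0 := fun k => if_congr (hS i k).symm rfl rfl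
    show ∑ k : Fin (d i), (if (⟨i, k⟩ : Σ i, Fin (d i)) ∈ good then d i else 0) = _
    rw [Finset.sum_congr rfl fun k _ => h2 k, Finset.sum_ite_mem, Finset.univ_inter,
      Finset.sum_const, smul_eq_mul, mul_comm]
  · intro a b c hbc
    rw [hval]
    refine Finset.sum_eq_zero fun k _ => ?_
    rcases lt_or_ge (wt ⟨b.1, cc b.1 b.2.2⟩) (wt ⟨a.1, k⟩) with h | h
    · rw [hX0 b _ h, map_zero, Pi.zero_apply, mul_zero]
    · have h' : wt ⟨a.1, k⟩ < wt ⟨c.1, cc c.1 c.2.2⟩ := lt_of_le_of_lt h hbc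
      rw [hY0 c _ h', map_zero, Pi.zero_apply, zero_mul]
  · intro a b c
    by_cases hbc : wt ⟨b.1, cc b.1 b.2.2⟩ = wt ⟨c.1, cc c.1 c.2.2⟩
    · rw [if_pos hbc, hval]
      have hκ : (⟨b.1, cc b.1 b.2.2⟩ : Σ i, Fin (d i)) = ⟨c.1, cc c.1 c.2.2⟩ := hwt hbc
      have hz : ∀ k : Fin (d a.1), (⟨a.1, k⟩ : Σ i, Fin (d i)) ≠ ⟨b.1, cc b.1 b.2.2⟩ →
          ρ a.1 (Yl c ⟨a.1, k⟩) a.2.1 * π a.1 (Xl b ⟨a.1, k⟩) a.2.2 = 0 := by
        intro k hk
        rcases lt_trichotomy (wt ⟨a.1, k⟩) (wt ⟨b.1, cc b.1 b.2.2⟩) with h | h | h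
        · rw [hY0 c _ (h.trans_eq hbc), map_zero, Pi.zero_apply, zero_mul]
        · exact absurd (hwt h) hk
        · rw [hX0 b _ h, map_zero, Pi.zero_apply, mul_zero]
      obtain ⟨ia, a1, a2⟩ := a
      obtain ⟨ib, b1, b2⟩ := b
      obtain ⟨ic, c1, c2⟩ := c
      have hbc1 : ib = ic := congrArg Sigma.fst hκ
      subst hbc1
      have hcc : cc ib b2 = cc ib c2 := eq_of_heq (Sigma.mk.inj hκ).2
      have hb2 : b2 = c2 := hcinj ib hcc
      subst hb2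
      by_cases hab : ia = ib
      · subst hab
        rw [Fintype.sum_eq_single (cc ia b2) (fun k hk => hz k fun h => hk
          (eq_of_heq (Sigma.mk.inj h).2))]
        have e1 := hYρ ⟨ia, c1, b2⟩
        have e2 := hXπ ⟨ia, b1, b2⟩
        have e3 : ρ ia (Yl ⟨ia, c1, b2⟩ ⟨ia, cc ia b2⟩) = Pi.single c1 1 := e1
        have e4 : π ia (Xl ⟨ia, b1, b2⟩ ⟨ia, cc ia b2⟩) = Pi.single b1 1 := e2
        show ρ ia (Yl ⟨ia, c1, b2⟩ ⟨ia, cc ia b2⟩) a1 * π ia (Xl ⟨ia, b1, b2⟩ ⟨ia, cc ia b2⟩) a2 = _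
        rw [e3, e4]
        unfold dsT
        by_cases h1 : a1 = c1
        · by_cases h2 : a2 = b1
          · subst h1
            subst h2
            rw [Pi.single_eq_same, Pi.single_eq_same, mul_one, if_pos ⟨rfl, rfl, rfl, rfl, rfl⟩]
          · rw [Pi.single_eq_of_ne h2, mul_zero, if_neg]
            rintro ⟨_, _, _, h, _⟩
            exact h2 (Fin.ext h)
        · rw [Pi.single_eq_of_ne h1, zero_mul, if_neg]
          rintro ⟨_, _, h, _, _⟩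
          exact h1 (Fin.ext h)
      · rw [Finset.sum_eq_zero fun k _ => hz k fun h => hab (congrArg Sigma.fst h)]
        unfold dsT
        rw [if_neg]
        rintro ⟨h, _⟩
        exact hab h
    · rw [if_neg hbc]
      unfold dsT
      rw [if_neg]
      rintro ⟨_, h1, _, _, h2⟩
      apply hbc
      obtain ⟨ib, b1, b2⟩ := b
      obtain ⟨ic, c1, c2⟩ := c
      have h3 : ib = ic := h1
      subst h3
      have h4 : b2 = c2 := Fin.ext h2
      subst h4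
      rfl

end MP0775d3.Om
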