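import Pool.Agent.Lib.MP_0775d3_lc.Om.Defs

/-! Project OM: leading parts of a subspace. -/

namespace MP0775d3.Om

open Module

/-- The elements of `V` whose columns of weight at least `n` vanish. -/
private def leadW {Κ : Type} (e : Κ → Type) (wt : Κ → ℕ) (V : Submodule ℂ (∀ κ, e κ → ℂ))
    (n : ℕ) : Submodule ℂ (∀ κ, e κ → ℂ) where
  carrier := {x | x ∈ V ∧ ∀ l, n ≤ wt l → x l = 0}
  add_mem' := by
    rintro a b ⟨h1, h2⟩ ⟨h3, h4⟩
    exact ⟨V.add_mem h1 h3, fun l hl => by rw [Pi.add_apply, h2 l hl, h4 l hl, add_zero]⟩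
  zero_mem' := ⟨V.zero_mem, fun l _ => rfl⟩
  smul_mem' := by
    rintro c a ⟨h1, h2⟩
    exact ⟨V.smul_mem c h1, fun l hl => by rw [Pi.smul_apply, h2 l hl, smul_zero]⟩

/-- PROOF. For `n : ℕ` let `W n = {x ∈ V | x l = 0 for all l with n ≤ wt l}`. Induction on `n`:
`finrank (W n) ≤ ∑ κ with wt κ < n, finrank (lead e wt V κ)`: if no `κ` has weight `n`, then
`W (n + 1) = W n`; if `κ` is the one with weight `n`, the linear map `x ↦ x κ` from `W (n + 1)` into
`lead e wt V κ` has kernel `W n` (rank-nullity). For `n` large `W n = V`. -/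
theorem sum_lead {Κ : Type} [Fintype Κ] [DecidableEq Κ] (e : Κ → Type) [∀ κ, Fintype (e κ)]
    (wt : Κ → ℕ) (hwt : Function.Injective wt) (V : Submodule ℂ (∀ κ, e κ → ℂ)) :
    finrank ℂ V ≤ ∑ κ, finrank ℂ (lead e wt V κ) := by
  have key : ∀ n : ℕ, finrank ℂ (leadW e wt V n) ≤
      ∑ κ ∈ Finset.univ.filter (fun κ => wt κ < n), finrank ℂ (lead e wt V κ) := by
    intro n
    induction n with
    | zero =>
      have h0 : leadW e wt V 0 = ⊥ := by
        rw [eq_bot_iff]
        rintro x ⟨_, hx⟩
        rw [Submodule.mem_bot]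
        funext l
        exact hx l (Nat.zero_le _)
      rw [h0, finrank_bot]
      exact Nat.zero_le _
    | succ n ih =>
      by_cases hn : ∃ κ, wt κ = n
      · obtain ⟨κ, hκ⟩ := hn
        have hfil : Finset.univ.filter (fun κ => wt κ < n + 1) =
            insert κ (Finset.univ.filter (fun κ => wt κ < n)) := by
          ext l
          rw [Finset.mem_insert, Finset.mem_filter, Finset.mem_filter]
          constructor
          · rintro ⟨_, hl⟩
            rcases Nat.lt_succ_iff_lt_or_eq.1 hl with h | h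
            · exact Or.inr ⟨Finset.mem_univ _, h⟩
            · exact Or.inl (hwt (h.trans hκ.symm))
          · rintro (h | ⟨_, h⟩)
            · rw [h, hκ]
              exact ⟨Finset.mem_univ _, Nat.lt_succ_self n⟩
            · exact ⟨Finset.mem_univ _, h.trans (Nat.lt_succ_self n)⟩
        have hnot : κ ∉ Finset.univ.filter (fun κ => wt κ < n) := by
          rw [Finset.mem_filter, hκ]
          exact fun h => lt_irrefl _ h.2
        obtain ⟨g, hg⟩ : ∃ g : leadW e wt V (n + 1) →ₗ[ℂ] (e κ → ℂ),
            ∀ x : leadW e wt V (n + 1), g x = (x : ∀ κ, e κ → ℂ) κ :=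
          ⟨(LinearMap.proj κ).comp (leadW e wt V (n + 1)).subtype, fun _ => rfl⟩
        have h1 : finrank ℂ (LinearMap.range g) ≤ finrank ℂ (lead e wt V κ) := by
          refine Submodule.finrank_mono ?_
          rintro _ ⟨⟨x, hx1, hx2⟩, rfl⟩
          rw [hg]
          refine ⟨x, hx1, rfl, fun l hl => hx2 l ?_⟩
          rw [hκ] at hl
          exact hl
        have h2 : finrank ℂ (LinearMap.ker g) ≤ finrank ℂ (leadW e wt V n) := by
          rw [← Submodule.finrank_map_subtype_eq]
          refine Submodule.finrank_mono ?_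
          rintro _ ⟨⟨x, hx1, hx2⟩, hx3, rfl⟩
          have hx4 : x κ = 0 := (hg ⟨x, hx1, hx2⟩).symm.trans (LinearMap.mem_ker.1 hx3)
          refine ⟨hx1, fun l hl => ?_⟩
          rcases hl.lt_or_eq with h | h
          · exact hx2 l h
          · have : l = κ := hwt (h.symm.trans hκ.symm)
            rw [this]
            exact hx4
        have h3 := LinearMap.finrank_range_add_finrank_ker g
        rw [hfil, Finset.sum_insert hnot]
        omega
      · have hW : leadW e wt V (n + 1) ≤ leadW e wt V n := by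
          rintro x ⟨hx1, hx2⟩
          refine ⟨hx1, fun l hl => hx2 l ?_⟩
          rcases hl.lt_or_eq with h | h
          · exact h
          · exact absurd ⟨l, h.symm⟩ hn
        refine (Submodule.finrank_mono hW).trans (ih.trans (Finset.sum_le_sum_of_subset ?_))
        intro l hl
        rw [Finset.mem_filter] at hl ⊢
        exact ⟨hl.1, hl.2.trans (Nat.lt_succ_self n)⟩
  have hV : V ≤ leadW e wt V (Finset.univ.sup wt + 1) := by
    intro x hx
    refine ⟨hx, fun l hl => ?_⟩
    have := Finset.le_sup (f := wt) (Finset.mem_univ l)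
    omega
  exact (Submodule.finrank_mono hV).trans ((key _).trans
    (Finset.sum_le_sum_of_subset (Finset.filter_subset _ _)))

end MP0775d3.Om
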