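import Pool.Agent.Lib.MP_0775d3_lc.Om.Deriv
import Pool.Agent.Lib.MP_0775d3_lc.Om.Defs

/-! Project OM: a decomposition of a generic matrix bounds the rank of the restricted tensor. -/

namespace MP0775d3.Om

open Module Matrix

private theorem restrict_factor {ι : Type} [Fintype ι] [DecidableEq ι] (R : Matrix ι ι ℂ) :
    ∃ (B : Matrix ι (Fin R.rank) ℂ) (C : Matrix (Fin R.rank) ι ℂ), R = B * C := by
  have b : Basis (Fin R.rank) ℂ (LinearMap.range R.mulVecLin) := finBasisOfFinrankEq _ _ rfl
  refine ⟨Matrix.of fun i k => (b k : ι → ℂ) i, Matrix.of fun k j =>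
    b.repr ⟨R.mulVecLin (Pi.single j 1), LinearMap.mem_range_self _ _⟩ k, ?_⟩
  ext i j
  have h := b.sum_repr ⟨R.mulVecLin (Pi.single j 1), LinearMap.mem_range_self _ _⟩
  have h2 := congrFun (congrArg (Subtype.val) h) i
  have h3 : (R.mulVecLin (Pi.single j 1)) i = R i j := by simp
  rw [Matrix.mul_apply, ← h3]
  refine Eq.trans h2.symm ?_
  simp only [Submodule.coe_sum, Submodule.coe_smul, Finset.sum_apply, Pi.smul_apply, smul_eq_mul]
  refine Finset.sum_congr rfl fun k _ => ?_
  simp only [Matrix.of_apply]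
  rw [mul_comm]

private theorem restrict_dim {r : ℕ} {ι : Type} [Fintype ι] [DecidableEq ι]
    (C : Matrix (Fin r) ι ℂ) :
    Fintype.card ι ≤ finrank ℂ (LinearMap.ker C.mulVecLin) + r := by
  have h1 := LinearMap.finrank_range_add_finrank_ker C.mulVecLin
  have h2 : finrank ℂ (LinearMap.range C.mulVecLin) ≤ r := by
    have h3 := Submodule.finrank_le (LinearMap.range C.mulVecLin)
    rwa [finrank_fin_fun] at h3
  rw [finrank_fintype_fun_eq_card] at h1
  omega

/-- PROOF. `R = B * C` with `B : ι × Fin r`, `C : Fin r × ι`, `r = R.rank` (rank factorisation: `B` the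
columns of a basis of the range, or `Matrix.rank` API). `V = ker C`, `Y = ker Bᵀ`. Apply the derivation
`D p` of `exists_deriv` to all entries of `∑ z p • L p = B * C + S`: `L p = (D B) * C + B * (D C) + D S`
(rational numbers have derivative `0`). `c p a b = D p (S a b)`. -/
theorem restrict {P ι : Type} [Fintype P] [Fintype ι] [DecidableEq P] [DecidableEq ι]
    (L : P → Matrix ι ι ℚ) (z : P → ℂ) (hz : AlgebraicIndependent ℚ z) (R S : Matrix ι ι ℂ)
    (h : ∑ p, z p • (L p).map (algebraMap ℚ ℂ) = R + S) :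
    ∃ V Y : Submodule ℂ (ι → ℂ), Fintype.card ι ≤ finrank ℂ V + R.rank ∧
      Fintype.card ι ≤ finrank ℂ Y + R.rank ∧ ∃ c : P → ι → ι → ℂ,
      (∀ p a b, S a b = 0 → c p a b = 0) ∧ ∀ p, ∀ x ∈ V, ∀ y ∈ Y,
        ∑ a, ∑ b, ((L p a b : ℚ) : ℂ) * x b * y a = ∑ a, ∑ b, c p a b * x b * y a := by
  obtain ⟨B, C, hBC⟩ := restrict_factor R
  refine ⟨LinearMap.ker C.mulVecLin, LinearMap.ker Bᵀ.mulVecLin, restrict_dim C,
    restrict_dim Bᵀ, ?_⟩
  choose D hD1 hD2 using fun p => exists_deriv hz p
  refine ⟨fun p a b => D p (S a b), ?_, ?_⟩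
  · intro p a b h0
    change D p (S a b) = 0
    rw [h0, map_zero]
  · intro p x hx y hy
    have hx' : ∀ k, ∑ b, C k b * x b = 0 := fun k => congrFun (LinearMap.mem_ker.mp hx) k
    have hy' : ∀ k, ∑ a, B a k * y a = 0 := fun k => congrFun (LinearMap.mem_ker.mp hy) k
    have h1 : ∀ a b, ((L p a b : ℚ) : ℂ) =
        ∑ k, (D p (B a k) * C k b + B a k * D p (C k b)) + D p (S a b) := by
      intro a b
      have h2 := congrArg (D p) (congrFun (congrFun h a) b)
      have h3 : D p ((∑ q, z q • (L q).map (algebraMap ℚ ℂ)) a b) = ((L p a b : ℚ) : ℂ) := by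
        rw [Matrix.sum_apply, map_sum, Finset.sum_eq_single p]
        · rw [Matrix.smul_apply, Matrix.map_apply, smul_eq_mul, Derivation.leibniz,
            Derivation.map_algebraMap, hD1]
          simp
        · intro q _ hq
          rw [Matrix.smul_apply, Matrix.map_apply, smul_eq_mul, Derivation.leibniz,
            Derivation.map_algebraMap, hD2 p q hq]
          simp
        · intro h4
          exact absurd (Finset.mem_univ p) h4
      rw [h3, Matrix.add_apply, map_add, hBC, Matrix.mul_apply, map_sum] at h2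
      rw [h2]
      congr 1
      refine Finset.sum_congr rfl fun k _ => ?_
      rw [Derivation.leibniz, smul_eq_mul, smul_eq_mul]
      ring
    have h5 : ∑ a, ∑ b, (∑ k, (D p (B a k) * C k b + B a k * D p (C k b))) * x b * y a = 0 := by
      have h6 : ∀ a b, (∑ k, (D p (B a k) * C k b + B a k * D p (C k b))) * x b * y a =
          ∑ k, ((D p (B a k) * y a) * (C k b * x b) + (B a k * y a) * (D p (C k b) * x b)) := by
        intro a b
        rw [Finset.sum_mul, Finset.sum_mul]
        refine Finset.sum_congr rfl fun k _ => ?_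
        ring
      have h7 : ∀ a, ∑ b, ∑ k, ((D p (B a k) * y a) * (C k b * x b) +
          (B a k * y a) * (D p (C k b) * x b)) =
          ∑ k, ((B a k * y a) * ∑ b, (D p (C k b) * x b)) := by
        intro a
        rw [Finset.sum_comm]
        refine Finset.sum_congr rfl fun k _ => ?_
        rw [Finset.sum_add_distrib, ← Finset.mul_sum, hx', mul_zero, zero_add, Finset.mul_sum]
      rw [Finset.sum_congr rfl fun a _ => Finset.sum_congr rfl fun b _ => h6 a b,
        Finset.sum_congr rfl fun a _ => h7 a, Finset.sum_comm]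
      refine Finset.sum_eq_zero fun k _ => ?_
      rw [← Finset.sum_mul, hy', zero_mul]
    have h8 : ∀ a b, ((L p a b : ℚ) : ℂ) * x b * y a =
        (∑ k, (D p (B a k) * C k b + B a k * D p (C k b))) * x b * y a +
          D p (S a b) * x b * y a := by
      intro a b
      rw [h1 a b]
      ring
    rw [Finset.sum_congr rfl fun a _ => Finset.sum_congr rfl fun b _ => h8 a b]
    rw [Finset.sum_congr rfl fun a _ => Finset.sum_add_distrib, Finset.sum_add_distrib, h5,
      zero_add]

end MP0775d3.Om
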