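import Pool.Agent.Lib.MP_0775d3_lc.Om.Copies

/-! Project OM: Schoenhage's inequality for direct sums, one type of sequences. -/

namespace MP0775d3.Om

private lemma tauType_prod {I : Type} [Fintype I] [DecidableEq I] {N : ℕ} (f : I → ℕ) {c : I → ℕ}
    {x : Fin N → I} (hx : ∀ i, (Finset.univ.filter fun l => x l = i).card = c i) :
    ∏ i, f i ^ c i = ∏ l, f (x l) := by
  rw [← Finset.prod_fiberwise' Finset.univ x f]
  refine Finset.prod_congr rfl fun i _ => ?_
  rw [Finset.prod_const, hx i]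

private lemma tauType_cp {I Q A B : Type} [DecidableEq I] [DecidableEq Q] [DecidableEq A]
    [DecidableEq B] {M K : I → ℕ} {N s : ℕ} (h : RkLe (powT N (dsT M K)) s)
    {x : Q → Fin N → I} (hx : Function.Injective x) (φ : ∀ q, A → ∀ l, Fin (M (x q l)))
    (hφ : ∀ q, Function.Injective (φ q)) (ψ : ∀ q, B → ∀ l, Fin (K (x q l)))
    (hψ : ∀ q, Function.Injective (ψ q)) : RkLe (cpT Q A A B) s := by
  refine (h.sub
    (fun (a : Q × A × A) l => (⟨x a.1 l, φ a.1 a.2.1 l, φ a.1 a.2.2 l⟩ : Σ i, Fin (M i) × Fin (M i)))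
    (fun (b : Q × A × B) l => (⟨x b.1 l, φ b.1 b.2.1 l, ψ b.1 b.2.2 l⟩ : Σ i, Fin (M i) × Fin (K i)))
    (fun (b : Q × A × B) l =>
      (⟨x b.1 l, φ b.1 b.2.1 l, ψ b.1 b.2.2 l⟩ : Σ i, Fin (M i) × Fin (K i)))).congr ?_
  rintro ⟨a, a1, a2⟩ ⟨b, b1, b2⟩ ⟨d, d1, d2⟩
  simp only [cpT, powT, dsT]
  rw [Finset.prod_boole]
  by_cases hh : a = b ∧ b = d ∧ a1 = d1 ∧ a2 = b1 ∧ b2 = d2
  · rw [if_pos hh]
    obtain ⟨rfl, rfl, rfl, rfl, rfl⟩ := hh
    rw [if_pos]
    exact fun l _ => ⟨rfl, rfl, rfl, rfl, rfl⟩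
  · rw [if_neg hh, if_neg]
    intro hl
    apply hh
    have e1 : a = b := hx (funext fun l => (hl l (Finset.mem_univ l)).1)
    have e2 : b = d := hx (funext fun l => (hl l (Finset.mem_univ l)).2.1)
    subst e1 e2
    exact ⟨rfl, rfl, hφ a (funext fun l => Fin.ext (hl l (Finset.mem_univ l)).2.2.1),
      hφ a (funext fun l => Fin.ext (hl l (Finset.mem_univ l)).2.2.2.1),
      hψ a (funext fun l => Fin.ext (hl l (Finset.mem_univ l)).2.2.2.2)⟩

/-- One type of sequences. -/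
theorem tau_type_aux {I : Type} [Fintype I] [DecidableEq I] (M K : I → ℕ) {N s : ℕ}
    (h : RkLe (powT N (dsT M K)) s) (c : I → ℕ) :
    ∑ x : Fin N → I, (if (∀ i, (Finset.univ.filter fun l => x l = i).card = c i) then
      ∏ l, ((M (x l) * M (x l) * K (x l) : ℕ) : ℝ) ^ (omega / 3) else 0) ≤ 2 * s := by
  have eM : ∀ x : {x : Fin N → I // ∀ i, (Finset.univ.filter fun l => x l = i).card = c i},
      Nonempty (Fin (∏ i, M i ^ c i) ≃ ∀ l, Fin (M (x.1 l))) := fun x =>
    ⟨Fintype.equivOfCardEq (by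
      rw [Fintype.card_fin, Fintype.card_pi, tauType_prod M x.2]
      simp only [Fintype.card_fin])⟩
  have eK : ∀ x : {x : Fin N → I // ∀ i, (Finset.univ.filter fun l => x l = i).card = c i},
      Nonempty (Fin (∏ i, K i ^ c i) ≃ ∀ l, Fin (K (x.1 l))) := fun x =>
    ⟨Fintype.equivOfCardEq (by
      rw [Fintype.card_fin, Fintype.card_pi, tauType_prod K x.2]
      simp only [Fintype.card_fin])⟩
  have h1 := tauType_cp h (x := Subtype.val) Subtype.val_injective
    (fun q => (eM q).some) (fun q => (eM q).some.injective)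
    (fun q => (eK q).some) (fun q => (eK q).some.injective)
  have h2 := copies h1
  rw [← Finset.sum_filter]
  refine le_trans (le_of_eq ?_) h2
  have h3 : ∀ x ∈ Finset.univ.filter
      (fun x : Fin N → I => ∀ i, (Finset.univ.filter fun l => x l = i).card = c i),
      ∏ l, ((M (x l) * M (x l) * K (x l) : ℕ) : ℝ) ^ (omega / 3) =
      ((Fintype.card (Fin (∏ i, M i ^ c i)) * Fintype.card (Fin (∏ i, M i ^ c i)) *
        Fintype.card (Fin (∏ i, K i ^ c i)) : ℕ) : ℝ) ^ (omega / 3) := by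
    intro x hx
    have hx' := (Finset.mem_filter.1 hx).2
    rw [Real.finsetProd_rpow _ _ fun l _ => Nat.cast_nonneg _, ← Nat.cast_prod,
      Finset.prod_mul_distrib, Finset.prod_mul_distrib, Fintype.card_fin, Fintype.card_fin,
      tauType_prod M hx', tauType_prod K hx']
  rw [Finset.sum_congr rfl h3, Finset.sum_const, nsmul_eq_mul, Fintype.card_subtype]

end MP0775d3.Om
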