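import Pool.Agent.Lib.MP_0775d3_lc.Om.Copies
import Pool.Agent.Lib.MP_0775d3_lc.Om.TauType

/-! Project OM: Schoenhage's inequality for direct sums. -/

namespace MP0775d3.Om

/-- One type of sequences. For `c : I → ℕ` let `Q` be the set of the sequences `x : Fin N → I` with
`#{l | x l = i} = c i` for all `i`. PROOF. For every `x` in `Q` choose bijections
`Fin (∏ i, M i ^ c i) ≃ ∀ l, Fin (M (x l))` and `Fin (∏ i, K i ^ c i) ≃ ∀ l, Fin (K (x l))` (equal
cardinalities: `Finset.prod_comp` or `Finset.prod_fiberwise`); the tensor `cpT Q (Fin _) (Fin _) (Fin _)` is the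
restriction (`RkLe.sub`) of `powT N (dsT M K)` along `(x, i, j) ↦ (l ↦ ⟨x l, i_l, j_l⟩)`. Then `copies`. -/
theorem tau_type {I : Type} [Fintype I] [DecidableEq I] (M K : I → ℕ) {N s : ℕ}
    (h : RkLe (powT N (dsT M K)) s) (c : I → ℕ) :
    ∑ x : Fin N → I, (if (∀ i, (Finset.univ.filter fun l => x l = i).card = c i) then
      ∏ l, ((M (x l) * M (x l) * K (x l) : ℕ) : ℝ) ^ (omega / 3) else 0) ≤ 2 * s := by
  exact tau_type_aux M K h c

/-- PROOF. `(∑ i, v i) ^ N = ∑ x : Fin N → I, ∏ l, v (x l)` (`Finset.sum_pow'` /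
`Fintype.piFinset`), split by the type `c : I → Fin (N + 1)` of `x`, `tau_type`. -/
theorem tau_pow {I : Type} [Fintype I] [DecidableEq I] (M K : I → ℕ) {N s : ℕ}
    (h : RkLe (powT N (dsT M K)) s) :
    (∑ i, ((M i * M i * K i : ℕ) : ℝ) ^ (omega / 3)) ^ N ≤
      ((N : ℝ) + 1) ^ Fintype.card I * (2 * s) := by
  classical
  have h1 : (∑ i, ((M i * M i * K i : ℕ) : ℝ) ^ (omega / 3)) ^ N =
      ∑ x : Fin N → I, ∏ l, ((M (x l) * M (x l) * K (x l) : ℕ) : ℝ) ^ (omega / 3) :=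
    Fintype.sum_pow (fun i => ((M i * M i * K i : ℕ) : ℝ) ^ (omega / 3)) N
  have h2 : ∀ (x : Fin N → I) (i : I),
      (Finset.univ.filter fun l => x l = i).card < N + 1 := by
    intro x i
    have h3 := Finset.card_filter_le (Finset.univ : Finset (Fin N)) fun l => x l = i
    rw [Finset.card_univ, Fintype.card_fin] at h3
    omega
  have h3 : ∀ (x : Fin N → I) (w : ℝ), ∑ c : I → Fin (N + 1),
      (if (∀ i, (Finset.univ.filter fun l => x l = i).card = (c i : ℕ)) then w else 0) = w := by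
    intro x w
    rw [Finset.sum_eq_single fun i => (⟨_, h2 x i⟩ : Fin (N + 1))]
    · exact if_pos fun i => rfl
    · intro c _ hc
      refine if_neg fun h4 => hc (funext fun i => Fin.ext ?_)
      exact (h4 i).symm
    · intro h4
      exact absurd (Finset.mem_univ _) h4
  have h4 : ∑ x : Fin N → I, ∏ l, ((M (x l) * M (x l) * K (x l) : ℕ) : ℝ) ^ (omega / 3) =
      ∑ c : I → Fin (N + 1), ∑ x : Fin N → I,
        (if (∀ i, (Finset.univ.filter fun l => x l = i).card = (c i : ℕ)) then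
          ∏ l, ((M (x l) * M (x l) * K (x l) : ℕ) : ℝ) ^ (omega / 3) else 0) := by
    rw [Finset.sum_comm]
    exact Finset.sum_congr rfl fun x _ => (h3 x _).symm
  rw [h1, h4]
  refine (Finset.sum_le_sum fun c _ => tau_type M K h fun i => (c i : ℕ)).trans (le_of_eq ?_)
  rw [Finset.sum_const, Finset.card_univ, Fintype.card_fun, Fintype.card_fin, nsmul_eq_mul]
  push_cast
  ring

/-- A power with a basis greater than `1` is not bounded by a polynomial. -/
private theorem tau_growth {r : ℝ} (hr : 1 < r) (k : ℕ) {C : ℝ} (hC : 0 < C)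
    (h : ∀ N : ℕ, r ^ N ≤ C * ((N : ℝ) + 1) ^ k) : False := by
  have h1 := tendsto_pow_const_div_const_pow_of_one_lt k hr
  have h2 : (0 : ℝ) < 1 / (C * r) := by positivity
  obtain ⟨n, hn⟩ := ((h1.eventually (gt_mem_nhds h2)).and (Filter.eventually_ge_atTop 1)).exists
  obtain ⟨N, rfl⟩ : ∃ N, n = N + 1 := ⟨n - 1, by omega⟩
  have h3 := h N
  have hr0 : (0 : ℝ) < r := by linarith
  have h4 : (0 : ℝ) < r ^ (N + 1) := by positivity
  have h5 := hn.1
  rw [div_lt_div_iff₀ h4 (by positivity), one_mul] at h5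
  push_cast at h5
  have h6 : r ^ (N + 1) = r ^ N * r := pow_succ r N
  have h7 : r ^ N * r ≤ C * ((N : ℝ) + 1) ^ k * r := mul_le_mul_of_nonneg_right h3 hr0.le
  have h8 : ((N : ℝ) + 1) ^ k * (C * r) = C * ((N : ℝ) + 1) ^ k * r := by ring
  linarith

/-- PROOF. Put `V = ∑ i, (..) ^ (omega / 3)`: `V ^ N ≤ 2 (N + 1) ^ |I| (D N + 1) s ^ N` for all `N`; if `s < V`
then `(V / s) ^ N` (or, for `s = 0`, `N = 1`) grows exponentially, a contradiction. -/
theorem tau {I : Type} [Fintype I] [DecidableEq I] (M K : I → ℕ) (s D : ℕ)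
    (h : ∀ N : ℕ, RkLe (powT N (dsT M K)) ((D * N + 1) * s ^ N)) :
    ∑ i, ((M i * M i * K i : ℕ) : ℝ) ^ (omega / 3) ≤ s := by
  obtain ⟨V, hV⟩ : ∃ V, V = ∑ i, ((M i * M i * K i : ℕ) : ℝ) ^ (omega / 3) := ⟨_, rfl⟩
  rw [← hV]
  have h1 : ∀ N : ℕ, V ^ N ≤ ((N : ℝ) + 1) ^ Fintype.card I * (2 * ((D * N + 1) * s ^ N)) := by
    intro N
    have h2 := tau_pow M K (h N)
    rw [← hV] at h2
    push_cast at h2
    exact h2
  rcases Nat.eq_zero_or_pos s with hs | hs
  · have h2 := h1 1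
    rw [hs] at h2
    rw [hs]
    simpa using h2
  · by_contra hcon
    have hcon' : (s : ℝ) < V := not_le.1 hcon
    have hs0 : (0 : ℝ) < s := by exact_mod_cast hs
    have hr : 1 < V / s := by rwa [one_lt_div hs0]
    refine tau_growth hr (Fintype.card I + 1) (C := 2 * (D + 1)) (by positivity) fun N => ?_
    have h2 := h1 N
    rw [div_pow, div_le_iff₀ (by positivity)]
    refine h2.trans ?_
    have h3 : (D : ℝ) * N + 1 ≤ (D + 1) * (N + 1) := by
      have : (0 : ℝ) ≤ D := Nat.cast_nonneg _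
      have : (0 : ℝ) ≤ N := Nat.cast_nonneg _
      nlinarith
    have h4 : (0 : ℝ) ≤ ((N : ℝ) + 1) ^ Fintype.card I * (2 * (s : ℝ) ^ N) := by positivity
    calc ((N : ℝ) + 1) ^ Fintype.card I * (2 * ((D * N + 1) * (s : ℝ) ^ N)) =
          (((N : ℝ) + 1) ^ Fintype.card I * (2 * (s : ℝ) ^ N)) * (D * N + 1) := by ring
      _ ≤ (((N : ℝ) + 1) ^ Fintype.card I * (2 * (s : ℝ) ^ N)) * ((D + 1) * (N + 1)) :=
          mul_le_mul_of_nonneg_left h3 h4
      _ = 2 * (D + 1) * ((N : ℝ) + 1) ^ (Fintype.card I + 1) * (s : ℝ) ^ N := by ring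

end MP0775d3.Om
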