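import Pool.Agent.Lib.MP_0775d3_lc.Om.LA
import Pool.Agent.Lib.MP_0775d3_lc.Om.Filter
import Pool.Agent.Lib.MP_0775d3_lc.Om.Tau
import Pool.Agent.Lib.MP_0775d3_lc.Om.Restrict

/-! Project OM: the general lower bound. -/

namespace MP0775d3.Om

open Module Matrix

private theorem low_finrank {I : Type} [Fintype I] (d : I → ℕ) :
    finrank ℂ (∀ κ : (Σ i, Fin (d i)), Fin (d κ.1) → ℂ) = ∑ i, d i * d i := by
  rw [Module.finrank_pi_fintype]
  simp only [Module.finrank_fin_fun]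
  rw [Fintype.sum_sigma]
  refine Finset.sum_congr rfl fun i _ => ?_
  simp

private theorem low_comap {I ι : Type} [Fintype I] [Fintype ι] (d : I → ℕ)
    (g : (∀ κ : (Σ i, Fin (d i)), Fin (d κ.1) → ℂ) →ₗ[ℂ] (ι → ℂ)) (W : Submodule ℂ (ι → ℂ)) (r : ℕ)
    (h : Fintype.card ι ≤ finrank ℂ W + r) :
    ∑ i, d i * d i ≤ finrank ℂ (W.comap g) + r := by
  have h1 := LinearMap.finrank_range_add_finrank_ker (W.mkQ.comp g)
  rw [LinearMap.ker_comp, Submodule.ker_mkQ, low_finrank] at h1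
  have h2 := Submodule.finrank_quotient_add_finrank W
  rw [Module.finrank_fintype_fun_eq_card] at h2
  have h3 := Submodule.finrank_le (LinearMap.range (W.mkQ.comp g))
  omega

private theorem low_rk {P ι I : Type} [Fintype P] [Fintype ι] [Fintype I] (d : I → ℕ)
    (L : P → Matrix ι ι ℚ) (S : Matrix ι ι ℂ)
    (α : (∀ i, Matrix (Fin (d i)) (Fin (d i)) ℂ) →ₗ[ℂ] (P → ℂ))
    (β β' : (∀ κ : (Σ i, Fin (d i)), Fin (d κ.1) → ℂ) →ₗ[ℂ] (ι → ℂ))
    (hab : ∀ A X Y, ∑ p, α A p * ∑ a, ∑ b, ((L p a b : ℚ) : ℂ) * β X b * β' Y a = form d A X Y)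
    (V Y : Submodule ℂ (ι → ℂ)) (c : P → ι → ι → ℂ) (hc0 : ∀ p a b, S a b = 0 → c p a b = 0)
    (hc : ∀ p, ∀ x ∈ V, ∀ y ∈ Y,
        ∑ a, ∑ b, ((L p a b : ℚ) : ℂ) * x b * y a = ∑ a, ∑ b, c p a b * x b * y a)
    {A B C : Type} (Al : A → ∀ i, Matrix (Fin (d i)) (Fin (d i)) ℂ)
    (Xl : B → ∀ κ : (Σ i, Fin (d i)), Fin (d κ.1) → ℂ)
    (Yl : C → ∀ κ : (Σ i, Fin (d i)), Fin (d κ.1) → ℂ)
    (hX : ∀ b, Xl b ∈ V.comap β) (hY : ∀ c, Yl c ∈ Y.comap β') :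
    RkLe (fun a b c => form d (Al a) (Xl b) (Yl c))
      ({p | S p.1 p.2 ≠ 0} : Set (ι × ι)).ncard := by
  classical
  set F : Finset (ι × ι) := Finset.univ.filter fun p => S p.1 p.2 ≠ 0 with hF
  have hcard : ({p | S p.1 p.2 ≠ 0} : Set (ι × ι)).ncard = F.card := by
    rw [← Set.ncard_coe_finset]
    congr 1
    ext p
    simp [hF]
  rw [hcard]
  refine ⟨fun i a => ∑ p, α (Al a) p * c p (F.equivFin.symm i).1.1 (F.equivFin.symm i).1.2,
    fun i b => β (Xl b) (F.equivFin.symm i).1.2, fun i c' => β' (Yl c') (F.equivFin.symm i).1.1,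
    fun a b c' => ?_⟩
  have h1 : form d (Al a) (Xl b) (Yl c') = ∑ x ∈ F, (∑ p, α (Al a) p * c p x.1 x.2) *
      β (Xl b) x.2 * β' (Yl c') x.1 := by
    rw [← hab]
    have h2 : ∀ p, ∑ a', ∑ b', ((L p a' b' : ℚ) : ℂ) * β (Xl b) b' * β' (Yl c') a' =
        ∑ a', ∑ b', c p a' b' * β (Xl b) b' * β' (Yl c') a' := fun p =>
      hc p _ (hX b) _ (hY c')
    simp only [h2]
    have h3 : ∑ x ∈ F, (∑ p, α (Al a) p * c p x.1 x.2) * β (Xl b) x.2 * β' (Yl c') x.1 =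
        ∑ x : ι × ι, (∑ p, α (Al a) p * c p x.1 x.2) * β (Xl b) x.2 * β' (Yl c') x.1 := by
      rw [hF, Finset.sum_filter]
      refine Finset.sum_congr rfl fun x _ => ?_
      split_ifs with hx
      · rfl
      · rw [not_not] at hx
        have h4 : ∑ p, α (Al a) p * c p x.1 x.2 = 0 :=
          Finset.sum_eq_zero fun p _ => by rw [hc0 p _ _ hx, mul_zero]
        rw [h4, zero_mul, zero_mul]
    rw [h3, Fintype.sum_prod_type]
    simp only [Finset.sum_mul, Finset.mul_sum]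
    rw [Finset.sum_comm]
    refine Finset.sum_congr rfl fun a' _ => ?_
    rw [Finset.sum_comm]
    refine Finset.sum_congr rfl fun b' _ => Finset.sum_congr rfl fun p _ => ?_
    ring
  refine h1.trans ?_
  rw [← Finset.sum_coe_sort F]
  exact (Equiv.sum_comp F.equivFin.symm fun x : F => (∑ p, α (Al a) p * c p x.1.1 x.1.2) *
      β (Xl b) x.1.2 * β' (Yl c') x.1.1).symm

/-- PROOF. `V`, `Y`, `c` from `restrict`; `V' = V.comap β`, `Y' = Y.comap β'` have codimension at most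
`R.rank` (`Submodule.finrank_comap_...`, or: `finrank (comap) + R.rank ≥` the dimension, by rank-nullity for the
composite with the quotient map). `lifts` gives `K`, `Al`, `Xl`, `Yl`, `w`, `D`. The tensor
`(a, b, c) ↦ form d (Al a) (Xl b) (Yl c) = ∑ p, α (Al a) p * ∑ (x, y) in the support of S, c p x y * ..`
`= ∑ (x, y) ∈ supp S, (∑ p, α (Al a) p * c p x y) * (β (Xl b)) y * (β' (Yl c)) x` has `RkLe` with the number
of nonzeros of `S`. Then `filter`, `tau`. -/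
theorem low {P ι I : Type} [Fintype P] [Fintype ι] [DecidableEq P] [DecidableEq ι] [Fintype I]
    [DecidableEq I] (d : I → ℕ) (L : P → Matrix ι ι ℚ) (z : P → ℂ)
    (hz : AlgebraicIndependent ℚ z) (R S : Matrix ι ι ℂ)
    (h : ∑ p, z p • (L p).map (algebraMap ℚ ℂ) = R + S)
    (α : (∀ i, Matrix (Fin (d i)) (Fin (d i)) ℂ) →ₗ[ℂ] (P → ℂ))
    (β β' : (∀ κ : (Σ i, Fin (d i)), Fin (d κ.1) → ℂ) →ₗ[ℂ] (ι → ℂ))
    (hab : ∀ A X Y, ∑ p, α A p * ∑ a, ∑ b, ((L p a b : ℚ) : ℂ) * β X b * β' Y a = form d A X Y) :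
    ∃ K : I → ℕ, (∀ i, K i ≤ d i) ∧ ∑ i, d i * d i ≤ ∑ i, d i * K i + 4 * R.rank ∧
      ∑ i, (((d i + 1) / 2 * ((d i + 1) / 2) * K i : ℕ) : ℝ) ^ (omega / 3) ≤
        (({p | S p.1 p.2 ≠ 0} : Set (ι × ι)).ncard : ℝ) := by
  obtain ⟨V, Y, hV, hY, c, hc0, hc⟩ := restrict L z hz R S h
  obtain ⟨K, hK, hsum, Al, Xl, Yl, w, D, hw, hX, hY', h0, h1⟩ := lifts d (V.comap β) (Y.comap β')
    R.rank (low_comap d β V R.rank hV) (low_comap d β' Y R.rank hY)
  refine ⟨K, hK, hsum, tau (fun i => (d i + 1) / 2) K _ D fun N => ?_⟩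
  have h2 := filter _ w w D hw hw h0 (low_rk d L S α β β' hab V Y c hc0 hc Al Xl Yl hX hY') N
  have h3 : (fun a b c => if w b = w c then form d (Al a) (Xl b) (Yl c) else 0) =
      dsT (fun i => (d i + 1) / 2) K := by
    funext a b c
    exact h1 a b c
  rwa [h3] at h2

/-- One block of the sum. PROOF. `((d + 1) / 2) ^ 2 * K ≥ d ^ 2 * K / 4`, `omega / 3 ≤ 1`, `K ≤ d`:
`(d ^ 2 * K / 4) ^ (omega / 3) ≥ (1 / 4) * d ^ (2 * omega / 3) * K * d ^ (omega / 3 - 1) =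
(1 / 4) * d ^ (omega - 2) * (d * K)`; `K = 0` or `d = 0`: trivial. Then `e ≤ d`, `omega ≥ 2`. -/
theorem block_bound {d K : ℕ} (hK : K ≤ d) {e : ℝ} (he : 0 ≤ e) (hed : e ≤ d) :
    e ^ (omega - 2) * ((d * K : ℕ) : ℝ) / 4 ≤
      (((d + 1) / 2 * ((d + 1) / 2) * K : ℕ) : ℝ) ^ (omega / 3) := by
  have hw2 := two_le_omega
  have hw3 := omega_le_three
  rcases Nat.eq_zero_or_pos K with hK0 | hK0
  · subst hK0
    rw [mul_zero, Nat.cast_zero, mul_zero, zero_div]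
    exact Real.rpow_nonneg (Nat.cast_nonneg _) _
  · have hd0 : 0 < d := lt_of_lt_of_le hK0 hK
    have hdr : (0 : ℝ) < d := by exact_mod_cast hd0
    have hKr : (0 : ℝ) < K := by exact_mod_cast hK0
    have hKd : (K : ℝ) ≤ d := by exact_mod_cast hK
    obtain ⟨m, hm⟩ : ∃ m, m = (d + 1) / 2 := ⟨_, rfl⟩
    have hm2 : (d : ℝ) / 2 ≤ m := by
      have h1 : d ≤ 2 * m := by omega
      have h2 : (d : ℝ) ≤ 2 * m := by exact_mod_cast h1
      linarith
    rw [← hm]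
    have h1 : (d : ℝ) ^ 2 / 4 * K ≤ ((m * m * K : ℕ) : ℝ) := by
      push_cast
      refine mul_le_mul_of_nonneg_right ?_ hKr.le
      have h2 : (d : ℝ) / 2 * ((d : ℝ) / 2) ≤ (m : ℝ) * m :=
        mul_le_mul hm2 hm2 (by positivity) (by linarith [half_pos hdr])
      linarith
    have h3 : ((d : ℝ) ^ 2 / 4 * K) ^ (omega / 3) ≤ ((m * m * K : ℕ) : ℝ) ^ (omega / 3) :=
      Real.rpow_le_rpow (by positivity) h1 (by linarith)
    refine le_trans ?_ h3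
    have h4 : ((d : ℝ) ^ 2 / 4 * K) ^ (omega / 3) =
        (1 / 4 : ℝ) ^ (omega / 3) * ((d : ℝ) ^ 2) ^ (omega / 3) * (K : ℝ) ^ (omega / 3) := by
      rw [← Real.mul_rpow (by positivity) (by positivity),
        ← Real.mul_rpow (by positivity) (by positivity)]
      congr 1
      ring
    have h5 : (1 / 4 : ℝ) ≤ (1 / 4 : ℝ) ^ (omega / 3) := by
      have h6 := Real.rpow_le_rpow_of_exponent_ge (x := (1 / 4 : ℝ)) (by norm_num) (by norm_num)
        (show omega / 3 ≤ 1 by linarith)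
      rwa [Real.rpow_one] at h6
    have h7 : ((d : ℝ) ^ 2) ^ (omega / 3) = (d : ℝ) ^ (2 * (omega / 3)) := by
      rw [Real.rpow_mul hdr.le, Real.rpow_two]
    have h8 : (K : ℝ) * (d : ℝ) ^ (omega / 3 - 1) ≤ (K : ℝ) ^ (omega / 3) := by
      have h9 : (d : ℝ) ^ (omega / 3 - 1) ≤ (K : ℝ) ^ (omega / 3 - 1) :=
        Real.rpow_le_rpow_of_nonpos hKr hKd (by linarith)
      have h10 : (K : ℝ) ^ (omega / 3) = K * (K : ℝ) ^ (omega / 3 - 1) := by
        have h11 := Real.rpow_add hKr 1 (omega / 3 - 1)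
        rw [Real.rpow_one] at h11
        rw [← h11]
        congr 1
        ring
      rw [h10]
      exact mul_le_mul_of_nonneg_left h9 hKr.le
    have h12 : e ^ (omega - 2) ≤ (d : ℝ) ^ (omega - 2) :=
      Real.rpow_le_rpow he hed (by linarith)
    have h13 : (d : ℝ) ^ (2 * (omega / 3)) * ((K : ℝ) * (d : ℝ) ^ (omega / 3 - 1)) =
        (d : ℝ) ^ (omega - 2) * (d * K) := by
      have h14 : (d : ℝ) ^ (2 * (omega / 3)) * (d : ℝ) ^ (omega / 3 - 1) =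
          (d : ℝ) ^ (omega - 2) * d := by
        have h15 := Real.rpow_add hdr (2 * (omega / 3)) (omega / 3 - 1)
        have h16 := Real.rpow_add hdr (omega - 2) 1
        rw [Real.rpow_one] at h16
        rw [← h15, ← h16]
        congr 1
        ring
      calc (d : ℝ) ^ (2 * (omega / 3)) * ((K : ℝ) * (d : ℝ) ^ (omega / 3 - 1)) =
            K * ((d : ℝ) ^ (2 * (omega / 3)) * (d : ℝ) ^ (omega / 3 - 1)) := by ring
        _ = (d : ℝ) ^ (omega - 2) * (d * K) := by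
            rw [h14]
            ring
    rw [h4, h7]
    have h17 : (0 : ℝ) ≤ (d : ℝ) ^ (2 * (omega / 3)) := Real.rpow_nonneg hdr.le _
    have h18 : (0 : ℝ) ≤ (K : ℝ) ^ (omega / 3) := Real.rpow_nonneg hKr.le _
    push_cast
    calc e ^ (omega - 2) * ((d : ℝ) * K) / 4 ≤ (d : ℝ) ^ (omega - 2) * (d * K) / 4 := by
          have := mul_le_mul_of_nonneg_right h12 (by positivity : (0 : ℝ) ≤ (d : ℝ) * K)
          linarith
      _ = 1 / 4 * ((d : ℝ) ^ (2 * (omega / 3)) * ((K : ℝ) * (d : ℝ) ^ (omega / 3 - 1))) := by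
          rw [h13]
          ring
      _ ≤ 1 / 4 * ((d : ℝ) ^ (2 * (omega / 3)) * (K : ℝ) ^ (omega / 3)) := by
          have := mul_le_mul_of_nonneg_left h8 h17
          linarith
      _ ≤ (1 / 4 : ℝ) ^ (omega / 3) * ((d : ℝ) ^ (2 * (omega / 3)) * (K : ℝ) ^ (omega / 3)) :=
          mul_le_mul_of_nonneg_right h5 (mul_nonneg h17 h18)
      _ = (1 / 4 : ℝ) ^ (omega / 3) * (d : ℝ) ^ (2 * (omega / 3)) * (K : ℝ) ^ (omega / 3) := by
          ring

/-- PROOF. `low`, `block_bound` for the `i` with `e ≤ d i`: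
`∑ (e ≤ d i), d i * K i ≥ ∑ (e ≤ d i), d i * d i - 4 R.rank`. -/
theorem low_mass {P ι I : Type} [Fintype P] [Fintype ι] [DecidableEq P] [DecidableEq ι]
    [Fintype I] [DecidableEq I] (d : I → ℕ) (L : P → Matrix ι ι ℚ) (z : P → ℂ)
    (hz : AlgebraicIndependent ℚ z) (R S : Matrix ι ι ℂ)
    (h : ∑ p, z p • (L p).map (algebraMap ℚ ℂ) = R + S)
    (α : (∀ i, Matrix (Fin (d i)) (Fin (d i)) ℂ) →ₗ[ℂ] (P → ℂ))
    (β β' : (∀ κ : (Σ i, Fin (d i)), Fin (d κ.1) → ℂ) →ₗ[ℂ] (ι → ℂ))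
    (hab : ∀ A X Y, ∑ p, α A p * ∑ a, ∑ b, ((L p a b : ℚ) : ℂ) * β X b * β' Y a = form d A X Y)
    (e : ℝ) (he : 0 ≤ e) :
    e ^ (omega - 2) * ((∑ i, if e ≤ d i then ((d i * d i : ℕ) : ℝ) else 0) - 4 * R.rank) / 4 ≤
      (({p | S p.1 p.2 ≠ 0} : Set (ι × ι)).ncard : ℝ) := by
  obtain ⟨K, hK, hsum, hlow⟩ := low d L z hz R S h α β β' hab
  refine le_trans ?_ hlow
  have h1 : ∑ i, (if e ≤ d i then e ^ (omega - 2) * ((d i * K i : ℕ) : ℝ) / 4 else 0) ≤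
      ∑ i, (((d i + 1) / 2 * ((d i + 1) / 2) * K i : ℕ) : ℝ) ^ (omega / 3) := by
    refine Finset.sum_le_sum fun i _ => ?_
    split_ifs with hi
    · exact block_bound (hK i) he hi
    · exact Real.rpow_nonneg (Nat.cast_nonneg _) _
  refine le_trans ?_ h1
  have h2 : ∑ i, (if e ≤ d i then e ^ (omega - 2) * ((d i * K i : ℕ) : ℝ) / 4 else 0) =
      e ^ (omega - 2) * (∑ i, if e ≤ d i then ((d i * K i : ℕ) : ℝ) else 0) / 4 := by
    rw [Finset.mul_sum, Finset.sum_div]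
    refine Finset.sum_congr rfl fun i _ => ?_
    split_ifs
    · rfl
    · rw [mul_zero, zero_div]
  rw [h2]
  have h3 : (∑ i, if e ≤ d i then ((d i * d i : ℕ) : ℝ) else 0) - 4 * R.rank ≤
      ∑ i, if e ≤ d i then ((d i * K i : ℕ) : ℝ) else 0 := by
    have h4 : (∑ i, ((d i * d i : ℕ) : ℝ)) ≤ (∑ i, ((d i * K i : ℕ) : ℝ)) + 4 * R.rank := by
      exact_mod_cast hsum
    have h5 : (∑ i, if e ≤ d i then ((d i * d i : ℕ) : ℝ) else 0) -
        (∑ i, if e ≤ d i then ((d i * K i : ℕ) : ℝ) else 0) ≤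
        (∑ i, ((d i * d i : ℕ) : ℝ)) - ∑ i, ((d i * K i : ℕ) : ℝ) := by
      rw [← Finset.sum_sub_distrib, ← Finset.sum_sub_distrib]
      refine Finset.sum_le_sum fun i _ => ?_
      have h6 : ((d i * K i : ℕ) : ℝ) ≤ ((d i * d i : ℕ) : ℝ) := by
        exact_mod_cast Nat.mul_le_mul_left (d i) (hK i)
      split_ifs
      · exact le_rfl
      · linarith
    linarith
  have h7 : (0 : ℝ) ≤ e ^ (omega - 2) := Real.rpow_nonneg he _
  have h8 := mul_le_mul_of_nonneg_left h3 h7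
  linarith

end MP0775d3.Om
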