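import Pool.Agent.Lib.MP_0775d3_lc.Om.RankA

/-! Project OM: elementary facts on the exponent of matrix multiplication. -/

namespace MP0775d3.Om

/-- PROOF. `Nat.sInf_mem` (nonempty by `rkLe_card`) and `RkLe.mono`. -/
theorem rkLe_mmRank (n : ℕ) : RkLe (mmT (Fin n) (Fin n) (Fin n)) (mmRank n) :=
  Nat.sInf_mem (s := {s | RkLe (mmT (Fin n) (Fin n) (Fin n)) s}) ⟨_, rkLe_card _⟩

theorem mmRank_le {n s : ℕ} (h : RkLe (mmT (Fin n) (Fin n) (Fin n)) s) : mmRank n ≤ s :=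
  Nat.sInf_le h

/-- The product of matrix multiplication tensors, over arbitrary index types. PROOF. `RkLe.kron`,
`RkLe.sub`. -/
theorem mmT_kron {I J K I' J' K' : Type} [DecidableEq I] [DecidableEq J] [DecidableEq K]
    [DecidableEq I'] [DecidableEq J'] [DecidableEq K'] {s s' : ℕ} (h : RkLe (mmT I J K) s)
    (h' : RkLe (mmT I' J' K') s') : RkLe (mmT (I × I') (J × J') (K × K')) (s * s') := by
  refine ((h.kron h').sub (fun a : (I × I') × (J × J') => ((a.1.1, a.2.1), (a.1.2, a.2.2)))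
    (fun a : (J × J') × (K × K') => ((a.1.1, a.2.1), (a.1.2, a.2.2)))
    (fun a : (I × I') × (K × K') => ((a.1.1, a.2.1), (a.1.2, a.2.2)))).congr ?_
  rintro ⟨⟨a, a'⟩, ⟨b, b'⟩⟩ ⟨⟨c, c'⟩, ⟨d, d'⟩⟩ ⟨⟨e, e'⟩, ⟨f, f'⟩⟩
  simp only [mmT, Prod.mk.injEq, mul_ite, mul_one, mul_zero, ← ite_and]
  congr 1
  apply propext
  tauto

/-- Smaller formats. PROOF. `RkLe.sub` with the embeddings. -/
theorem mmT_of_card_le {I J K I' J' K' : Type} [DecidableEq I] [DecidableEq J] [DecidableEq K]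
    [DecidableEq I'] [DecidableEq J'] [DecidableEq K'] [Fintype I] [Fintype J] [Fintype K]
    [Fintype I'] [Fintype J'] [Fintype K'] {s : ℕ} (h : RkLe (mmT I J K) s)
    (h1 : Fintype.card I' ≤ Fintype.card I) (h2 : Fintype.card J' ≤ Fintype.card J)
    (h3 : Fintype.card K' ≤ Fintype.card K) : RkLe (mmT I' J' K') s := by
  obtain ⟨e⟩ := Function.Embedding.nonempty_of_card_le h1
  obtain ⟨f⟩ := Function.Embedding.nonempty_of_card_le h2
  obtain ⟨g⟩ := Function.Embedding.nonempty_of_card_le h3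
  refine (h.sub (fun a : I' × J' => (e a.1, f a.2)) (fun a : J' × K' => (f a.1, g a.2))
    (fun a : I' × K' => (e a.1, g a.2))).congr ?_
  intro a b c
  simp only [mmT, EmbeddingLike.apply_eq_iff_eq]

/-- Cyclic symmetry: `∑ A i j * X j k * Y i k`, with `Y` read as a `K × I` matrix.
PROOF. `RkLe.rot`, `RkLe.sub` with `Prod.swap`. -/
theorem mmT_rot {I J K : Type} [DecidableEq I] [DecidableEq J] [DecidableEq K] {s : ℕ}
    (h : RkLe (mmT I J K) s) : RkLe (mmT J K I) s := by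
  refine (h.rot.sub (fun b : J × K => b) (fun c : K × I => (c.2, c.1))
    (fun a : J × I => (a.2, a.1))).congr ?_
  intro b c a
  simp only [mmT]
  congr 1
  apply propext
  constructor
  · rintro ⟨h1, h2, h3⟩
    exact ⟨h3.symm, h1.symm, h2⟩
  · rintro ⟨h1, h2, h3⟩
    exact ⟨h2.symm, h3, h1.symm⟩

private theorem sq_le_omegaA {n s : ℕ} (h : RkLe (mmT (Fin n) (Fin n) (Fin n)) s) :
    n ^ 2 ≤ s := by
  have h1 := card_le_of_rkLe h (κ := Fin n × Fin n) (fun a => a) (fun b => (b.2, b.1))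
    (fun c => if c.1 = c.2 then 1 else 0) ?_
  · simpa [sq] using h1
  · intro a b
    rw [Finset.sum_eq_single (a.1, b.1)]
    · simp only [mmT]
      by_cases hab : a = b
      · subst hab
        simp
      · rw [if_neg hab]
        by_cases h1 : a.1 = b.1
        · have h2 : a.2 ≠ b.2 := fun h3 => hab (Prod.ext h1 h3)
          simp [h2]
        · simp [h1]
    · intro c _ hc
      simp only [mmT]
      rw [if_neg, zero_mul]
      rintro ⟨h1, h2, h3⟩
      exact hc (Prod.ext h1.symm h3.symm)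
    · intro h1
      exact absurd (Finset.mem_univ _) h1

private theorem rkLe_fintype_omegaA {α β γ ι : Type} [Fintype ι] {T : α → β → γ → ℂ}
    (u : ι → α → ℂ) (v : ι → β → ℂ) (w : ι → γ → ℂ)
    (h : ∀ a b c, T a b c = ∑ i, u i a * v i b * w i c) : RkLe T (Fintype.card ι) := by
  let e := (Fintype.equivFin ι).symm
  refine ⟨fun i => u (e i), fun i => v (e i), fun i => w (e i), fun a b c => ?_⟩
  rw [h]
  exact (e.sum_comp fun i => u i a * v i b * w i c).symm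

private theorem cube_omegaA (n : ℕ) : RkLe (mmT (Fin n) (Fin n) (Fin n)) (n ^ 3) := by
  have h1 : Fintype.card (Fin n × Fin n × Fin n) = n ^ 3 := by
    simp only [Fintype.card_prod, Fintype.card_fin]
    ring
  rw [← h1]
  refine rkLe_fintype_omegaA (fun t a => if a = (t.1, t.2.1) then 1 else 0)
    (fun t b => if b = (t.2.1, t.2.2) then 1 else 0)
    (fun t c => if c = (t.1, t.2.2) then 1 else 0) ?_
  intro a b c
  rw [Finset.sum_eq_single (a.1, a.2, b.2)]
  · simp only [mmT]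
    by_cases h2 : a.1 = c.1 ∧ a.2 = b.1 ∧ b.2 = c.2
    · rw [if_pos h2]
      obtain ⟨h3, h4, h5⟩ := h2
      have e1 : b = (a.2, b.2) := Prod.ext h4.symm rfl
      have e2 : c = (a.1, b.2) := Prod.ext h3.symm h5.symm
      rw [if_pos e1, if_pos e2]
      simp
    · rw [if_neg h2]
      by_cases h3 : b = (a.2, b.2)
      · have h4 : c ≠ (a.1, b.2) := by
          intro h5
          apply h2
          refine ⟨by rw [h5], ?_, by rw [h5]⟩
          exact (congrArg Prod.fst h3).symm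
        rw [if_neg h4, mul_zero]
      · rw [if_neg h3, mul_zero, zero_mul]
  · rintro ⟨i, j, k⟩ _ ht
    by_cases h3 : a = (i, j)
    · by_cases h4 : b = (j, k)
      · exfalso
        apply ht
        rw [h3, h4]
      · rw [if_neg h4, mul_zero, zero_mul]
    · rw [if_neg h3, zero_mul, zero_mul]
  · intro h2
    exact absurd (Finset.mem_univ _) h2

private theorem mmRank_cube_omegaA (n : ℕ) : (mmRank n : ℝ) ≤ 1 * (n : ℝ) ^ (3 : ℝ) := by
  have h1 := mmRank_le (cube_omegaA n)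
  rw [one_mul]
  calc (mmRank n : ℝ) ≤ ((n ^ 3 : ℕ) : ℝ) := by exact_mod_cast h1
    _ = (n : ℝ) ^ (3 : ℝ) := by
      rw [Nat.cast_pow, ← Real.rpow_natCast]
      norm_num

theorem omega_nonneg_set {τ C : ℝ} (h : ∀ n : ℕ, 0 < n → (mmRank n : ℝ) ≤ C * (n : ℝ) ^ τ) :
    2 ≤ τ := by
  by_contra hcon
  push Not at hcon
  have ht : Filter.Tendsto (fun n : ℕ => (n : ℝ) ^ (2 - τ)) Filter.atTop Filter.atTop :=
    (tendsto_rpow_atTop (by linarith)).comp tendsto_natCast_atTop_atTop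
  obtain ⟨n, h1, h2⟩ := ((ht.eventually_gt_atTop C).and (Filter.eventually_gt_atTop 0)).exists
  have h3 := h n h2
  have h4 : ((n ^ 2 : ℕ) : ℝ) ≤ mmRank n := by exact_mod_cast sq_le_omegaA (rkLe_mmRank n)
  have hn : (0 : ℝ) < n := by exact_mod_cast h2
  have h5 : ((n ^ 2 : ℕ) : ℝ) = (n : ℝ) ^ (2 - τ) * (n : ℝ) ^ τ := by
    rw [← Real.rpow_add hn, sub_add_cancel, Nat.cast_pow, ← Real.rpow_natCast]
    norm_num
  have h6 : 0 < (n : ℝ) ^ τ := Real.rpow_pos_of_pos hn τ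
  have h7 : (n : ℝ) ^ (2 - τ) * (n : ℝ) ^ τ ≤ C * (n : ℝ) ^ τ := by
    rw [← h5]
    exact h4.trans h3
  exact absurd (le_of_mul_le_mul_right h7 h6) (not_le.2 h1)

/-- PROOF. `mmRank n ≥ n ^ 2` (`card_le_of_rkLe` with `κ = Fin n × Fin n`): so all members of the set
are at least `2` (`omega_nonneg_set`); the set is nonempty (`τ = 3`, `rkLe_card`, sharper: one term
for every `(i, j, k)`). -/
theorem two_le_omega : 2 ≤ omega := by
  refine le_csInf ⟨3, 1, fun n _ => mmRank_cube_omegaA n⟩ ?_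
  rintro τ ⟨C, hC⟩
  exact omega_nonneg_set hC

private theorem omega_le_omegaA {τ : ℝ}
    (h : ∃ C : ℝ, ∀ n : ℕ, 0 < n → (mmRank n : ℝ) ≤ C * (n : ℝ) ^ τ) : omega ≤ τ := by
  refine csInf_le ⟨2, ?_⟩ h
  rintro τ ⟨C, hC⟩
  exact omega_nonneg_set hC

theorem omega_le_three : omega ≤ 3 :=
  omega_le_omegaA ⟨1, fun n _ => mmRank_cube_omegaA n⟩

private theorem pow_omegaA {n s : ℕ} (h : RkLe (mmT (Fin n) (Fin n) (Fin n)) s) (N : ℕ) :
    RkLe (mmT (Fin (n ^ N)) (Fin (n ^ N)) (Fin (n ^ N))) (s ^ N) := by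
  induction N with
  | zero =>
    have h1 := cube_omegaA 1
    rw [one_pow] at h1
    rw [pow_zero s]
    exact mmT_of_card_le h1 (by simp) (by simp) (by simp)
  | succ N ih =>
    have h1 : Fintype.card (Fin (n ^ (N + 1))) ≤ Fintype.card (Fin (n ^ N) × Fin n) := by
      simp [pow_succ]
    rw [pow_succ s]
    exact mmT_of_card_le (mmT_kron ih h) h1 h1 h1

/-- PROOF. Suppose `s < n ^ omega`, so `n ≥ 2` (for `n = 1` use `1 ≤ s`, `card_le_of_rkLe`),
`s = n ^ τ`, `τ < omega`. For `m ≥ 1` take `N` with `n ^ (N - 1) < m ≤ n ^ N` or `m = 1`, `N = 0`: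
`mmRank m ≤ s ^ N = n ^ (N τ) ≤ (n m) ^ τ` (`mmT_of_card_le`, iterated `mmT_kron`), so `τ` is a member
of the set and `omega ≤ τ`. -/
theorem pow_omega_le {n s : ℕ} (hn : 0 < n) (h : RkLe (mmT (Fin n) (Fin n) (Fin n)) s) :
    (n : ℝ) ^ omega ≤ s := by
  have hsq := sq_le_omegaA h
  have hs1 : 1 ≤ s := le_trans (Nat.one_le_pow 2 n hn) hsq
  have hs : (1 : ℝ) ≤ s := by exact_mod_cast hs1
  rcases Nat.lt_or_ge 1 n with h2 | h2
  swap
  · have h3 : n = 1 := by omega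
    rw [h3, Nat.cast_one, Real.one_rpow]
    exact hs
  by_contra hcon
  push Not at hcon
  have hn1 : (1 : ℝ) < n := by exact_mod_cast h2
  have hn0 : (0 : ℝ) < n := by linarith
  have hs0 : (0 : ℝ) < s := by linarith
  set τ := Real.logb n s with hτ
  have h3 : (n : ℝ) ^ τ = s := Real.rpow_logb hn0 (ne_of_gt hn1) hs0
  have hτ0 : 0 ≤ τ := Real.logb_nonneg hn1 hs
  have h4 : τ < omega := by
    rw [← h3] at hcon
    exact (Real.rpow_lt_rpow_left_iff hn1).1 hcon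
  refine absurd (omega_le_omegaA (τ := τ) ⟨(n : ℝ) ^ τ, fun m hm => ?_⟩) (not_le.2 h4)
  have h5 : m ≤ n ^ Nat.clog n m := Nat.le_pow_clog h2 m
  have h6 : n ^ Nat.clog n m ≤ n * m := by
    rcases Nat.lt_or_ge 1 m with h7 | h7
    · have h8 := Nat.pow_pred_clog_lt_self h2 h7
      have h9 : 0 < Nat.clog n m := Nat.clog_pos h2 h7
      obtain ⟨c, hc⟩ : ∃ c, Nat.clog n m = c + 1 := ⟨_, (Nat.sub_add_cancel h9).symm⟩
      rw [hc, Nat.pred_succ] at h8
      rw [hc, pow_succ, mul_comm]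
      exact Nat.mul_le_mul_left n h8.le
    · have h8 : m = 1 := by omega
      rw [h8, Nat.clog_one_right, pow_zero]
      omega
  have h7 : mmRank m ≤ s ^ Nat.clog n m :=
    mmRank_le (mmT_of_card_le (pow_omegaA h (Nat.clog n m)) (by simpa using h5)
      (by simpa using h5) (by simpa using h5))
  calc (mmRank m : ℝ) ≤ ((s ^ Nat.clog n m : ℕ) : ℝ) := by exact_mod_cast h7
    _ = ((n : ℝ) ^ τ) ^ Nat.clog n m := by rw [h3, Nat.cast_pow]
    _ = ((n ^ Nat.clog n m : ℕ) : ℝ) ^ τ := by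
      rw [Nat.cast_pow, ← Real.rpow_natCast, ← Real.rpow_mul hn0.le, mul_comm,
        Real.rpow_mul hn0.le, Real.rpow_natCast]
    _ ≤ ((n * m : ℕ) : ℝ) ^ τ :=
      Real.rpow_le_rpow (Nat.cast_nonneg _) (by exact_mod_cast h6) hτ0
    _ = (n : ℝ) ^ τ * (m : ℝ) ^ τ := by
      rw [Nat.cast_mul, Real.mul_rpow hn0.le (Nat.cast_nonneg _)]

/-- PROOF. `mmT_rot` twice, `mmT_kron`, `pow_omega_le` with `n = |I| |J| |K|`, `s ^ 3`; if one of the
types is empty the left side is `0 ^ (omega / 3) = 0`. -/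
theorem rect_le {I J K : Type} [Fintype I] [Fintype J] [Fintype K] [DecidableEq I] [DecidableEq J]
    [DecidableEq K] {s : ℕ} (h : RkLe (mmT I J K) s) :
    ((Fintype.card I * Fintype.card J * Fintype.card K : ℕ) : ℝ) ^ (omega / 3) ≤ s := by
  have homega := two_le_omega
  have h1 := mmT_kron (mmT_kron h (mmT_rot h)) (mmT_rot (mmT_rot h))
  set n := Fintype.card I * Fintype.card J * Fintype.card K with hn
  have h2 : RkLe (mmT (Fin n) (Fin n) (Fin n)) (s * s * s) := by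
    refine mmT_of_card_le h1 ?_ ?_ ?_
    · simp only [Fintype.card_fin, Fintype.card_prod]
      exact hn.le
    · simp only [Fintype.card_fin, Fintype.card_prod]
      exact le_of_eq (by rw [hn]; ring)
    · simp only [Fintype.card_fin, Fintype.card_prod]
      exact le_of_eq (by rw [hn]; ring)
  rcases Nat.eq_zero_or_pos n with h3 | h3
  · rw [h3, Nat.cast_zero, Real.zero_rpow (by positivity)]
    exact Nat.cast_nonneg s
  · have h4 := pow_omega_le h3 h2
    have h5 : ((s * s * s : ℕ) : ℝ) = (s : ℝ) ^ (3 : ℝ) := by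
      push_cast
      rw [show (3 : ℝ) = ((3 : ℕ) : ℝ) by norm_num, Real.rpow_natCast]
      ring
    rw [h5] at h4
    have h6 := Real.rpow_le_rpow (by positivity) h4 (show (0 : ℝ) ≤ 1 / 3 by norm_num)
    rw [← Real.rpow_mul (Nat.cast_nonneg _), ← Real.rpow_mul (Nat.cast_nonneg _)] at h6
    rw [show (3 : ℝ) * (1 / 3) = 1 by norm_num, Real.rpow_one] at h6
    rwa [show omega / 3 = omega * (1 / 3) by ring]

/-- PROOF. Some `τ < omega + η / 2` is in the set: `mmRank k ≤ C k ^ (omega + η / 2) ≤ k ^ (omega + η)`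
for large `k`. -/
theorem exists_alg (η : ℝ) (hη : 0 < η) : ∃ k : ℕ, 2 ≤ k ∧ ∃ ρ : ℕ,
    RkLe (mmT (Fin k) (Fin k) (Fin k)) ρ ∧ (ρ : ℝ) ≤ (k : ℝ) ^ (omega + η) := by
  obtain ⟨τ, ⟨C, hC⟩, hτ⟩ := exists_lt_of_csInf_lt
    (s := {τ : ℝ | ∃ C : ℝ, ∀ n : ℕ, 0 < n → (mmRank n : ℝ) ≤ C * (n : ℝ) ^ τ})
    ⟨3, 1, fun n _ => mmRank_cube_omegaA n⟩
    (show omega < omega + η / 2 by linarith)
  have ht : Filter.Tendsto (fun n : ℕ => (n : ℝ) ^ (η / 2)) Filter.atTop Filter.atTop :=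
    (tendsto_rpow_atTop (by linarith)).comp tendsto_natCast_atTop_atTop
  obtain ⟨k, h1, h2⟩ := ((ht.eventually_ge_atTop C).and (Filter.eventually_ge_atTop 2)).exists
  have hk : (1 : ℝ) ≤ k := by
    have : 1 ≤ k := by omega
    exact_mod_cast this
  have hk0 : (0 : ℝ) < k := by linarith
  refine ⟨k, h2, mmRank k, rkLe_mmRank k, ?_⟩
  have h3 : 0 ≤ (k : ℝ) ^ τ := (Real.rpow_pos_of_pos hk0 τ).le
  calc (mmRank k : ℝ) ≤ C * (k : ℝ) ^ τ := hC k (by omega)
    _ ≤ (k : ℝ) ^ (η / 2) * (k : ℝ) ^ τ := mul_le_mul_of_nonneg_right h1 h3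
    _ = (k : ℝ) ^ (η / 2 + τ) := (Real.rpow_add hk0 _ _).symm
    _ ≤ (k : ℝ) ^ (omega + η) := Real.rpow_le_rpow_of_exponent_le hk (by linarith)

end MP0775d3.Om
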