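import Pool.Agent.Lib.MP_0775d3_lc.Om.PowBx
import Pool.Agent.Lib.MP_0775d3_lc.Om.OmegaA

/-! Project OM: fast matrix multiplication is a box circuit. -/

namespace MP0775d3.Om

open Matrix MP0775d3.Cf

private theorem mmBx_card {k ρ : ℕ} (h : RkLe (mmT (Fin k) (Fin k) (Fin k)) ρ) : k * k ≤ ρ := by
  have h1 := card_le_of_rkLe (κ := Fin k × Fin k) h (fun a => a) (fun b => (b.2, b.1))
    (fun c => if c.1 = c.2 then 1 else 0) (by
      intro a b
      have : ∀ c : Fin k × Fin k, mmT (Fin k) (Fin k) (Fin k) a (b.2, b.1) c *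
          (if c.1 = c.2 then (1 : ℂ) else 0) = if c = (a.1, b.1) then
            (if a = b then 1 else 0) else 0 := by
        rintro ⟨c1, c2⟩
        obtain ⟨a1, a2⟩ := a
        obtain ⟨b1, b2⟩ := b
        simp only [mmT, Prod.mk.injEq]
        split_ifs <;> simp_all
      simp_rw [this]
      simp)
  simpa using h1

/-- Multiplication by a matrix indexed by `Fin m → Fin k`. PROOF. From `RkLe (mmT (Fin k) ..) ρ`,
`mmT a b c = ∑ i, u i a * v i b * w i c`: the matrix `A ⊗ 1` has the entry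
`∑ i : Fin m → Fin ρ, W (p, i) * D i * V (i, q)` at `(p, q)`, with `V (i, q) = ∏ l, v (i l) (q.1 l, q.2 l)`,
`W (p, i) = ∏ l, w (i l) (p.1 l, p.2 l)`, `D i = ∑ a, (∏ l, u (i l) (a.1 l, a.2 l)) * A a.1 a.2`: two tensor
powers (`pow_bx` with `r = max ρ (k ^ 2) = ρ`; `k ^ 2 ≤ ρ` by `card_le_of_rkLe`) and `Bx.scale`, `Bx.mul`. -/
theorem mm_pow {k ρ : ℕ} (hk : 1 ≤ k) (h : RkLe (mmT (Fin k) (Fin k) (Fin k)) ρ) (c t m : ℕ)
    (hm : m ≤ (t + 1) * c) (hc : 1 ≤ c) (A : Matrix (Fin m → Fin k) (Fin m → Fin k) ℂ) :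
    Bx ((ρ : ℝ) ^ m) ((ρ : ℝ) ^ c) (4 * t + 3)
      (Matrix.kroneckerMap (· * ·) A (1 : Matrix (Fin m → Fin k) (Fin m → Fin k) ℂ)) := by
  classical
  have hkρ := mmBx_card h
  have hρ : 1 ≤ ρ := le_trans (Nat.mul_le_mul hk hk) hkρ
  have hρR : (1 : ℝ) ≤ (ρ : ℝ) ^ c := one_le_pow₀ (by exact_mod_cast hρ)
  obtain ⟨u, v, w, huvw⟩ := h
  have hV := (pow_bx (X := Fin ρ) (Y := Fin k × Fin k) ρ hρ (by simp) (by simpa using hkρ)
    (Matrix.of fun x y => v x y) c t m hm)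
  have hW := (pow_bx (X := Fin k × Fin k) (Y := Fin ρ) ρ hρ (by simpa using hkρ) (by simp)
    (Matrix.of fun y x => w x y) c t m hm)
  let g : (Fin m → Fin k) × (Fin m → Fin k) → Fin m → Fin k × Fin k := fun q l => (q.1 l, q.2 l)
  have hg : Function.Injective g := by
    rintro ⟨a, b⟩ ⟨a', b'⟩ hab
    have h1 : ∀ l, (a l, b l) = (a' l, b' l) := fun l => congrFun hab l
    have h2 : a = a' := funext fun l => (Prod.mk.inj (h1 l)).1
    have h3 : b = b' := funext fun l => (Prod.mk.inj (h1 l)).2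
    rw [h2, h3]
  have hV1 := hV.submatrix (f := fun i => i) (g := g) (fun _ _ h => h) hg
  have hW1 := hW.submatrix (f := g) (g := fun i => i) hg (fun _ _ h => h)
  let D : (Fin m → Fin ρ) → ℂ := fun i => ∑ a : (Fin m → Fin k) × (Fin m → Fin k),
    A a.1 a.2 * ∏ l, u (i l) (a.1 l, a.2 l)
  have hV2 := hV1.scale (by omega) D (fun _ => 1)
  have hmul := hW1.mul hV2 hρR
  have e1 : 2 * t + 1 + (2 * t + 1) + 1 = 4 * t + 3 := by ring
  rw [e1] at hmul
  have key : Matrix.kroneckerMap (· * ·) A (1 : Matrix (Fin m → Fin k) (Fin m → Fin k) ℂ) =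
      ((Matrix.of fun (x : Fin m → Fin k × Fin k) (y : Fin m → Fin ρ) =>
        ∏ l, (Matrix.of fun y x => w x y) (x l) (y l)).submatrix g fun i => i) *
      (Matrix.of fun i j => D i * ((Matrix.of fun (x : Fin m → Fin ρ)
        (y : Fin m → Fin k × Fin k) => ∏ l, (Matrix.of fun x y => v x y) (x l) (y l)).submatrix
          (fun i => i) g) i j * 1) := by
    ext p q
    rw [Matrix.mul_apply]
    simp only [Matrix.kroneckerMap_apply, Matrix.submatrix_apply, Matrix.of_apply, mul_one, D, g]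
    have s1 : ∀ i : Fin m → Fin ρ, (∏ l, w (i l) (p.1 l, p.2 l)) *
        ((∑ a : (Fin m → Fin k) × (Fin m → Fin k), A a.1 a.2 * ∏ l, u (i l) (a.1 l, a.2 l)) *
          ∏ l, v (i l) (q.1 l, q.2 l)) =
        ∑ a : (Fin m → Fin k) × (Fin m → Fin k), A a.1 a.2 *
          ∏ l, (u (i l) (a.1 l, a.2 l) * v (i l) (q.1 l, q.2 l) * w (i l) (p.1 l, p.2 l)) := by
      intro i
      rw [Finset.sum_mul, Finset.mul_sum]
      refine Finset.sum_congr rfl fun a _ => ?_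
      rw [Finset.prod_mul_distrib, Finset.prod_mul_distrib]
      ring
    simp_rw [s1]
    rw [Finset.sum_comm]
    have s2 : ∀ a : (Fin m → Fin k) × (Fin m → Fin k), ∑ i : Fin m → Fin ρ, A a.1 a.2 *
          ∏ l, (u (i l) (a.1 l, a.2 l) * v (i l) (q.1 l, q.2 l) * w (i l) (p.1 l, p.2 l)) =
        if a = (p.1, q.1) then (if p.2 = q.2 then A p.1 q.1 else 0) else 0 := by
      intro a
      rw [← Finset.mul_sum]
      have s3 : ∑ i : Fin m → Fin ρ, ∏ l, (u (i l) (a.1 l, a.2 l) * v (i l) (q.1 l, q.2 l) *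
          w (i l) (p.1 l, p.2 l)) = ∏ l, ∑ j : Fin ρ, (u j (a.1 l, a.2 l) * v j (q.1 l, q.2 l) *
          w j (p.1 l, p.2 l)) := by
        rw [Finset.prod_univ_sum]
        rfl
      rw [s3]
      have s4 : ∀ l, ∑ j : Fin ρ, (u j (a.1 l, a.2 l) * v j (q.1 l, q.2 l) *
          w j (p.1 l, p.2 l)) = if a.1 l = p.1 l ∧ a.2 l = q.1 l ∧ q.2 l = p.2 l then 1 else 0 := by
        intro l
        rw [← huvw]
        rfl
      simp_rw [s4]
      rw [Finset.prod_ite_zero]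
      simp only [Finset.mem_univ, forall_true_left, Finset.prod_const_one]
      obtain ⟨a1, a2⟩ := a
      by_cases h1 : a1 = p.1
      · by_cases h2 : a2 = q.1
        · by_cases h3 : p.2 = q.2
          · subst h1 h2
            rw [if_pos (fun l => ⟨rfl, rfl, by rw [h3]⟩), if_pos rfl, if_pos h3, mul_one]
          · rw [if_neg (fun hh => h3 (funext fun l => ((hh l).2.2).symm)), mul_zero]
            split_ifs <;> rfl
        · rw [if_neg (fun hh => h2 (funext fun l => (hh l).2.1)), mul_zero,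
            if_neg (fun hh => h2 (Prod.mk.inj hh).2)]
      · rw [if_neg (fun hh => h1 (funext fun l => (hh l).1)), mul_zero,
          if_neg (fun hh => h1 (Prod.mk.inj hh).1)]
    simp_rw [s2]
    rw [Finset.sum_ite_eq' Finset.univ (p.1, q.1)]
    simp only [Finset.mem_univ, if_true]
    rw [Matrix.one_apply]
    split_ifs <;> simp
  rw [key]
  exact hmul


private theorem mmbx_one {D E : Type} [DecidableEq D] [DecidableEq E] {e : D → E}
    (he : Function.Injective e) (a b : D) :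
    (1 : Matrix E E ℂ) (e a) (e b) = (1 : Matrix D D ℂ) a b := by
  by_cases h : a = b
  · subst h
    rw [Matrix.one_apply_eq, Matrix.one_apply_eq]
  · rw [Matrix.one_apply_ne h, Matrix.one_apply_ne fun h' => h (he h')]

private theorem mmbx_pos {k ρ : ℕ} (hk : 2 ≤ k) (h : RkLe (mmT (Fin k) (Fin k) (Fin k)) ρ) :
    1 ≤ ρ := by
  rcases Nat.eq_zero_or_pos ρ with h0 | h0
  · exfalso
    subst h0
    obtain ⟨u, v, w, h1⟩ := h
    have z : Fin k := ⟨0, by omega⟩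
    have h2 := h1 (z, z) (z, z) (z, z)
    rw [Finset.univ_eq_empty, Finset.sum_empty] at h2
    have h3 : mmT (Fin k) (Fin k) (Fin k) (z, z) (z, z) (z, z) = 1 := if_pos ⟨rfl, rfl, rfl⟩
    rw [h3] at h2
    exact one_ne_zero h2
  · exact h0

private theorem mmbx_empty {ι κ : Type} [IsEmpty ι] [IsEmpty κ] {w s : ℝ} {t : ℕ} (hw : 0 ≤ w)
    (A : Matrix ι κ ℂ) : Bx w s t A := by
  refine ⟨Empty, inferInstance, inferInstance, fun _ => 0, fun i => isEmptyElim i,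
    fun i => isEmptyElim i, ?_, fun j => ?_, fun i => isEmptyElim i, fun i => isEmptyElim i, ?_⟩
  · rw [Fintype.card_empty, Nat.cast_zero]
    exact hw
  · exact ⟨Empty, id, id, fun l => l.elim, fun l => l.elim, fun i => i.elim⟩
  · ext i
    exact isEmptyElim i

/-- PROOF. `exists_alg` with a small `η'` gives `k`, `ρ ≤ k ^ (2 + η')`. For `D` nonempty take the least `m` with
`|D| ≤ k ^ m`, so `k ^ m ≤ k |D|`; extend `A` by zero along an injection `D → (Fin m → Fin k)`, `mm_pow` with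
`t = ⌈4 / δ⌉`, `c = m / (t + 1) + 1`, `Bx.submatrix`: width `ρ ^ m ≤ (k |D|) ^ (2 + η') ≤ C |D| ^ 2 N ^ η`, boxes
`ρ ^ c ≤ ρ (ρ ^ m) ^ (1 / (t + 1)) ≤ C N ^ δ`. -/
theorem mm_bx (hω : omega = 2) (δ : ℝ) (hδ : 0 < δ) : ∃ t : ℕ, 1 ≤ t ∧ ∀ η : ℝ, 0 < η →
    ∃ C : ℝ, 1 ≤ C ∧ ∀ N : ℝ, 1 ≤ N → ∀ (D : Type) [Fintype D] [DecidableEq D],
      (Fintype.card D * Fintype.card D : ℝ) ≤ N → ∀ A : Matrix D D ℂ,
        Bx (C * (Fintype.card D * Fintype.card D) * N ^ η) (C * N ^ δ) t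
          (Matrix.kroneckerMap (· * ·) A (1 : Matrix D D ℂ)) := by
  obtain ⟨t0, ht0⟩ := exists_nat_ge (4 / δ)
  refine ⟨4 * t0 + 3, by omega, fun η hη => ?_⟩
  obtain ⟨η', hη', hη1, hη2⟩ : ∃ η' : ℝ, 0 < η' ∧ η' ≤ η ∧ η' ≤ 1 :=
    ⟨min η 1, lt_min hη one_pos, min_le_left _ _, min_le_right _ _⟩
  obtain ⟨k, hk, ρ, hρ, hρk⟩ := exists_alg η' hη'
  rw [hω] at hρk
  have hρ1 : 1 ≤ ρ := mmbx_pos hk hρ
  have hρr : (1 : ℝ) ≤ ρ := by exact_mod_cast hρ1
  have hk1 : (1 : ℝ) ≤ k := by exact_mod_cast (by omega : 1 ≤ k)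
  have hk3 : (1 : ℝ) ≤ (k : ℝ) ^ (3 : ℝ) := Real.one_le_rpow hk1 (by norm_num)
  obtain ⟨C, hC⟩ : ∃ C : ℝ, C = ρ * (k : ℝ) ^ (3 : ℝ) := ⟨_, rfl⟩
  have hC1 : 1 ≤ C := by
    rw [hC]
    exact one_le_mul_of_one_le_of_one_le hρr hk3
  refine ⟨C, hC1, fun N hN D _ _ hD A => ?_⟩
  have hN0 : (0 : ℝ) < N := lt_of_lt_of_le one_pos hN
  have hNη : (1 : ℝ) ≤ N ^ η := Real.one_le_rpow hN hη.le
  have hNδ : (1 : ℝ) ≤ N ^ δ := Real.one_le_rpow hN hδ.le
  rcases isEmpty_or_nonempty D with hE | hne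
  · exact mmbx_empty (by positivity) _
  have hn1 : 1 ≤ Fintype.card D := Fintype.card_pos
  obtain ⟨n, hn⟩ : ∃ n : ℕ, n = Fintype.card D := ⟨_, rfl⟩
  rw [← hn] at hD hn1 ⊢
  have hnr : (1 : ℝ) ≤ n := by exact_mod_cast hn1
  have hnN : (n : ℝ) ≤ N := by nlinarith
  -- the least power of `k`
  have hex : ∃ m : ℕ, n ≤ k ^ m := ⟨n, (Nat.lt_pow_self (by omega : 1 < k)).le⟩
  obtain ⟨m, hm, hmin⟩ : ∃ m : ℕ, n ≤ k ^ m ∧ k ^ m ≤ k * n := by
    refine ⟨Nat.find hex, Nat.find_spec hex, ?_⟩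
    rcases Nat.eq_zero_or_pos (Nat.find hex) with h0 | h0
    · rw [h0, pow_zero]
      exact Nat.mul_pos (by omega) hn1
    · have h1 := Nat.find_min hex (Nat.sub_lt h0 one_pos)
      have h2 : k ^ (Nat.find hex - 1) ≤ n := le_of_lt (not_le.1 h1)
      calc k ^ Nat.find hex = k * k ^ (Nat.find hex - 1) := by
            rw [← pow_succ', Nat.sub_add_cancel h0]
        _ ≤ k * n := Nat.mul_le_mul_left _ h2
  have hminr : (k : ℝ) ^ m ≤ k * n := by exact_mod_cast hmin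
  obtain ⟨c, hc, hc1, hcm, hcr⟩ : ∃ c : ℕ, c = m / (t0 + 1) + 1 ∧ 1 ≤ c ∧ m ≤ (t0 + 1) * c ∧
      ((c - 1 : ℕ) : ℝ) ≤ m / (t0 + 1) := by
    refine ⟨m / (t0 + 1) + 1, rfl, Nat.le_add_left 1 _, (Nat.lt_mul_div_succ m (Nat.succ_pos t0)).le, ?_⟩
    rw [Nat.add_sub_cancel]
    have h1 := @Nat.cast_div_le ℝ _ _ _ m (t0 + 1)
    rw [Nat.cast_add, Nat.cast_one] at h1
    exact h1
  -- the embedding
  obtain ⟨e, he⟩ : ∃ e : D → (Fin m → Fin k), Function.Injective e := by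
    have h1 : Fintype.card D ≤ Fintype.card (Fin m → Fin k) := by
      rw [← hn, Fintype.card_fun, Fintype.card_fin, Fintype.card_fin]
      exact hm
    obtain ⟨f⟩ := Function.Embedding.nonempty_of_card_le h1
    exact ⟨f, f.injective⟩
  have hg : ∀ a, Function.invFun e (e a) = a := Function.leftInverse_invFun he
  have key := mm_pow (by omega : 1 ≤ k) hρ c t0 m hcm hc1
    (Matrix.of fun x y => A (Function.invFun e x) (Function.invFun e y))
  have key2 := key.submatrix (f := Prod.map e e) (g := Prod.map e e) (he.prodMap he)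
    (he.prodMap he)
  have hAe : (Matrix.kroneckerMap (· * ·) (Matrix.of fun x y => A (Function.invFun e x)
      (Function.invFun e y)) (1 : Matrix (Fin m → Fin k) (Fin m → Fin k) ℂ)).submatrix
      (Prod.map e e) (Prod.map e e) =
      Matrix.kroneckerMap (· * ·) A (1 : Matrix D D ℂ) := by
    ext ⟨a, b⟩ ⟨a', b'⟩
    show A (Function.invFun e (e a)) (Function.invFun e (e a')) *
      (1 : Matrix (Fin m → Fin k) (Fin m → Fin k) ℂ) (e b) (e b') =
      A a a' * (1 : Matrix D D ℂ) b b'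
    rw [hg, hg, mmbx_one he]
  rw [hAe] at key2
  -- the numbers
  have hkn : (0 : ℝ) ≤ (k : ℝ) * n := by positivity
  have hρm : (ρ : ℝ) ^ m ≤ ((k : ℝ) * n) ^ (2 + η') := by
    calc (ρ : ℝ) ^ m ≤ ((k : ℝ) ^ (2 + η')) ^ m :=
          pow_le_pow_left₀ (by positivity) hρk m
      _ = ((k : ℝ) ^ m) ^ (2 + η') := by
          rw [← Real.rpow_natCast, ← Real.rpow_natCast, ← Real.rpow_mul (by positivity),
            ← Real.rpow_mul (by positivity), mul_comm]
      _ ≤ ((k : ℝ) * n) ^ (2 + η') :=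
          Real.rpow_le_rpow (by positivity) hminr (by positivity)
  have hw : (ρ : ℝ) ^ m ≤ C * (n * n) * N ^ η := by
    calc (ρ : ℝ) ^ m ≤ ((k : ℝ) * n) ^ (2 + η') := hρm
      _ = (k : ℝ) ^ (2 + η') * ((n * n) * (n : ℝ) ^ η') := by
          rw [Real.mul_rpow (by positivity) (by positivity), Real.rpow_add (y := 2) (z := η')
            (lt_of_lt_of_le one_pos hnr), Real.rpow_two, pow_two]
      _ ≤ C * ((n * n) * N ^ η) := by
          refine mul_le_mul ?_ (mul_le_mul_of_nonneg_left ?_ (by positivity)) (by positivity)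
            (by positivity)
          · rw [hC]
            calc (k : ℝ) ^ (2 + η') ≤ (k : ℝ) ^ (3 : ℝ) :=
                  Real.rpow_le_rpow_of_exponent_le hk1 (by linarith)
              _ = 1 * (k : ℝ) ^ (3 : ℝ) := (one_mul _).symm
              _ ≤ ρ * (k : ℝ) ^ (3 : ℝ) := mul_le_mul_of_nonneg_right hρr (by positivity)
          · calc (n : ℝ) ^ η' ≤ N ^ η' := Real.rpow_le_rpow (by positivity) hnN hη'.le
              _ ≤ N ^ η := Real.rpow_le_rpow_of_exponent_le hN hη1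
      _ = C * (n * n) * N ^ η := (mul_assoc _ _ _).symm
  have hs : (ρ : ℝ) ^ c ≤ C * N ^ δ := by
    have ht1 : (0 : ℝ) < t0 + 1 := by positivity
    have h1 : (3 : ℝ) / (t0 + 1) ≤ δ := by
      rw [div_le_iff₀ ht1]
      rw [div_le_iff₀ hδ] at ht0
      nlinarith
    have h2 : (3 : ℝ) / (t0 + 1) ≤ 3 := by
      rw [div_le_iff₀ ht1]
      nlinarith [Nat.cast_nonneg (α := ℝ) t0]
    have h3 : (ρ : ℝ) ^ (c - 1) ≤ (k : ℝ) ^ (3 : ℝ) * N ^ δ := by
      calc (ρ : ℝ) ^ (c - 1) = (ρ : ℝ) ^ ((c - 1 : ℕ) : ℝ) := (Real.rpow_natCast _ _).symm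
        _ ≤ (ρ : ℝ) ^ ((m : ℝ) / (t0 + 1)) := Real.rpow_le_rpow_of_exponent_le hρr hcr
        _ = ((ρ : ℝ) ^ m) ^ ((1 : ℝ) / (t0 + 1)) := by
            rw [← Real.rpow_natCast, ← Real.rpow_mul (by positivity), mul_one_div]
        _ ≤ (((k : ℝ) * n) ^ (2 + η')) ^ ((1 : ℝ) / (t0 + 1)) :=
            Real.rpow_le_rpow (by positivity) hρm (by positivity)
        _ ≤ (((k : ℝ) * n) ^ (3 : ℝ)) ^ ((1 : ℝ) / (t0 + 1)) := by
            refine Real.rpow_le_rpow (by positivity) ?_ (by positivity)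
            refine Real.rpow_le_rpow_of_exponent_le ?_ (by linarith)
            exact one_le_mul_of_one_le_of_one_le hk1 hnr
        _ = (k : ℝ) ^ ((3 : ℝ) / (t0 + 1)) * (n : ℝ) ^ ((3 : ℝ) / (t0 + 1)) := by
            rw [← Real.rpow_mul (by positivity), mul_one_div,
              Real.mul_rpow (by positivity) (by positivity)]
        _ ≤ (k : ℝ) ^ (3 : ℝ) * N ^ δ := by
            refine mul_le_mul (Real.rpow_le_rpow_of_exponent_le hk1 h2) ?_ (by positivity)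
              (by positivity)
            calc (n : ℝ) ^ ((3 : ℝ) / (t0 + 1)) ≤ N ^ ((3 : ℝ) / (t0 + 1)) :=
                  Real.rpow_le_rpow (by positivity) hnN (by positivity)
              _ ≤ N ^ δ := Real.rpow_le_rpow_of_exponent_le hN h1
    calc (ρ : ℝ) ^ c = ρ * (ρ : ℝ) ^ (c - 1) := by
          rw [← pow_succ', Nat.sub_add_cancel hc1]
      _ ≤ ρ * ((k : ℝ) ^ (3 : ℝ) * N ^ δ) := mul_le_mul_of_nonneg_left h3 (by positivity)
      _ = C * N ^ δ := by rw [hC, mul_assoc]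
  exact key2.mono hw hs le_rfl (one_le_mul_of_one_le_of_one_le hC1 hNδ)

end MP0775d3.Om
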