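import Pool.Agent.Lib.MP_0775d3_lc.Om.Defs
import Pool.Agent.Lib.MP_0775d3_lc.Cf.CalcC

/-! Project OM: tensor powers are box circuits. -/

namespace MP0775d3.Om

open Matrix MP0775d3.Cf

/-- One block. -/
private theorem powBx_base {X Y : Type} [Fintype X] [Fintype Y] [DecidableEq X] [DecidableEq Y]
    (r : ℕ) (hr : 1 ≤ r) (hX : Fintype.card X ≤ r) (hY : Fintype.card Y ≤ r) (v : Matrix X Y ℂ)
    (c m : ℕ) (hm : m ≤ c) : Bx ((r : ℝ) ^ m) ((r : ℝ) ^ c) 1
      (Matrix.of fun (x : Fin m → X) (y : Fin m → Y) => ∏ l, v (x l) (y l)) := by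
  have hr1 : (1 : ℝ) ≤ r := by exact_mod_cast hr
  have h0 : ∀ (Z : Type) [Fintype Z], Fintype.card Z ≤ r →
      (Fintype.card (Fin m → Z) : ℝ) ≤ (r : ℝ) ^ m := by
    intro Z _ hZ
    rw [Fintype.card_fun, Fintype.card_fin]
    exact_mod_cast Nat.pow_le_pow_left hZ m
  have h1 : (r : ℝ) ^ m ≤ (r : ℝ) ^ c := pow_le_pow_right₀ hr1 hm
  exact bx_of_blk (blk_card ((h0 X hX).trans h1) ((h0 Y hY).trans h1) _) (one_le_pow₀ hr1)
    (h0 X hX) (h0 Y hY)

/-- PROOF. Induction on `t`: for `m ≤ c` one block (`blk_card`, `bx_of_blk`); `m = m' + c` with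
`(Fin m → X) ≃ (Fin m' → X) × (Fin c → X)` (`Fin.appendEquiv` or `Fin.append`), `Bx.kron`, `Bx.submatrix`. -/
theorem pow_bx {X Y : Type} [Fintype X] [Fintype Y] [DecidableEq X] [DecidableEq Y] (r : ℕ)
    (hr : 1 ≤ r) (hX : Fintype.card X ≤ r) (hY : Fintype.card Y ≤ r) (v : Matrix X Y ℂ) (c t : ℕ) :
    ∀ m : ℕ, m ≤ (t + 1) * c → Bx ((r : ℝ) ^ m) ((r : ℝ) ^ c) (2 * t + 1)
      (Matrix.of fun (x : Fin m → X) (y : Fin m → Y) => ∏ l, v (x l) (y l)) := by
  have hr1 : (1 : ℝ) ≤ r := by exact_mod_cast hr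
  have hs : (1 : ℝ) ≤ (r : ℝ) ^ c := one_le_pow₀ hr1
  induction t with
  | zero =>
    intro m hm
    exact powBx_base r hr hX hY v c m (by omega)
  | succ t ih =>
    intro m hm
    by_cases h : m ≤ (t + 1) * c
    · exact (ih m h).mono le_rfl le_rfl (by omega) hs
    · obtain ⟨m', rfl⟩ : ∃ m', m = m' + c := ⟨m - c, by
        have : c ≤ (t + 1) * c := Nat.le_mul_of_pos_left c (Nat.succ_pos t)
        omega⟩
      have hm' : m' ≤ (t + 1) * c := by
        have : (t + 1 + 1) * c = (t + 1) * c + c := by ring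
        omega
      have h1 := (ih m' hm').kron (powBx_base r hr hX hY v c c le_rfl) (by omega) le_rfl hs
      have hf : ∀ Z : Type, Function.Injective (fun (x : Fin (m' + c) → Z) =>
          ((fun l => x (Fin.castAdd c l), fun l => x (Fin.natAdd m' l)) :
            (Fin m' → Z) × (Fin c → Z))) := by
        intro Z x x' hx
        rw [Prod.mk.injEq] at hx
        funext l
        refine Fin.addCases (fun l => ?_) (fun l => ?_) l
        · exact congrFun hx.1 l
        · exact congrFun hx.2 l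
      have h2 := h1.submatrix (hf X) (hf Y)
      rw [← pow_add] at h2
      have e : (Matrix.of fun (x : Fin (m' + c) → X) (y : Fin (m' + c) → Y) =>
          ∏ l, v (x l) (y l)) = Matrix.submatrix (Matrix.of fun
            (p : (Fin m' → X) × (Fin c → X)) (q : (Fin m' → Y) × (Fin c → Y)) =>
            (Matrix.of fun (x : Fin m' → X) (y : Fin m' → Y) => ∏ l, v (x l) (y l)) p.1 q.1 *
            (Matrix.of fun (x : Fin c → X) (y : Fin c → Y) => ∏ l, v (x l) (y l)) p.2 q.2)
          (fun (x : Fin (m' + c) → X) =>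
          ((fun l => x (Fin.castAdd c l), fun l => x (Fin.natAdd m' l)) :
            (Fin m' → X) × (Fin c → X))) (fun (x : Fin (m' + c) → Y) =>
          ((fun l => x (Fin.castAdd c l), fun l => x (Fin.natAdd m' l)) :
            (Fin m' → Y) × (Fin c → Y))) := by
        ext x y
        simp only [Matrix.of_apply, Matrix.submatrix_apply]
        exact Fin.prod_univ_add _
      rw [e]
      exact h2

end MP0775d3.Om
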