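import Pool.Agent.Lib.MP_0775d3_lc.Om.Defs

/-! Project OM: calculus of tensor rank. -/

namespace MP0775d3.Om

section

variable {α β γ α' β' γ' : Type} {T : α → β → γ → ℂ} {T' : α' → β' → γ' → ℂ} {s s' : ℕ}

private theorem rankA_of {ι : Type} [Fintype ι] (u : ι → α → ℂ) (v : ι → β → ℂ) (w : ι → γ → ℂ)
    (h : ∀ a b c, T a b c = ∑ i, u i a * v i b * w i c) (hs : Fintype.card ι ≤ s) :
    RkLe T s := by
  have hs' : Fintype.card ι ≤ Fintype.card (Fin s) := by rwa [Fintype.card_fin]
  obtain ⟨f⟩ := Function.Embedding.nonempty_of_card_le hs'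
  refine ⟨Function.extend f u 0, Function.extend f v 0, Function.extend f w 0,
    fun a b c => ?_⟩
  rw [h]
  refine Fintype.sum_of_injective f f.injective _ _ ?_ ?_
  · intro j hj
    have hj' : ¬ ∃ i, f i = j := hj
    rw [Function.extend_apply' _ _ _ hj']
    simp
  · intro i
    simp only [f.injective.extend_apply]

theorem RkLe.mono (h : RkLe T s) (hs : s ≤ s') : RkLe T s' := by
  obtain ⟨u, v, w, h⟩ := h
  exact rankA_of u v w h (by rwa [Fintype.card_fin])

theorem RkLe.congr (h : RkLe T s) {U : α → β → γ → ℂ} (hU : ∀ a b c, U a b c = T a b c) :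
    RkLe U s := by
  obtain ⟨u, v, w, h⟩ := h
  exact ⟨u, v, w, fun a b c => by rw [hU, h]⟩

/-- Restriction to subsets, renaming. -/
theorem RkLe.sub (h : RkLe T s) (f : α' → α) (g : β' → β) (k : γ' → γ) :
    RkLe (fun a b c => T (f a) (g b) (k c)) s := by
  obtain ⟨u, v, w, h⟩ := h
  exact ⟨fun i a => u i (f a), fun i b => v i (g b), fun i c => w i (k c),
    fun a b c => h _ _ _⟩

private theorem rankA_comm [Fintype α] [Fintype β] [Fintype γ] (F : α → β → γ → Fin s → ℂ) :
    ∑ a, ∑ b, ∑ c, ∑ i, F a b c i = ∑ i, ∑ a, ∑ b, ∑ c, F a b c i :=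
  calc ∑ a, ∑ b, ∑ c, ∑ i, F a b c i = ∑ a, ∑ b, ∑ i, ∑ c, F a b c i :=
        Finset.sum_congr rfl fun _ _ => Finset.sum_congr rfl fun _ _ => Finset.sum_comm
    _ = ∑ a, ∑ i, ∑ b, ∑ c, F a b c i := Finset.sum_congr rfl fun _ _ => Finset.sum_comm
    _ = ∑ i, ∑ a, ∑ b, ∑ c, F a b c i := Finset.sum_comm

/-- Restriction along linear maps. -/
theorem RkLe.comp [Fintype α] [Fintype β] [Fintype γ] (h : RkLe T s) (p : α' → α → ℂ)
    (q : β' → β → ℂ) (r : γ' → γ → ℂ) :
    RkLe (fun a b c => ∑ a', ∑ b', ∑ c', p a a' * q b b' * r c c' * T a' b' c') s := by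
  obtain ⟨u, v, w, h⟩ := h
  refine ⟨fun i a => ∑ a', p a a' * u i a', fun i b => ∑ b', q b b' * v i b',
    fun i c => ∑ c', r c c' * w i c', fun a b c => ?_⟩
  have h1 : ∀ i, (∑ a', p a a' * u i a') * (∑ b', q b b' * v i b') * (∑ c', r c c' * w i c') =
      ∑ a', ∑ b', ∑ c', p a a' * q b b' * r c c' * (u i a' * v i b' * w i c') := by
    intro i
    rw [Finset.sum_mul_sum, Finset.sum_mul]
    refine Finset.sum_congr rfl fun a' _ => ?_
    rw [Finset.sum_mul_sum]
    refine Finset.sum_congr rfl fun b' _ => Finset.sum_congr rfl fun c' _ => ?_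
    ring
  have h2 : ∀ a' b' c', p a a' * q b b' * r c c' * T a' b' c' =
      ∑ i, p a a' * q b b' * r c c' * (u i a' * v i b' * w i c') := by
    intro a' b' c'
    rw [h, Finset.mul_sum]
  simp only [h2, h1]
  exact rankA_comm fun a' b' c' i => p a a' * q b b' * r c c' * (u i a' * v i b' * w i c')

theorem RkLe.scale (h : RkLe T s) (x : α → ℂ) (y : β → ℂ) (z : γ → ℂ) :
    RkLe (fun a b c => x a * y b * z c * T a b c) s := by
  obtain ⟨u, v, w, h⟩ := h
  refine ⟨fun i a => x a * u i a, fun i b => y b * v i b, fun i c => z c * w i c,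
    fun a b c => ?_⟩
  simp only [h, Finset.mul_sum]
  exact Finset.sum_congr rfl fun i _ => by ring

theorem RkLe.kron (h : RkLe T s) (h' : RkLe T' s') :
    RkLe (fun (a : α × α') (b : β × β') (c : γ × γ') => T a.1 b.1 c.1 * T' a.2 b.2 c.2)
      (s * s') := by
  obtain ⟨u, v, w, h⟩ := h
  obtain ⟨u', v', w', h'⟩ := h'
  refine rankA_of (ι := Fin s × Fin s') (fun i a => u i.1 a.1 * u' i.2 a.2)
    (fun i b => v i.1 b.1 * v' i.2 b.2) (fun i c => w i.1 c.1 * w' i.2 c.2) ?_ ?_
  · intro a b c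
    rw [h, h', Finset.sum_mul_sum, Fintype.sum_prod_type]
    exact Finset.sum_congr rfl fun i _ => Finset.sum_congr rfl fun j _ => by ring
  · rw [Fintype.card_prod, Fintype.card_fin, Fintype.card_fin]

theorem RkLe.pow (h : RkLe T s) (N : ℕ) : RkLe (powT N T) (s ^ N) := by
  obtain ⟨u, v, w, h⟩ := h
  refine rankA_of (ι := Fin N → Fin s) (fun i a => ∏ l, u (i l) (a l))
    (fun i b => ∏ l, v (i l) (b l)) (fun i c => ∏ l, w (i l) (c l)) ?_ ?_
  · intro a b c
    unfold powT
    simp only [h]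
    rw [Finset.prod_univ_sum, Fintype.piFinset_univ]
    refine Finset.sum_congr rfl fun i _ => ?_
    rw [Finset.prod_mul_distrib, Finset.prod_mul_distrib]
  · rw [Fintype.card_fun, Fintype.card_fin, Fintype.card_fin]

theorem RkLe.sum {Q : Type} [Fintype Q] (T : Q → α → β → γ → ℂ) (h : ∀ q, RkLe (T q) s) :
    RkLe (fun a b c => ∑ q, T q a b c) (Fintype.card Q * s) := by
  choose u v w h using h
  refine rankA_of (ι := Q × Fin s) (fun i a => u i.1 i.2 a) (fun i b => v i.1 i.2 b)
    (fun i c => w i.1 i.2 c) ?_ ?_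
  · intro a b c
    rw [Fintype.sum_prod_type]
    exact Finset.sum_congr rfl fun q _ => h q a b c
  · rw [Fintype.card_prod, Fintype.card_fin]

/-- Cyclic permutation of the three factors. -/
theorem RkLe.rot (h : RkLe T s) : RkLe (fun b c a => T a b c) s := by
  obtain ⟨u, v, w, h⟩ := h
  exact ⟨v, w, u, fun b c a => (h a b c).trans (Finset.sum_congr rfl fun i _ => by ring)⟩

theorem RkLe.swap (h : RkLe T s) : RkLe (fun b a c => T a b c) s := by
  obtain ⟨u, v, w, h⟩ := h
  exact ⟨v, u, w, fun b a c => (h a b c).trans (Finset.sum_congr rfl fun i _ => by ring)⟩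

/-- Trivial bound. PROOF. One term for every triple. -/
theorem rkLe_card [Fintype α] [Fintype β] [Fintype γ] (T : α → β → γ → ℂ) :
    RkLe T (Fintype.card α * Fintype.card β * Fintype.card γ) := by
  classical
  refine rankA_of (ι := (α × β) × γ) (fun i a => if i.1.1 = a then T i.1.1 i.1.2 i.2 else 0)
    (fun i b => if i.1.2 = b then 1 else 0) (fun i c => if i.2 = c then 1 else 0) ?_ ?_
  · intro a b c
    rw [Finset.sum_eq_single ((a, b), c)]
    · simp
    · rintro ⟨⟨a', b'⟩, c'⟩ - hne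
      by_cases h1 : a' = a
      · by_cases h2 : b' = b
        · have h3 : c' ≠ c := fun h3 => hne (by rw [h1, h2, h3])
          simp [h3]
        · simp [h2]
      · simp [h1]
    · intro h
      exact absurd (Finset.mem_univ _) h
  · rw [Fintype.card_prod, Fintype.card_prod]

/-- Flattening. PROOF. The matrix `∑ i : Fin s, u i a * (v i b * ∑ c, w i c * z c)` is a product of a
`κ × s` and an `s × κ` matrix, so its rank is at most `s`; it is the unit matrix. -/
theorem card_le_of_rkLe {κ : Type} [Fintype κ] [DecidableEq κ] [Fintype γ] (h : RkLe T s)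
    (f : κ → α) (g : κ → β) (z : γ → ℂ)
    (h1 : ∀ a b, ∑ c, T (f a) (g b) c * z c = if a = b then 1 else 0) : Fintype.card κ ≤ s := by
  obtain ⟨u, v, w, h⟩ := h
  have h2 : (Matrix.of fun (k : κ) (i : Fin s) => u i (f k)) *
      (Matrix.of fun (i : Fin s) (k : κ) => v i (g k) * ∑ c, w i c * z c) = 1 := by
    ext a b
    rw [Matrix.mul_apply, Matrix.one_apply, ← h1]
    simp only [Matrix.of_apply, h, Finset.sum_mul, Finset.mul_sum]
    rw [Finset.sum_comm]
    exact Finset.sum_congr rfl fun c _ => Finset.sum_congr rfl fun i _ => by ring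
  have h3 := Matrix.rank_mul_le_left (Matrix.of fun (k : κ) (i : Fin s) => u i (f k))
    (Matrix.of fun (i : Fin s) (k : κ) => v i (g k) * ∑ c, w i c * z c)
  rw [h2, Matrix.rank_one] at h3
  have h4 := Matrix.rank_le_card_width (Matrix.of fun (k : κ) (i : Fin s) => u i (f k))
  rw [Fintype.card_fin] at h4
  exact h3.trans h4

end

end MP0775d3.Om
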