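import Pool.Agent.Lib.MP_0775d3_lc.Om.FdDefs

/-! Project OM: characters of finite abelian groups and orbits. -/

namespace MP0775d3.Om

private theorem semiA_neZero (A : Type) [CommGroup A] [Finite A] :
    NeZero ((Monoid.exponent A : ℕ) : ℂ) :=
  ⟨Nat.cast_ne_zero.2 Monoid.exponent_ne_zero_of_finite⟩

/-- PROOF. Mathlib: `CommGroup.card_monoidHom_of_hasEnoughRootsOfUnity`, characters separate points;
multiply the sum by `χ₀ a ≠ 1`. -/
theorem char_sum (A : Type) [CommGroup A] [Finite A] [Fintype (A →* ℂˣ)] :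
    Nat.card (A →* ℂˣ) = Nat.card A ∧
    ∀ a : A, a ≠ 1 → ∑ χ : A →* ℂˣ, ((χ a : ℂˣ) : ℂ) = 0 := by
  haveI := semiA_neZero A
  refine ⟨CommGroup.card_monoidHom_of_hasEnoughRootsOfUnity A ℂ, fun a ha => ?_⟩
  obtain ⟨χ₀, h0⟩ := CommGroup.exists_apply_ne_one_of_hasEnoughRootsOfUnity A ℂ ha
  have h1 : ((χ₀ a : ℂˣ) : ℂ) * ∑ χ : A →* ℂˣ, ((χ a : ℂˣ) : ℂ) =
      ∑ χ : A →* ℂˣ, ((χ a : ℂˣ) : ℂ) := by
    rw [Finset.mul_sum]
    refine Fintype.sum_equiv (Equiv.mulLeft χ₀) _ _ fun χ => ?_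
    rw [Equiv.coe_mulLeft, MonoidHom.mul_apply, Units.val_mul]
  have h2 : (((χ₀ a : ℂˣ) : ℂ) - 1) * ∑ χ : A →* ℂˣ, ((χ a : ℂˣ) : ℂ) = 0 := by
    rw [sub_mul, one_mul, h1, sub_self]
  refine (mul_eq_zero.1 h2).resolve_left fun h3 => h0 (Units.ext ?_)
  rw [Units.val_one]
  exact sub_eq_zero.1 h3

/-- The action of `B` on the characters of `A`. -/
private def semiA_act {A B : Type} [CommGroup A] [CommGroup B] (φ : B →* MulAut A) :
    MulAction B (A →* ℂˣ) where
  smul b θ := θ.comp (φ b⁻¹).toMonoidHom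
  one_smul θ := by
    refine MonoidHom.ext fun a => ?_
    change θ (φ 1⁻¹ a) = θ a
    rw [inv_one, map_one, MulAut.one_apply]
  mul_smul b c θ := by
    refine MonoidHom.ext fun a => ?_
    change θ (φ (b * c)⁻¹ a) = θ (φ c⁻¹ (φ b⁻¹ a))
    rw [mul_inv_rev, map_mul, MulAut.mul_apply]

/-- Orbits of `B` on the characters of `A`: `b` maps `θ` to `θ ∘ φ b⁻¹`. PROOF. The `MulAction` of `B` on
`A →* ℂˣ`, `Ω` = its orbits, `θ o` = a representative, `H o` = its stabiliser,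
`MulAction.selfEquivSigmaOrbitsQuotientStabilizer`. -/
theorem semi_orbits {A B : Type} [CommGroup A] [CommGroup B] [Finite A] [Finite B]
    (φ : B →* MulAut A) : ∃ (Ω : Type) (_ : Fintype Ω) (_ : DecidableEq Ω) (θ : Ω → A →* ℂˣ)
      (H : Ω → Subgroup B), (∀ o, ∀ b ∈ H o, ∀ a, θ o (φ b a) = θ o a) ∧
      ∃ e : (A →* ℂˣ) ≃ (Σ o, B ⧸ H o), ∀ (o : Ω) (ρ : B ⧸ H o) (a : A),
        e.symm ⟨o, ρ⟩ a = θ o (φ (ρ.out)⁻¹ a) := by
  classical
  haveI := semiA_neZero A
  have hc : Nat.card (A →* ℂˣ) ≠ 0 := by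
    rw [CommGroup.card_monoidHom_of_hasEnoughRootsOfUnity A ℂ]
    exact Nat.card_pos.ne'
  haveI : Finite (A →* ℂˣ) := Nat.finite_of_card_ne_zero hc
  letI act : MulAction B (A →* ℂˣ) := semiA_act φ
  have hact : ∀ (b : B) (θ : A →* ℂˣ) (a : A), (b • θ) a = θ (φ b⁻¹ a) := fun _ _ _ => rfl
  let f : (Σ o : MulAction.orbitRel.Quotient B (A →* ℂˣ),
      B ⧸ MulAction.stabilizer B o.out) → (A →* ℂˣ) := fun x => x.2.out • x.1.out
  have hmk : ∀ (b : B) (o : MulAction.orbitRel.Quotient B (A →* ℂˣ)),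
      (Quotient.mk'' (b • o.out) : MulAction.orbitRel.Quotient B (A →* ℂˣ)) = o := by
    intro b o
    conv_rhs => rw [← Quotient.out_eq o]
    exact Quotient.sound (MulAction.orbitRel_apply.2 ⟨b, rfl⟩)
  have hf : Function.Bijective f := by
    constructor
    · rintro ⟨o, ρ⟩ ⟨o', ρ'⟩ h
      have h' : ρ.out • o.out = ρ'.out • o'.out := h
      have ho : o = o' := by rw [← hmk ρ.out o, ← hmk ρ'.out o', h']
      subst ho
      have h2 : ρ.out⁻¹ * ρ'.out ∈ MulAction.stabilizer B o.out := by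
        rw [MulAction.mem_stabilizer_iff, mul_smul, ← h', inv_smul_smul]
      have h3 : ρ = ρ' := by
        rw [← Quotient.out_eq ρ, ← Quotient.out_eq ρ']
        exact QuotientGroup.eq.2 h2
      rw [h3]
    · intro χ
      let o : MulAction.orbitRel.Quotient B (A →* ℂˣ) := Quotient.mk'' χ
      have h1 : MulAction.orbitRel B (A →* ℂˣ) χ o.out :=
        Setoid.symm' _ (Quotient.exact (Quotient.out_eq o))
      obtain ⟨b, hb⟩ := MulAction.orbitRel_apply.1 h1
      have hb' : b • o.out = χ := hb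
      refine ⟨⟨o, (b : B ⧸ MulAction.stabilizer B o.out)⟩, ?_⟩
      change (b : B ⧸ MulAction.stabilizer B o.out).out • o.out = χ
      have h2 : b⁻¹ * (b : B ⧸ MulAction.stabilizer B o.out).out ∈
          MulAction.stabilizer B o.out :=
        QuotientGroup.eq.1 (Quotient.out_eq (b : B ⧸ MulAction.stabilizer B o.out)).symm
      rw [MulAction.mem_stabilizer_iff, mul_smul] at h2
      rw [← hb']
      conv_rhs => rw [← h2]
      rw [smul_inv_smul]
  refine ⟨MulAction.orbitRel.Quotient B (A →* ℂˣ), Fintype.ofFinite _, Classical.decEq _,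
    fun o => o.out, fun o => MulAction.stabilizer B o.out, ?_, (Equiv.ofBijective f hf).symm, ?_⟩
  · intro o b hb a
    have h1 : b⁻¹ • o.out = o.out := by
      rw [inv_smul_eq_iff]
      exact (MulAction.mem_stabilizer_iff.1 hb).symm
    have h2 := DFunLike.congr_fun h1 a
    rwa [hact, inv_inv] at h2
  · intro o ρ a
    rfl

end MP0775d3.Om
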