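import Pool.Agent.Lib.MP_0775d3_lc.Om.FdDefs

/-! Project OM: the monomial representations of a semidirect product of abelian groups. -/

namespace MP0775d3.Om

open Classical in
/-- The representation induced from the character `θ ψ` of `A ⋊ H`. -/
noncomputable def semiPi {A B : Type} [CommGroup A] [CommGroup B] (φ : B →* MulAut A)
    (θ : A →* ℂˣ) (H : Subgroup B) (ψ : H →* ℂˣ) (g : A ⋊[φ] B) : Matrix (B ⧸ H) (B ⧸ H) ℂ :=
  Matrix.of fun ρ σ => if h : g.right * σ.out * (ρ.out)⁻¹ ∈ H then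
    ((ψ ⟨_, h⟩ : ℂˣ) : ℂ) * ((θ (φ (ρ.out)⁻¹ g.left) : ℂˣ) : ℂ) else 0

open Classical in
theorem semiPi_one {A B : Type} [CommGroup A] [CommGroup B] (φ : B →* MulAut A) (θ : A →* ℂˣ)
    (H : Subgroup B) (ψ : H →* ℂˣ) : semiPi φ θ H ψ 1 = 1 := by
  ext ρ σ
  rw [Matrix.one_apply]
  by_cases h : ρ = σ
  · subst h
    have h1 : (1 : A ⋊[φ] B).right * ρ.out * (ρ.out)⁻¹ ∈ H := by
      rw [SemidirectProduct.one_right, one_mul, mul_inv_cancel]
      exact H.one_mem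
    have h2 : (⟨_, h1⟩ : H) = 1 := by
      apply Subtype.ext
      change (1 : A ⋊[φ] B).right * ρ.out * (ρ.out)⁻¹ = 1
      rw [SemidirectProduct.one_right, one_mul, mul_inv_cancel]
    rw [if_pos rfl]
    change (if h : (1 : A ⋊[φ] B).right * ρ.out * (ρ.out)⁻¹ ∈ H then
      ((ψ ⟨_, h⟩ : ℂˣ) : ℂ) * ((θ (φ (ρ.out)⁻¹ (1 : A ⋊[φ] B).left) : ℂˣ) : ℂ) else 0) = 1
    rw [dif_pos h1, h2, SemidirectProduct.one_left]
    simp
  · have h1 : ¬ (1 : A ⋊[φ] B).right * σ.out * (ρ.out)⁻¹ ∈ H := by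
      rw [SemidirectProduct.one_right, one_mul]
      intro h2
      apply h
      rw [← ρ.out_eq', ← σ.out_eq']
      apply Quotient.sound'
      rw [QuotientGroup.leftRel_apply, mul_comm]
      exact h2
    rw [if_neg h]
    change (if h : (1 : A ⋊[φ] B).right * σ.out * (ρ.out)⁻¹ ∈ H then
      ((ψ ⟨_, h⟩ : ℂˣ) : ℂ) * ((θ (φ (ρ.out)⁻¹ (1 : A ⋊[φ] B).left) : ℂˣ) : ℂ) else 0) = 0
    rw [dif_neg h1]

open Classical in
/-- PROOF. For `g = (a, b)`, `g' = (a', b')` only `σ = b' τ` contributes to the entry `(ρ, τ)`; with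
`h = b σ' ρ'⁻¹ ∈ H` (`σ' = σ.out`, ..) one has `θ (φ σ'⁻¹ a') = θ (φ h (φ σ'⁻¹ a')) = θ (φ ρ'⁻¹ (φ b a'))`. -/
theorem semiPi_mul {A B : Type} [CommGroup A] [CommGroup B] [Finite B] (φ : B →* MulAut A)
    (θ : A →* ℂˣ) (H : Subgroup B) [Fintype (B ⧸ H)] (ψ : H →* ℂˣ)
    (hθ : ∀ b ∈ H, ∀ a, θ (φ b a) = θ a) (g g' : A ⋊[φ] B) :
    semiPi φ θ H ψ (g * g') = semiPi φ θ H ψ g * semiPi φ θ H ψ g' := by
  ext ρ τ
  rw [Matrix.mul_apply]
  have key : ∀ σ : B ⧸ H, g'.right * τ.out * (σ.out)⁻¹ ∈ H ↔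
      σ = QuotientGroup.mk (g'.right * τ.out) := by
    intro σ
    constructor
    · intro h
      rw [← σ.out_eq']
      apply Quotient.sound'
      rw [QuotientGroup.leftRel_apply, mul_comm]
      exact h
    · intro h
      have h1 : (QuotientGroup.mk σ.out : B ⧸ H) = QuotientGroup.mk (g'.right * τ.out) := by
        rw [← h]
        exact σ.out_eq'
      have h2 := QuotientGroup.eq.1 h1
      rw [mul_comm] at h2
      exact h2
  rw [Finset.sum_eq_single (QuotientGroup.mk (g'.right * τ.out) : B ⧸ H)]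
  · generalize hσ : (QuotientGroup.mk (g'.right * τ.out) : B ⧸ H) = σ
    have h1 : g'.right * τ.out * (σ.out)⁻¹ ∈ H := (key σ).2 hσ.symm
    change (if h : (g * g').right * τ.out * (ρ.out)⁻¹ ∈ H then
      ((ψ ⟨_, h⟩ : ℂˣ) : ℂ) * ((θ (φ (ρ.out)⁻¹ (g * g').left) : ℂˣ) : ℂ) else 0) =
      (if h : g.right * σ.out * (ρ.out)⁻¹ ∈ H then
      ((ψ ⟨_, h⟩ : ℂˣ) : ℂ) * ((θ (φ (ρ.out)⁻¹ g.left) : ℂˣ) : ℂ) else 0) *
      (if h : g'.right * τ.out * (σ.out)⁻¹ ∈ H then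
      ((ψ ⟨_, h⟩ : ℂˣ) : ℂ) * ((θ (φ (σ.out)⁻¹ g'.left) : ℂˣ) : ℂ) else 0)
    have he : (g * g').right * τ.out * (ρ.out)⁻¹ =
        (g.right * σ.out * (ρ.out)⁻¹) * (g'.right * τ.out * (σ.out)⁻¹) := by
      rw [SemidirectProduct.mul_right]
      have : σ.out * (σ.out)⁻¹ = 1 := mul_inv_cancel _
      calc g.right * g'.right * τ.out * (ρ.out)⁻¹
          = g.right * g'.right * τ.out * (ρ.out)⁻¹ * (σ.out * (σ.out)⁻¹) := by rw [this, mul_one]
        _ = _ := by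
          simp only [mul_comm, mul_left_comm, mul_assoc]
    rw [dif_pos h1]
    by_cases h2 : g.right * σ.out * (ρ.out)⁻¹ ∈ H
    · have h3 : (g * g').right * τ.out * (ρ.out)⁻¹ ∈ H := by
        rw [he]
        exact H.mul_mem h2 h1
      rw [dif_pos h2, dif_pos h3]
      have e1 : (⟨_, h3⟩ : H) = ⟨_, h2⟩ * ⟨_, h1⟩ := Subtype.ext he
      have e2 : θ (φ (ρ.out)⁻¹ (φ g.right g'.left)) = θ (φ (σ.out)⁻¹ g'.left) := by
        rw [← hθ _ h2 (φ (σ.out)⁻¹ g'.left), ← MulAut.mul_apply, ← MulAut.mul_apply, ← map_mul,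
          ← map_mul]
        have : (ρ.out)⁻¹ * g.right = g.right * σ.out * (ρ.out)⁻¹ * (σ.out)⁻¹ := by
          have h4 : σ.out * (σ.out)⁻¹ = 1 := mul_inv_cancel _
          calc (ρ.out)⁻¹ * g.right = (ρ.out)⁻¹ * g.right * (σ.out * (σ.out)⁻¹) := by
                rw [h4, mul_one]
            _ = _ := by simp only [mul_comm, mul_left_comm, mul_assoc]
        rw [this]
      rw [e1, map_mul, SemidirectProduct.mul_left, map_mul, map_mul, e2]
      push_cast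
      ring
    · have h3 : ¬ (g * g').right * τ.out * (ρ.out)⁻¹ ∈ H := by
        rw [he]
        intro h4
        exact h2 ((H.mul_mem_cancel_right h1).1 h4)
      rw [dif_neg h2, dif_neg h3, zero_mul]
  · intro σ _ hne
    have h1 : ¬ g'.right * τ.out * (σ.out)⁻¹ ∈ H := fun h => hne ((key σ).1 h)
    have h2 : semiPi φ θ H ψ g' σ τ = 0 := by
      change (if h : g'.right * τ.out * (σ.out)⁻¹ ∈ H then
        ((ψ ⟨_, h⟩ : ℂˣ) : ℂ) * ((θ (φ (σ.out)⁻¹ g'.left) : ℂˣ) : ℂ) else 0) = 0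
      rw [dif_neg h1]
    rw [h2, mul_zero]
  · intro h
    exact absurd (Finset.mem_univ _) h

end MP0775d3.Om
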