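import Pool.Agent.Lib.MP_0775d3_lc.Om.SemiA
import Pool.Agent.Lib.MP_0775d3_lc.Om.SemiB

/-! Project OM: the trace formula for semidirect products. -/

namespace MP0775d3.Om

open Classical in
private theorem semiC_diag {A B : Type} [CommGroup A] [CommGroup B] (φ : B →* MulAut A)
    (θ : A →* ℂˣ) (H : Subgroup B) (ψ : H →* ℂˣ) (g : A ⋊[φ] B) (ρ : B ⧸ H) :
    semiPi φ θ H ψ g ρ ρ = if h : g.right ∈ H then
      ((ψ ⟨g.right, h⟩ : ℂˣ) : ℂ) * ((θ (φ (ρ.out)⁻¹ g.left) : ℂˣ) : ℂ) else 0 := by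
  have hb : g.right * ρ.out * (ρ.out)⁻¹ = g.right := mul_inv_cancel_right _ _
  simp only [semiPi, Matrix.of_apply, hb]

open Classical in
private theorem semiC_sum {A B : Type} [CommGroup A] [CommGroup B] [Fintype B]
    (φ : B →* MulAut A) (θ : A →* ℂˣ) (H : Subgroup B) [Fintype (H →* ℂˣ)] (g : A ⋊[φ] B) :
    ∑ ψ : H →* ℂˣ, (semiPi φ θ H ψ g).trace =
      if g.right = 1 then (Nat.card H : ℂ) *
        ∑ ρ : B ⧸ H, ((θ (φ (ρ.out)⁻¹ g.left) : ℂˣ) : ℂ) else 0 := by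
  obtain ⟨h1, h2⟩ := char_sum H
  have h3 : ∀ ψ : H →* ℂˣ, (semiPi φ θ H ψ g).trace =
      ∑ ρ : B ⧸ H, if h : g.right ∈ H then
        ((ψ ⟨g.right, h⟩ : ℂˣ) : ℂ) * ((θ (φ (ρ.out)⁻¹ g.left) : ℂˣ) : ℂ) else 0 := by
    intro ψ
    rw [Matrix.trace]
    exact Finset.sum_congr rfl fun ρ _ => semiC_diag φ θ H ψ g ρ
  rw [Finset.sum_congr rfl fun ψ _ => h3 ψ, Finset.sum_comm]
  by_cases hH : g.right ∈ H
  · simp only [dif_pos hH]
    by_cases hb : g.right = 1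
    · have h4 : (⟨g.right, hH⟩ : H) = 1 := Subtype.ext hb
      rw [if_pos hb, Finset.mul_sum]
      refine Finset.sum_congr rfl fun ρ _ => ?_
      simp only [h4, map_one, Units.val_one, one_mul]
      rw [Finset.sum_const, Finset.card_univ, nsmul_eq_mul, ← h1, Nat.card_eq_fintype_card]
    · have h4 : (⟨g.right, hH⟩ : H) ≠ 1 := fun h => hb (congrArg Subtype.val h)
      rw [if_neg hb]
      refine Finset.sum_eq_zero fun ρ _ => ?_
      rw [← Finset.sum_mul, h2 _ h4, zero_mul]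
  · have hb : g.right ≠ 1 := fun h => hH (by rw [h]; exact H.one_mem)
    rw [if_neg hb]
    simp only [dif_neg hH]
    exact Finset.sum_eq_zero fun ρ _ => Finset.sum_const_zero

open Classical in
/-- PROOF. The diagonal entry at `ρ` is zero unless `b ∈ H o`; then it is `ψ b * θ (φ ρ'⁻¹ a)`. The sum over
`ψ` is `|H o|` if `b = 1` and zero otherwise (`char_sum`); for `b = 1` the total is
`∑ o, |B / H o| |H o| ∑ ρ, θ o (φ ρ'⁻¹ a) = |B| ∑ χ, χ a` (bijection `e`), `char_sum` for `A`. -/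
theorem semi_trace {A B : Type} [CommGroup A] [CommGroup B] [Fintype A] [Fintype B]
    (φ : B →* MulAut A) {Ω : Type} [Fintype Ω] (θ : Ω → A →* ℂˣ) (H : Ω → Subgroup B)
    (e : (A →* ℂˣ) ≃ (Σ o, B ⧸ H o))
    (he : ∀ (o : Ω) (ρ : B ⧸ H o) (a : A), e.symm ⟨o, ρ⟩ a = θ o (φ (ρ.out)⁻¹ a))
    [∀ o, Fintype (H o →* ℂˣ)] (g : A ⋊[φ] B) :
    ∑ i : (Σ o, (H o →* ℂˣ)), (Fintype.card (B ⧸ H i.1) : ℂ) *
      (semiPi φ (θ i.1) (H i.1) i.2 g).trace =
      if g = 1 then ((Fintype.card A * Fintype.card B : ℕ) : ℂ) else 0 := by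
  rw [Fintype.sum_sigma]
  have h1 : ∀ o, ∑ ψ : H o →* ℂˣ, (Fintype.card (B ⧸ H o) : ℂ) *
      (semiPi φ (θ o) (H o) ψ g).trace = if g.right = 1 then (Fintype.card B : ℂ) *
        ∑ ρ : B ⧸ H o, ((θ o (φ (ρ.out)⁻¹ g.left) : ℂˣ) : ℂ) else 0 := by
    intro o
    rw [← Finset.mul_sum, semiC_sum]
    split_ifs
    · rw [← mul_assoc]
      congr 1
      rw [← Nat.card_eq_fintype_card (α := B),
        Subgroup.card_eq_card_quotient_mul_card_subgroup (H o),
        Nat.card_eq_fintype_card (α := B ⧸ H o)]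
      push_cast
      ring
    · rw [mul_zero]
  rw [Finset.sum_congr rfl fun o _ => h1 o]
  by_cases hb : g.right = 1
  · simp only [if_pos hb]
    rw [← Finset.mul_sum]
    have hf : Fintype (A →* ℂˣ) := Fintype.ofEquiv _ e.symm
    obtain ⟨h2, h3⟩ := char_sum A
    have h4 : ∑ o, ∑ ρ : B ⧸ H o, ((θ o (φ (ρ.out)⁻¹ g.left) : ℂˣ) : ℂ) =
        ∑ χ : A →* ℂˣ, ((χ g.left : ℂˣ) : ℂ) := by
      rw [← Equiv.sum_comp e.symm, Fintype.sum_sigma]
      refine Finset.sum_congr rfl fun o _ => Finset.sum_congr rfl fun ρ _ => ?_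
      rw [he]
    rw [h4]
    by_cases ha : g.left = 1
    · have hg : g = 1 := SemidirectProduct.ext ha hb
      rw [if_pos hg, ha]
      simp only [map_one, Units.val_one]
      rw [Finset.sum_const, Finset.card_univ, nsmul_eq_mul, mul_one,
        ← Nat.card_eq_fintype_card (α := A →* ℂˣ), h2, Nat.card_eq_fintype_card]
      push_cast
      ring
    · have hg : g ≠ 1 := fun h => ha (by rw [h]; rfl)
      rw [if_neg hg, h3 _ ha, mul_zero]
  · have hg : g ≠ 1 := fun h => hb (by rw [h]; rfl)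
    simp only [if_neg hb, if_neg hg]
    exact Finset.sum_const_zero

end MP0775d3.Om
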