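import Pool.Agent.Lib.MP_0775d3_lc.Om.SemiA
import Pool.Agent.Lib.MP_0775d3_lc.Om.SemiB

/-! Project OM: the Fourier transform of a semidirect product is a box circuit. -/

namespace MP0775d3.Om

open Matrix MP0775d3.Cf

/-- The Fourier matrix of a group with `FB`. -/
private theorem semiD_fb {W : Type} [Group W] {w s : ℝ} {t : ℕ} (h : FB w s t W) :
    Bx w s t (Matrix.of fun (v : W) (x : W →* ℂˣ) => ((x v : ℂˣ) : ℂ)) := by
  refine h (W →* ℂˣ) (fun x v => ((x v : ℂˣ) : ℂ)) (fun x => ?_) (fun x v w => ?_) ?_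
  · rw [map_one, Units.val_one]
  · rw [map_mul, Units.val_mul]
  · intro x y hxy
    ext v
    exact congrFun hxy v

open Classical in
/-- The first factor. -/
private theorem semiD_E {A B : Type} [CommGroup A] [CommGroup B] [Fintype A] [Fintype B]
    (φ : B →* MulAut A) {p s : ℝ} {t : ℕ} (ht : 1 ≤ t) (hA : FB (p * Nat.card A) s t A) :
    Bx (p * (Nat.card A * Nat.card B)) s t
      (Matrix.of fun (g : A ⋊[φ] B) (x : (A →* ℂˣ) × B) =>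
        if g.right = x.2 then ((x.1 g.left : ℂˣ) : ℂ) else 0) := by
  have h := bx_blocks (ι := B) (Matrix.of fun (g : A ⋊[φ] B) (x : (A →* ℂˣ) × B) =>
      if g.right = x.2 then ((x.1 g.left : ℂˣ) : ℂ) else 0) (fun g => g.right) (fun x => x.2)
    (fun g x hne => if_neg hne) (fun _ => p * Nat.card A) ht (fun _ => A) (fun _ => (A →* ℂˣ))
    (fun _ => Matrix.of fun (v : A) (x : A →* ℂˣ) => ((x v : ℂˣ) : ℂ)) (fun _ => semiD_fb hA)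
    (fun _ g => g.left) (fun _ x => x.1)
    (fun i g g' h1 h2 h3 => SemidirectProduct.ext h3 (h1.trans h2.symm))
    (fun i x x' h1 h2 h3 => Prod.ext h3 (h1.trans h2.symm)) (fun _ => 1) (fun _ => 1)
    (fun i g x h1 h2 => by
      rw [Matrix.of_apply, Matrix.of_apply, one_mul, mul_one]
      exact if_pos (h1.trans h2.symm))
  have e : ∑ _i : B, p * (Nat.card A : ℝ) = p * (Nat.card A * Nat.card B) := by
    rw [Finset.sum_const, Finset.card_univ, nsmul_eq_mul, Nat.card_eq_fintype_card (α := B)]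
    ring
  rwa [e] at h

open Classical in
/-- The second factor. -/
private theorem semiD_F {A B : Type} [CommGroup A] [CommGroup B] [Fintype A] [Fintype B]
    {Ω : Type} [Fintype Ω] (H : Ω → Subgroup B) (e : (A →* ℂˣ) ≃ (Σ o, B ⧸ H o))
    {p s : ℝ} {t : ℕ} (ht : 1 ≤ t) (hB : ∀ H : Subgroup B, FB (p * Nat.card H) s t H) :
    Bx (p * (Nat.card A * Nat.card B)) s t
      (Matrix.of fun (x : (A →* ℂˣ) × B)
        (z : Σ i : (Σ o, (H o →* ℂˣ)), (B ⧸ H i.1) × (B ⧸ H i.1)) =>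
        if h : e x.1 = ⟨z.1.1, z.2.1⟩ ∧ x.2 * z.2.2.out * (z.2.1.out)⁻¹ ∈ H z.1.1 then
          ((z.1.2 ⟨_, h.2⟩ : ℂˣ) : ℂ) else 0) := by
  have hlab : ∀ (o : Ω) (ρ σ : B ⧸ H o) (b : B),
      ((b⁻¹ * ρ.out : B) : B ⧸ H o) = σ ↔ b * σ.out * (ρ.out)⁻¹ ∈ H o := by
    intro o ρ σ b
    conv_lhs => rw [← QuotientGroup.out_eq' σ]
    rw [QuotientGroup.eq]
    have e1 : (b⁻¹ * ρ.out)⁻¹ * σ.out = b * σ.out * (ρ.out)⁻¹ := by
      rw [mul_inv, inv_inv, mul_right_comm]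
    rw [e1]
  have h := bx_blocks (ι := Σ i : (Σ o, B ⧸ H o), B ⧸ H i.1)
    (Matrix.of fun (x : (A →* ℂˣ) × B)
        (z : Σ i : (Σ o, (H o →* ℂˣ)), (B ⧸ H i.1) × (B ⧸ H i.1)) =>
        if h : e x.1 = ⟨z.1.1, z.2.1⟩ ∧ x.2 * z.2.2.out * (z.2.1.out)⁻¹ ∈ H z.1.1 then
          ((z.1.2 ⟨_, h.2⟩ : ℂˣ) : ℂ) else 0)
    (fun x => ⟨e x.1, ((x.2⁻¹ * (e x.1).2.out : B) : B ⧸ H (e x.1).1)⟩)
    (fun z => ⟨⟨z.1.1, z.2.1⟩, z.2.2⟩)
    (fun x z hne => by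
      rw [Matrix.of_apply, dif_neg]
      rintro ⟨h1, h2⟩
      apply hne
      obtain ⟨⟨o, ψ⟩, ρ, σ⟩ := z
      change (⟨e x.1, ((x.2⁻¹ * (e x.1).2.out : B) : B ⧸ H (e x.1).1)⟩ :
        Σ i : (Σ o, B ⧸ H o), B ⧸ H i.1) = ⟨⟨o, ρ⟩, σ⟩
      rw [h1]
      congr 1
      exact (hlab o ρ σ x.2).2 h2)
    (fun i => p * Nat.card (H i.1.1)) ht (fun i => H i.1.1) (fun i => (H i.1.1 →* ℂˣ))
    (fun i => Matrix.of fun (v : H i.1.1) (x : H i.1.1 →* ℂˣ) => ((x v : ℂˣ) : ℂ))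
    (fun i => semiD_fb (hB (H i.1.1)))
    (fun i x => if h : x.2 * i.2.out * (i.1.2.out)⁻¹ ∈ H i.1.1 then ⟨_, h⟩ else 1)
    (fun i z => if h : z.1.1 = i.1.1 then h ▸ z.1.2 else 1) ?_ ?_ (fun _ => 1) (fun _ => 1) ?_
  · have e1 : ∑ i : (Σ i : (Σ o, B ⧸ H o), B ⧸ H i.1), p * (Nat.card (H i.1.1) : ℝ) =
        p * (Nat.card A * Nat.card B) := by
      rw [Fintype.sum_sigma]
      have e2 : ∀ i : (Σ o, B ⧸ H o), ∑ _j : B ⧸ H i.1, p * (Nat.card (H i.1) : ℝ) =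
          p * Nat.card B := by
        intro i
        rw [Finset.sum_const, Finset.card_univ, nsmul_eq_mul, ← Nat.card_eq_fintype_card,
          Subgroup.card_eq_card_quotient_mul_card_subgroup (H i.1), Nat.cast_mul]
        ring
      rw [Finset.sum_congr rfl fun i _ => e2 i, Finset.sum_const, Finset.card_univ, nsmul_eq_mul]
      have : Fintype (A →* ℂˣ) := Fintype.ofEquiv _ e.symm
      rw [← (char_sum A).1, Nat.card_congr e, Nat.card_eq_fintype_card (α := Σ o, B ⧸ H o)]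
      ring
    rwa [e1] at h
  · rintro ⟨⟨o, ρ⟩, σ⟩ ⟨χ, b⟩ ⟨χ', b'⟩ h1 h2 h3
    have key : ∀ (χ : A →* ℂˣ) (b : B), (⟨e χ, ((b⁻¹ * (e χ).2.out : B) : B ⧸ H (e χ).1)⟩ :
        Σ i : (Σ o, B ⧸ H o), B ⧸ H i.1) = ⟨⟨o, ρ⟩, σ⟩ → e χ = ⟨o, ρ⟩ ∧
        b * σ.out * (ρ.out)⁻¹ ∈ H o := by
      intro χ b hb
      obtain ⟨h4, h5⟩ := Sigma.mk.inj_iff.1 hb
      refine ⟨h4, ?_⟩
      rw [h4] at h5
      exact (hlab o ρ σ b).1 (eq_of_heq h5)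
    obtain ⟨h4, h5⟩ := key χ b h1
    obtain ⟨h6, h7⟩ := key χ' b' h2
    have h8 : χ = χ' := e.injective (h4.trans h6.symm)
    rw [dif_pos h5, dif_pos h7] at h3
    have h9 : b * σ.out * (ρ.out)⁻¹ = b' * σ.out * (ρ.out)⁻¹ := congrArg Subtype.val h3
    rw [h8, mul_right_cancel (mul_right_cancel h9)]
  · rintro i ⟨⟨o, ψ⟩, ρ, σ⟩ ⟨⟨o', ψ'⟩, ρ', σ'⟩ h1 h2 h3
    subst h1
    obtain ⟨h4, h5⟩ := Sigma.mk.inj_iff.1 h2
    obtain ⟨h6, h7⟩ := Sigma.mk.inj_iff.1 h4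
    subst h6
    obtain rfl := eq_of_heq h7
    obtain rfl := eq_of_heq h5
    rw [dif_pos rfl, dif_pos rfl] at h3
    rw [show ψ = ψ' from h3]
  · rintro i ⟨χ, b⟩ ⟨⟨o, ψ⟩, ρ, σ⟩ h1 h2
    subst h2
    obtain ⟨h4, h5⟩ := Sigma.mk.inj_iff.1 h1
    have h4' : e χ = ⟨o, ρ⟩ := h4
    have h6 : b * σ.out * (ρ.out)⁻¹ ∈ H o := by
      rw [h4'] at h5
      exact (hlab o ρ σ b).1 (eq_of_heq h5)
    rw [Matrix.of_apply, Matrix.of_apply, one_mul, mul_one, dif_pos ⟨h4', h6⟩, dif_pos h6,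
      dif_pos rfl]

open Classical in
/-- PROOF. The matrix is a product `E * F`. `E (a, b) (χ, b') = χ a` if `b = b'`, else `0`: block diagonal over
`B` with the blocks the Fourier matrix of `A` (`bx_blocks`, `FB` with all characters): width `|B| p |A|`.
`F (χ, b) ⟨(o, ψ), ρ, σ⟩ = ψ (b σ' ρ'⁻¹)` if `e χ = ⟨o, ρ⟩` and `b σ' ρ'⁻¹ ∈ H o`, else `0`: blocks indexed by
`⟨⟨o, ρ⟩, σ⟩` (for `(χ, b)`: `⟨o, ρ⟩ = e χ`, `σ = b⁻¹ ρ`), every block the Fourier matrix of `H o` (rows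
`b σ' ρ'⁻¹`, columns `ψ`): width `∑ p |H o| = p |A| |B|`. `Bx.mul`. -/
theorem semi_bx {A B : Type} [CommGroup A] [CommGroup B] [Fintype A] [Fintype B]
    (φ : B →* MulAut A) {Ω : Type} [Fintype Ω] (θ : Ω → A →* ℂˣ) (H : Ω → Subgroup B)
    (e : (A →* ℂˣ) ≃ (Σ o, B ⧸ H o))
    (he : ∀ (o : Ω) (ρ : B ⧸ H o) (a : A), e.symm ⟨o, ρ⟩ a = θ o (φ (ρ.out)⁻¹ a))
    {p s : ℝ} {t : ℕ} (ht : 1 ≤ t) (hs : 1 ≤ s) (hA : FB (p * Nat.card A) s t A)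
    (hB : ∀ H : Subgroup B, FB (p * Nat.card H) s t H) :
    Bx (p * (Nat.card A * Nat.card B)) s (2 * t + 1)
      (Matrix.of fun (g : A ⋊[φ] B)
        (z : Σ i : (Σ o, (H o →* ℂˣ)), (B ⧸ H i.1) × (B ⧸ H i.1)) =>
          semiPi φ (θ z.1.1) (H z.1.1) z.1.2 g z.2.1 z.2.2) := by
  have hfin : Fintype (A →* ℂˣ) := Fintype.ofEquiv _ e.symm
  have h := (semiD_E φ ht hA).mul (semiD_F H e ht hB) hs
  rw [show t + t + 1 = 2 * t + 1 by ring] at h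
  refine (congrArg (Bx (p * (Nat.card A * Nat.card B)) s (2 * t + 1)) ?_).mpr h
  ext g ⟨⟨o, ψ⟩, ρ, σ⟩
  rw [Matrix.mul_apply, Fintype.sum_prod_type, Matrix.of_apply]
  rw [Finset.sum_eq_single (e.symm ⟨o, ρ⟩), Finset.sum_eq_single g.right]
  · rw [Matrix.of_apply, Matrix.of_apply, if_pos rfl, semiPi, Matrix.of_apply]
    by_cases h1 : g.right * σ.out * (ρ.out)⁻¹ ∈ H o
    · rw [dif_pos h1, dif_pos ⟨Equiv.apply_symm_apply e _, h1⟩, ← he, mul_comm]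
    · rw [dif_neg h1, dif_neg fun h2 => h1 h2.2, mul_zero]
  · intro b _ hb
    rw [Matrix.of_apply, if_neg (fun h => hb h.symm), zero_mul]
  · intro h1
    exact absurd (Finset.mem_univ _) h1
  · intro χ _ hχ
    refine Finset.sum_eq_zero fun b _ => ?_
    rw [Matrix.of_apply (f := fun (x : (A →* ℂˣ) × B)
        (z : Σ i : (Σ o, (H o →* ℂˣ)), (B ⧸ H i.1) × (B ⧸ H i.1)) => _), dif_neg, mul_zero]
    rintro ⟨h1, -⟩
    exact hχ ((Equiv.symm_apply_apply e χ).symm.trans (congrArg e.symm h1))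
  · intro h1
    exact absurd (Finset.mem_univ _) h1

end MP0775d3.Om
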