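import Pool.Agent.Lib.MP_0775d3_lc.Om.SemiC
import Pool.Agent.Lib.MP_0775d3_lc.Om.SemiD
import Pool.Agent.Lib.MP_0775d3_lc.Om.FdReps

/-! Project OM: semidirect products of two abelian groups. -/

namespace MP0775d3.Om

open Matrix MP0775d3.Cf

/-- PROOF. `fb_abelian δ` gives `t`, `C`. `semi_orbits`, `semiPi_one`, `semiPi_mul`, `semi_trace`, `semi_bx` with
`p = C`, `fd_of_reps`. -/
theorem fd_semi (δ : ℝ) (hδ : 0 < δ) : ∃ t : ℕ, 1 ≤ t ∧ ∃ C : ℝ, 1 ≤ C ∧ ∀ N : ℝ, 1 ≤ N →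
    ∀ (A B : Type) [CommGroup A] [CommGroup B] [Finite A] [Finite B] (φ : B →* MulAut A),
      (Nat.card A * Nat.card B : ℝ) ≤ N →
      FD (C * (Nat.card A * Nat.card B)) (C * N ^ δ) t (A ⋊[φ] B) := by
  classical
  obtain ⟨t, ht, C, hC, hfb⟩ := fb_abelian δ hδ
  refine ⟨2 * t + 1, by omega, C, hC, ?_⟩
  intro N hN A B _ _ _ _ φ hAB
  have hA1 : (1 : ℝ) ≤ Nat.card A := by exact_mod_cast Nat.card_pos
  have hB1 : (1 : ℝ) ≤ Nat.card B := by exact_mod_cast Nat.card_pos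
  have hA : (Nat.card A : ℝ) ≤ N := by nlinarith
  have hB : (Nat.card B : ℝ) ≤ N := by nlinarith
  have hs : 1 ≤ C * N ^ δ := by
    have h1 : (1 : ℝ) ≤ N ^ δ := Real.one_le_rpow hN hδ.le
    nlinarith
  cases nonempty_fintype A
  cases nonempty_fintype B
  obtain ⟨Ω, iΩ, iΩ', θ, H, hθ, e, he⟩ := semi_orbits φ
  have hfbA : FB (C * Nat.card A) (C * N ^ δ) t A := hfb N hN A (fun a b => mul_comm a b) hA
  have hfbB : ∀ H : Subgroup B, FB (C * Nat.card H) (C * N ^ δ) t H := by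
    intro H
    refine hfb N hN H (fun a b => mul_comm a b) (le_trans ?_ hB)
    exact_mod_cast Subgroup.card_le_card_group H
  have hbx := semi_bx φ θ H e he ht hs hfbA hfbB
  let _ : Fintype (A ⋊[φ] B) := Fintype.ofEquiv (A × B) SemidirectProduct.equivProd.symm
  let _ : ∀ o, Fintype (H o →* ℂˣ) := fun o => Fintype.ofFinite _
  have hcard : Fintype.card (A ⋊[φ] B) = Fintype.card A * Fintype.card B := by
    rw [← Nat.card_eq_fintype_card, SemidirectProduct.card, Nat.card_eq_fintype_card,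
      Nat.card_eq_fintype_card]
  refine fd_of_reps (fun i : (Σ o, (H o →* ℂˣ)) => B ⧸ H i.1)
    (fun i g => semiPi φ (θ i.1) (H i.1) i.2 g) ?_ ?_ ?_ (by omega) hbx
  · intro i
    exact semiPi_one φ (θ i.1) (H i.1) i.2
  · intro i g h
    exact semiPi_mul φ (θ i.1) (H i.1) i.2 (hθ i.1) g h
  · intro g
    rw [hcard]
    exact semi_trace φ θ H e he g

end MP0775d3.Om
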