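import Pool.Agent.Lib.MP_0775d3_lc.Om.FdPi
import Pool.Agent.Lib.MP_0775d3_lc.Om.MmBx
import Pool.Agent.Lib.MP_0775d3_lc.Cf.CalcD

/-! Project OM: if `ω = 2` then group matrices are not rigid. -/

namespace MP0775d3.Om

open Matrix MP0775d3.Cf MP0775d3.Sl2 MP0775d3.Kron

private theorem up_pow_le {C a b : ℝ} (hab : a < b) :
    ∃ n₀ : ℕ, ∀ n : ℕ, n₀ ≤ n → 1 ≤ n → C * (n : ℝ) ^ a ≤ (n : ℝ) ^ b := by
  have h1 : Filter.Tendsto (fun n : ℕ => (n : ℝ) ^ (b - a)) Filter.atTop Filter.atTop :=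
    (tendsto_rpow_atTop (sub_pos.2 hab)).comp tendsto_natCast_atTop_atTop
  obtain ⟨n₀, hn₀⟩ := Filter.eventually_atTop.1 (Filter.tendsto_atTop.1 h1 C)
  refine ⟨n₀, fun n hn hn1 => ?_⟩
  have h2 : (0 : ℝ) < n := by exact_mod_cast hn1
  have h3 : (n : ℝ) ^ b = (n : ℝ) ^ (b - a) * (n : ℝ) ^ a := by
    rw [← Real.rpow_add h2, sub_add_cancel]
  rw [h3]
  exact mul_le_mul_of_nonneg_right (hn₀ n hn) (Real.rpow_nonneg h2.le a)

private theorem up_small_mono {b b' : ℝ} {G : Type} [Group G] (h : Small b G) (hb : b ≤ b') :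
    Small b' G := by
  rcases h with h | h
  · exact Or.inl (h.trans hb)
  · exact Or.inr h

/-- PROOF. `mm_bx` for `δ / 4` gives `t'`. Total number of layers `T = 2 * t + t' + 2`; `bx_dec (δ / 2) (δ / 2) T`
gives `γ`; `mm_bx` with `η = γ / 2` gives `C'`. The middle factor has width `∑ C' |D i| ^ 2 N ^ η ≤ C' n ^ (1 + η)`
(`bx_sigma`). For large `n` all widths are at most `n ^ (1 + γ)`, all boxes at most `n ^ (δ / 2)`:
`Bx.mono`, `Bx.mul` twice, `bx_dec`. -/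
theorem fd_dec (hω : omega = 2) (δ : ℝ) (hδ : 0 < δ) (t : ℕ) (C : ℝ) (hC : 1 ≤ C) :
    ∃ γ : ℝ, 0 < γ ∧ ∃ n₀ : ℕ, ∀ (G : Type) [Group G] [Fintype G], n₀ ≤ Fintype.card G →
      FD (C * Fintype.card G) (C * (Fintype.card G : ℝ) ^ (δ / 4)) t G → ∀ f : G → ℂ,
        Dec (groupMat f) ((Fintype.card G : ℝ) ^ (1 - γ)) ((Fintype.card G : ℝ) ^ δ) := by
  classical
  obtain ⟨t', ht', hmm⟩ := mm_bx hω (δ / 4) (by linarith)
  obtain ⟨γ, hγ, n₁, hdec⟩ := bx_dec (δ / 2) (δ / 2) (by linarith) (by linarith)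
    (t + t' + 1 + t + 1)
  obtain ⟨C', hC', hmm'⟩ := hmm (γ / 2) (by linarith)
  obtain ⟨n₂, h₂⟩ := up_pow_le (C := C) (a := 1) (b := 1 + γ) (by linarith)
  obtain ⟨n₃, h₃⟩ := up_pow_le (C := C') (a := 1 + γ / 2) (b := 1 + γ) (by linarith)
  obtain ⟨n₄, h₄⟩ := up_pow_le (C := C) (a := δ / 4) (b := δ / 2) (by linarith)
  obtain ⟨n₅, h₅⟩ := up_pow_le (C := C') (a := δ / 4) (b := δ / 2) (by linarith)
  refine ⟨γ, hγ, n₁ + n₂ + n₃ + n₄ + n₅ + 1, ?_⟩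
  intro G _ _ hn hFD f
  obtain ⟨n, hnG⟩ : ∃ n, n = Fintype.card G := ⟨_, rfl⟩
  rw [← hnG] at hn hFD ⊢
  have hn1 : 1 ≤ n := by omega
  have hn1' : (1 : ℝ) ≤ n := by exact_mod_cast hn1
  have hn0 : (0 : ℝ) < n := by linarith
  have k₂ := h₂ n (by omega) hn1
  have k₃ := h₃ n (by omega) hn1
  have k₄ := h₄ n (by omega) hn1
  have k₅ := h₅ n (by omega) hn1
  rw [Real.rpow_one] at k₂
  obtain ⟨I, iI1, iI2, D, iD1, iD2, U, U', hcard, hU, hU', hf⟩ := hFD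
  obtain ⟨A, hA⟩ := hf f
  rw [Nat.card_eq_fintype_card, ← hnG] at hcard
  have hcard' : (∑ i, (Fintype.card (D i) * Fintype.card (D i) : ℝ)) ≤ n := by
    exact_mod_cast hcard
  have hmid : ∀ i, Bx (C' * (Fintype.card (D i) * Fintype.card (D i)) * (n : ℝ) ^ (γ / 2))
      (C' * (n : ℝ) ^ (δ / 4)) t'
      (Matrix.kroneckerMap (· * ·) (A i) (1 : Matrix (D i) (D i) ℂ)) := by
    intro i
    refine hmm' n hn1' (D i) (le_trans ?_ hcard') (A i)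
    exact Finset.single_le_sum
      (f := fun i => (Fintype.card (D i) * Fintype.card (D i) : ℝ))
      (fun j _ => by positivity) (Finset.mem_univ i)
  have hs1 : (1 : ℝ) ≤ (n : ℝ) ^ (δ / 2) := Real.one_le_rpow hn1' (by linarith)
  have hsum : (∑ i, C' * (Fintype.card (D i) * Fintype.card (D i) : ℝ) * (n : ℝ) ^ (γ / 2)) ≤
      (n : ℝ) ^ (1 + γ) := by
    rw [← Finset.sum_mul, ← Finset.mul_sum]
    refine le_trans ?_ k₃
    rw [Real.rpow_add hn0, Real.rpow_one, ← mul_assoc]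
    exact mul_le_mul_of_nonneg_right (mul_le_mul_of_nonneg_left hcard' (by linarith))
      (Real.rpow_nonneg hn0.le _)
  have hM := (bx_sigma hmid).mono hsum k₅ le_rfl hs1
  have hU1 := hU.mono k₂ k₄ le_rfl hs1
  have hU2 := hU'.mono k₂ k₄ le_rfl hs1
  have hprod := (hU1.mul hM hs1).mul hU2 hs1
  rw [← hA] at hprod
  have hd := hdec G (by omega) (groupMat f) (by rw [← hnG]; exact hprod)
  rw [← hnG, add_halves] at hd
  exact hd

/-- PROOF. `fd_pi (δ / 4)`, `fd_dec`, `γ = min`. -/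
theorem up (hω : omega = 2) (δ : ℝ) (hδ : 0 < δ) : ∃ γ : ℝ, 0 < γ ∧ ∃ n₀ : ℕ,
    ∀ (r : ℕ) (G : Fin r → Type) [∀ i, Group (G i)] [∀ i, Fintype (G i)],
      n₀ ≤ Fintype.card (∀ i, G i) →
      (∀ i, Small ((Fintype.card (∀ i, G i) : ℝ) ^ γ) (G i)) → ∀ f : (∀ i, G i) → ℂ,
        Dec (groupMat f) ((Fintype.card (∀ i, G i) : ℝ) ^ (1 - γ))
          ((Fintype.card (∀ i, G i) : ℝ) ^ δ) := by
  classical
  obtain ⟨h, hh, t, ht, C, hC, hpi⟩ := fd_pi (δ / 4) (by linarith)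
  obtain ⟨γ₀, hγ₀, n₀, hdec⟩ := fd_dec hω δ hδ t C hC
  refine ⟨min h γ₀, lt_min hh hγ₀, max n₀ 1, ?_⟩
  intro r G _ _ hn hS f
  have hn1 : (1 : ℝ) ≤ (Fintype.card (∀ i, G i) : ℝ) := by
    exact_mod_cast (le_max_right n₀ 1).trans hn
  have hFD := hpi (Fintype.card (∀ i, G i)) hn1 r G (by rw [Nat.card_eq_fintype_card])
    (fun i => up_small_mono (hS i)
      (Real.rpow_le_rpow_of_exponent_le hn1 (min_le_left h γ₀)))
  rw [Nat.card_eq_fintype_card] at hFD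
  refine (hdec (∀ i, G i) ((le_max_left _ _).trans hn) hFD f).mono ?_ le_rfl
  exact Real.rpow_le_rpow_of_exponent_le hn1 (by linarith [min_le_right h γ₀])

/-- PROOF. `mm_bx (δ / 4)`, `bx_dec (δ / 2) (δ / 2)`, `η = γ / 2`, `Bx.submatrix` along `Prod.swap`. -/
theorem tensor_dec (hω : omega = 2) (δ : ℝ) (hδ : 0 < δ) : ∃ γ : ℝ, 0 < γ ∧ ∃ d₀ : ℕ,
    ∀ d : ℕ, d₀ ≤ d → ∀ Z : Matrix (Fin d) (Fin d) ℂ,
      Dec (Matrix.kroneckerMap (· * ·) (1 : Matrix (Fin d) (Fin d) ℂ) Z)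
        (((d : ℝ) ^ 2) ^ (1 - γ)) (((d : ℝ) ^ 2) ^ δ) := by
  obtain ⟨t, ht, hmm⟩ := mm_bx hω (δ / 4) (by linarith)
  obtain ⟨γ, hγ, n₁, hdec⟩ := bx_dec (δ / 2) (δ / 2) (by linarith) (by linarith) t
  obtain ⟨C, hC, hmm'⟩ := hmm (γ / 2) (by linarith)
  obtain ⟨n₂, h₂⟩ := up_pow_le (C := C) (a := 1 + γ / 2) (b := 1 + γ) (by linarith)
  obtain ⟨n₃, h₃⟩ := up_pow_le (C := C) (a := δ / 4) (b := δ / 2) (by linarith)
  refine ⟨γ, hγ, n₁ + n₂ + n₃ + 1, ?_⟩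
  intro d hd Z
  have hdd : d ≤ d * d := Nat.le_mul_self d
  have hX : Fintype.card (Fin d × Fin d) = d * d := by
    rw [Fintype.card_prod, Fintype.card_fin]
  have hsq : ((d : ℝ) ^ 2) = ((d * d : ℕ) : ℝ) := by push_cast; ring
  obtain ⟨n, hn⟩ : ∃ n, n = d * d := ⟨_, rfl⟩
  rw [hsq]
  rw [← hn] at hdd hX ⊢
  have hn1 : 1 ≤ n := by omega
  have hn1' : (1 : ℝ) ≤ n := by exact_mod_cast hn1
  have hn0 : (0 : ℝ) < n := by linarith
  have k₂ := h₂ n (by omega) hn1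
  have k₃ := h₃ n (by omega) hn1
  have hnr : ((Fintype.card (Fin d) : ℝ) * (Fintype.card (Fin d) : ℝ)) = n := by
    rw [Fintype.card_fin, hn]
    push_cast
    ring
  have hZ := hmm' n hn1' (Fin d) hnr.le Z
  rw [hnr] at hZ
  have hs1 : (1 : ℝ) ≤ (n : ℝ) ^ (δ / 2) := Real.one_le_rpow hn1' (by linarith)
  have hw : C * (n : ℝ) * (n : ℝ) ^ (γ / 2) ≤ (n : ℝ) ^ (1 + γ) := by
    refine le_trans (le_of_eq ?_) k₂
    rw [Real.rpow_add hn0, Real.rpow_one, ← mul_assoc]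
  have hZ1 := hZ.mono hw k₃ le_rfl hs1
  have hZ2 := hZ1.submatrix (f := Prod.swap) (g := Prod.swap) Prod.swap_injective
    Prod.swap_injective
  have e : (Matrix.kroneckerMap (· * ·) Z (1 : Matrix (Fin d) (Fin d) ℂ)).submatrix
      Prod.swap Prod.swap =
      Matrix.kroneckerMap (· * ·) (1 : Matrix (Fin d) (Fin d) ℂ) Z := by
    ext ⟨i, j⟩ ⟨k, l⟩
    simp only [Matrix.submatrix_apply, Prod.swap_prod_mk, Matrix.kroneckerMap_apply]
    exact mul_comm _ _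
  rw [e] at hZ2
  have hd2 := hdec (Fin d × Fin d) (by rw [hX]; omega)
    (Matrix.kroneckerMap (· * ·) (1 : Matrix (Fin d) (Fin d) ℂ) Z) (by rw [hX]; exact hZ2)
  rw [hX, add_halves] at hd2
  exact hd2

end MP0775d3.Om
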